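import Pool.Agent.H556R2.BorelDefs

/-!
# The fourth level of the Borel hierarchy and completeness
-/

namespace H556R2

open TopologicalSpace

/-- `Σ⁰₄` sets: countable unions of `Π⁰₃` sets. -/
def IsSigma04 {X : Type} [TopologicalSpace X] (S : Set X) : Prop :=
  ∃ G : ℕ → Set X, (∀ i, IsPi03 (G i)) ∧ S = ⋃ i, G i

/-- `S` is `Σ⁰₄`-complete: it is `Σ⁰₄`, and every `Σ⁰₄` subset of a zero-dimensional second
countable space is the preimage of `S` under a continuous map. -/
def Sigma04Complete {Z : Type} [TopologicalSpace Z] (S : Set Z) : Prop :=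
  IsSigma04 S ∧ ∀ (X : Type) [TopologicalSpace X] [SecondCountableTopology X],
    IsTopologicalBasis {s : Set X | IsClopen s} → ∀ D : Set X, IsSigma04 D →
      ∃ f : X → Z, Continuous f ∧ f ⁻¹' S = D

end H556R2
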