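import Pool.Agent.H556R2.SExist
import Pool.Agent.H556R2.Sigma04Defs

/-!
# Exact Borel complexity of derandomization with a fixed exponent
-/

namespace H556R2

open Topology Filter TopologicalSpace

section
variable {X : Type} [TopologicalSpace X]

/-- Finite unions of `Π⁰₃` sets are `Π⁰₃`. -/
theorem isPi03_accumulate {P : ℕ → Set X} (h : ∀ n, IsPi03 (P n)) (n : ℕ) :
    IsPi03 (⋃ m ∈ Finset.range (n + 1), P m) := by
  induction n with
  | zero =>
    have : (⋃ m ∈ Finset.range (0 + 1), P m) = P 0 := by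
      simp
    rw [this]
    exact h 0
  | succ n ih =>
    have : (⋃ m ∈ Finset.range (n + 1 + 1), P m) =
        (⋃ m ∈ Finset.range (n + 1), P m) ∪ P (n + 1) := by
      rw [Finset.range_add_one (n := n + 1), Finset.set_biUnion_insert, Set.union_comm]
    rw [this]
    unfold IsPi03
    rw [Set.compl_union]
    exact IsSigma03.inter ih (h (n + 1))

theorem continuous_OS {α : X → ℕ → ℕ → ℕ → Option ℕ}
    (hα : ∀ k i b x, ∀ᶠ y in 𝓝 x, α y k i b = α x k i b) : Continuous fun x => OS (α x) := by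
  apply continuous_pi
  intro u
  apply IsLocallyConstant.continuous
  rw [IsLocallyConstant.iff_eventually_eq]
  intro x
  have h1 : ∀ᶠ y in 𝓝 x, ∀ s ∈ Finset.range u.length, demS (α y) s = demS (α x) s := by
    rw [Filter.eventually_all_finset]
    intro s _
    filter_upwards [hα (s.unpair.1 - 1).unpair.1 (s.unpair.1 - 1).unpair.2 s.unpair.2 x] with y hy
    unfold demS
    rw [hy]
  filter_upwards [h1] with y hy
  have h2 : CxS.A (demS (α y)) u.length = CxS.A (demS (α x)) u.length :=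
    S_A_congr fun s hs => hy s (Finset.mem_range.2 hs)
  unfold OS CtxS.O
  rw [h2]

end

section
open Classical Polynomial

/-- The machine with linear bounds. -/
noncomputable def linSM (i : OTM × ℕ × ℕ × ℕ) : SM :=
  ⟨i.1, C i.2.1 * X + C i.2.2.1, C i.2.2.2 * X + C i.2.2.2⟩

theorem mem_RTIME1_fam (A : Oracle) (L : Lang) : L ∈ ClassRTIME1 A ↔
    ∃ i : OTM × ℕ × ℕ × ℕ, ∀ x, verdict (.rp, linSM i, linSM i) A x =
      some (decide (x ∈ L)) := by
  have hm : ∀ (i : OTM × ℕ × ℕ × ℕ) (n : ℕ), (linSM i).m.eval n = i.2.1 * n + i.2.2.1 := by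
    intro i n
    simp [linSM]
  have hp : ∀ (i : OTM × ℕ × ℕ × ℕ) (n : ℕ), (linSM i).p.eval n = i.2.2.2 * n + i.2.2.2 := by
    intro i n
    simp [linSM]
  constructor
  · rintro ⟨M, a, b, K, h⟩
    refine ⟨(M, a, b, K), fun x => ?_⟩
    obtain ⟨h1, h2, h3⟩ := h x
    have ht := SM.tot_pos (linSM (M, a, b, K)) x
    have e1 : (linSM (M, a, b, K)).halts A x := by
      unfold SM.halts
      rw [hm, hp]
      exact h1
    by_cases hx : x ∈ L
    · have h4 : (linSM (M, a, b, K)).tot x ≤ 2 * (linSM (M, a, b, K)).acc A x := by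
        unfold SM.tot SM.acc
        rw [hm, hp]
        exact h2 hx
      have h5 : (linSM (M, a, b, K)).acc A x ≠ 0 := by omega
      simp only [verdict]
      rw [if_pos e1, if_neg h5, if_pos h4]
      simp [hx]
    · have h4 : (linSM (M, a, b, K)).acc A x = 0 := by
        unfold SM.acc
        rw [hm, hp]
        exact h3 hx
      simp only [verdict]
      rw [if_pos e1, if_pos h4]
      simp [hx]
  · rintro ⟨i, h⟩
    refine ⟨i.1, i.2.1, i.2.2.1, i.2.2.2, fun x => ?_⟩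
    have h0 := h x
    have ht := SM.tot_pos (linSM i) x
    have e1 : (linSM i).halts A x ↔
        HaltsAll A i.1 x (i.2.1 * x.length + i.2.2.1) (i.2.2.2 * x.length + i.2.2.2) := by
      unfold SM.halts
      rw [hm, hp]
      exact Iff.rfl
    have e2 : (linSM i).acc A x =
        accCount A i.1 x (i.2.1 * x.length + i.2.2.1) (i.2.2.2 * x.length + i.2.2.2) := by
      unfold SM.acc
      rw [hm, hp]
      rfl
    have e3 : (linSM i).tot x = 2 ^ (i.2.1 * x.length + i.2.2.1) := by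
      unfold SM.tot
      rw [hm]
    rw [← e1, ← e2, ← e3]
    simp only [verdict] at h0
    split_ifs at h0 with h1 h2 h3
    · refine ⟨h1, fun hx => ?_, fun _ => h2⟩
      simp [hx] at h0
    · refine ⟨h1, fun _ => h3, fun hx => ?_⟩
      simp [hx] at h0

theorem mem_DTIME_fam (c : ℕ) (A : Oracle) (L : Lang) : L ∈ ClassDTIME c A ↔
    ∃ j : OTM × ℕ, ∀ x : List Bool,
      outcome A j.1 x [] (j.2 * x.length ^ c + j.2) = some (decide (x ∈ L)) := by
  constructor
  · rintro ⟨M, K, h⟩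
    refine ⟨(M, K), fun x => ?_⟩
    by_cases hx : x ∈ L
    · rw [(h x).1 hx]; simp [hx]
    · rw [(h x).2 hx]; simp [hx]
  · rintro ⟨⟨M, K⟩, h⟩
    refine ⟨M, K, fun x => ⟨fun hx => ?_, fun hx => ?_⟩⟩
    · have := h x
      simp only at this
      rw [this]; simp [hx]
    · have := h x
      simp only at this
      rw [this]; simp [hx]

theorem sigma_RTIME_DTIME (c : ℕ) : IsSigma03 {A | ¬ ClassRTIME1 A ⊆ ClassDTIME c A} :=
  isSigma03_not_subset (I := OTM × ℕ × ℕ × ℕ) (J := OTM × ℕ)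
    (v' := fun j A x => outcome A j.1 x [] (j.2 * x.length ^ c + j.2))
    (fun i x => local_verdict .rp (linSM i) (linSM i) x)
    (fun j x => ⟨j.2 * x.length ^ c + j.2, fun _ _ h => outcome_congr h⟩)
    mem_RTIME1_fam (mem_DTIME_fam c)

theorem linSM_bd (i : OTM × ℕ × ℕ × ℕ) (n : ℕ) :
    Sem.bd (.rp, linSM i, linSM i) n ≤ (2 * i.2.2.2) * n + 2 * i.2.2.2 := by
  simp only [Sem.bd, linSM, eval_add, eval_mul, eval_C, eval_X]
  apply le_of_eq
  ring

theorem OS_linear_RTIME {α : ℕ → ℕ → ℕ → Option ℕ} {c0 : ℕ}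
    (hα : ∀ c, c0 ≤ c → ∀ i, {b | α c i b ≠ none}.Finite) :
    ClassRTIME1 (OS α) ⊆ ClassDTIME (2 * c0 + 4) (OS α) := by
  intro L hL
  obtain ⟨i, hi⟩ := (mem_RTIME1_fam _ _).1 hL
  apply OS_linear hα (e := (.rp, linSM i, linSM i)) (linSM_bd i)
  intro x
  exact ⟨decide (x ∈ L), by simp, hi x⟩

/-- The set of oracles relative to which one-sided linear-time computation can be made
deterministic within a fixed polynomial time is `Σ⁰₄`-complete. -/
theorem fixed_exponent_complete :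
    Sigma04Complete {A : Oracle | ∃ c, ClassRTIME1 A ⊆ ClassDTIME c A} := by
  refine ⟨⟨fun c => {A | ClassRTIME1 A ⊆ ClassDTIME c A}, fun c => ?_, ?_⟩, ?_⟩
  · exact sigma_RTIME_DTIME c
  · ext A
    simp only [Set.mem_ofPred_eq, Set.mem_iUnion]
  · intro Z _ _ hZ D hD
    obtain ⟨P, hP, rfl⟩ := hD
    have hmat : ∀ c, ∃ α : Z → ℕ → ℕ → Option ℕ, (∀ i b x, ∀ᶠ y in 𝓝 x, α y i b = α x i b) ∧
        (∀ x ∈ (⋃ m ∈ Finset.range (c + 1), P m)ᶜ, ∃ i, ∀ t, ∃ b, α x i b = some t) ∧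
        (∀ x ∉ (⋃ m ∈ Finset.range (c + 1), P m)ᶜ, ∀ i, {b | α x i b ≠ none}.Finite) :=
      fun c => exists_matrix hZ (isPi03_accumulate hP c)
    choose α h1 h2 h3 using hmat
    refine ⟨fun x => OS fun c => α c x, continuous_OS fun k i b x => h1 k i b x, ?_⟩
    ext x
    simp only [Set.mem_preimage, Set.mem_ofPred_eq, Set.mem_iUnion]
    constructor
    · rintro ⟨c, hc⟩
      by_contra hx
      push Not at hx
      have hx' : x ∈ (⋃ m ∈ Finset.range (c + 1), P m)ᶜ := by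
        simp only [Set.mem_compl_iff, Set.mem_iUnion, not_exists]
        intro m _
        exact hx m
      obtain ⟨i, hi⟩ := h2 c x hx'
      exact OS_level (α := fun c => α c x) (k := c) (i := i) hi fun L hL => hc hL.1
    · rintro ⟨c0, hc0⟩
      refine ⟨2 * c0 + 4, OS_linear_RTIME fun c hc i => h3 c x ?_ i⟩
      simp only [Set.mem_compl_iff, Set.mem_iUnion, not_not]
      exact ⟨c0, Finset.mem_range.2 (by omega), hc0⟩

end

end H556R2

namespace H556R2

open Topology Filter TopologicalSpace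

open Classical Polynomial

/-- The reduction behind the completeness theorems. -/
theorem sigma04_hard {S : Set Oracle}
    (hlin : ∀ (α : ℕ → ℕ → ℕ → Option ℕ) (c0 : ℕ),
      (∀ c, c0 ≤ c → ∀ i, {b | α c i b ≠ none}.Finite) → OS α ∈ S)
    (hlev : ∀ (α : ℕ → ℕ → ℕ → Option ℕ), (∀ c, ∃ i, ∀ t, ∃ b, α c i b = some t) → OS α ∉ S) :
    ∀ (X : Type) [TopologicalSpace X] [SecondCountableTopology X],
    IsTopologicalBasis {s : Set X | IsClopen s} → ∀ D : Set X, IsSigma04 D →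
      ∃ f : X → Oracle, Continuous f ∧ f ⁻¹' S = D := by
  intro Z _ _ hZ D hD
  obtain ⟨P, hP, rfl⟩ := hD
  have hmat : ∀ c, ∃ α : Z → ℕ → ℕ → Option ℕ, (∀ i b x, ∀ᶠ y in 𝓝 x, α y i b = α x i b) ∧
      (∀ x ∈ (⋃ m ∈ Finset.range (c + 1), P m)ᶜ, ∃ i, ∀ t, ∃ b, α x i b = some t) ∧
      (∀ x ∉ (⋃ m ∈ Finset.range (c + 1), P m)ᶜ, ∀ i, {b | α x i b ≠ none}.Finite) :=
    fun c => exists_matrix hZ (isPi03_accumulate hP c)
  choose α h1 h2 h3 using hmat
  refine ⟨fun x => OS fun c => α c x, continuous_OS fun k i b x => h1 k i b x, ?_⟩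
  ext x
  simp only [Set.mem_preimage, Set.mem_iUnion]
  constructor
  · intro hc
    by_contra hx
    push Not at hx
    refine hlev (fun c => α c x) (fun c => h2 c x ?_) hc
    simp only [Set.mem_compl_iff, Set.mem_iUnion, not_exists]
    intro m _
    exact hx m
  · rintro ⟨c0, hc0⟩
    refine hlin (fun c => α c x) c0 fun c hc i => h3 c x ?_ i
    simp only [Set.mem_compl_iff, Set.mem_iUnion, not_not]
    exact ⟨c0, Finset.mem_range.2 (by omega), hc0⟩

theorem mem_ZPTIME1_fam (A : Oracle) (L : Lang) : L ∈ ClassZPTIME1 A ↔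
    ∃ j : (OTM × ℕ × ℕ × ℕ) × (OTM × ℕ × ℕ × ℕ), ∀ x,
      vZPP (linSM j.1) (linSM j.2) A x = some (decide (x ∈ L)) := by
  constructor
  · rintro ⟨h, h'⟩
    obtain ⟨E, hE⟩ := (mem_RTIME1_fam _ _).1 h
    obtain ⟨E', hE'⟩ := (mem_RTIME1_fam _ _).1 h'
    refine ⟨(E, E'), fun x => ?_⟩
    unfold vZPP
    rw [hE x, hE' x]
    by_cases hx : x ∈ L <;> simp [hx]
  · rintro ⟨⟨E, E'⟩, h⟩
    refine ⟨(mem_RTIME1_fam _ _).2 ⟨E, fun x => ?_⟩, (mem_RTIME1_fam _ _).2 ⟨E', fun x => ?_⟩⟩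
    · have h1 := h x
      unfold vZPP at h1
      simp only at h1
      split_ifs at h1 with h2 h3
      · rw [h2.1, ← h1]
      · rw [h3.1, ← h1]
    · have h1 := h x
      unfold vZPP at h1
      simp only at h1
      split_ifs at h1 with h2 h3
      · have hx : x ∈ L := by
          by_contra hx
          simp [hx] at h1
        rw [h2.2]
        simp [hx]
      · have hx : x ∉ L := by
          intro hx
          simp [hx] at h1
        rw [h3.2]
        simp [hx]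

theorem sigma_ZPTIME_DTIME (c : ℕ) : IsSigma03 {A | ¬ ClassZPTIME1 A ⊆ ClassDTIME c A} := by
  refine isSigma03_not_subset (I := (OTM × ℕ × ℕ × ℕ) × (OTM × ℕ × ℕ × ℕ)) (J := OTM × ℕ)
    (v' := fun j A x => outcome A j.1 x [] (j.2 * x.length ^ c + j.2)) ?_
    (fun j x => ⟨j.2 * x.length ^ c + j.2, fun _ _ h => outcome_congr h⟩)
    mem_ZPTIME1_fam (mem_DTIME_fam c)
  intro j x
  obtain ⟨N, hN⟩ := local_verdict .rp (linSM j.1) (linSM j.1) x
  obtain ⟨N', hN'⟩ := local_verdict .rp (linSM j.2) (linSM j.2) x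
  refine ⟨max N N', fun A A' h => ?_⟩
  unfold vZPP
  rw [hN A A' fun u hu => h u (hu.trans (le_max_left _ _)),
    hN' A A' fun u hu => h u (hu.trans (le_max_right _ _))]

/-- The zero-error version. -/
theorem fixed_exponent_ZPP_complete :
    Sigma04Complete {A : Oracle | ∃ c, ClassZPTIME1 A ⊆ ClassDTIME c A} := by
  refine ⟨⟨fun c => {A | ClassZPTIME1 A ⊆ ClassDTIME c A}, fun c => sigma_ZPTIME_DTIME c, ?_⟩,
    sigma04_hard ?_ ?_⟩
  · ext A
    simp only [Set.mem_ofPred_eq, Set.mem_iUnion]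
  · intro α c0 hα
    exact ⟨2 * c0 + 4, fun L hL => OS_linear_RTIME hα hL.1⟩
  · rintro α hα ⟨c, hc⟩
    obtain ⟨i, hi⟩ := hα c
    exact OS_level hi hc

/-- The pair of linear-time verifiers. -/
theorem mem_NTIME1_fam (A : Oracle) (L : Lang) : L ∈ ClassNTIME1 A ∩ ClassCoNTIME1 A ↔
    ∃ j : (OTM × ℕ × ℕ × ℕ) × (OTM × ℕ × ℕ × ℕ), ∀ x,
      verdict (.npc, linSM j.1, linSM j.2) A x = some (decide (x ∈ L)) := by
  have hm : ∀ (i : OTM × ℕ × ℕ × ℕ) (n : ℕ), (linSM i).m.eval n = i.2.1 * n + i.2.2.1 := by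
    intro i n
    simp [linSM]
  have hp : ∀ (i : OTM × ℕ × ℕ × ℕ) (n : ℕ), (linSM i).p.eval n = i.2.2.2 * n + i.2.2.2 := by
    intro i n
    simp [linSM]
  have e1 : ∀ (i : OTM × ℕ × ℕ × ℕ) (x : List Bool), (linSM i).halts A x ↔
        HaltsAll A i.1 x (i.2.1 * x.length + i.2.2.1) (i.2.2.2 * x.length + i.2.2.2) := by
    intro i x
    unfold SM.halts
    rw [hm, hp]
    exact Iff.rfl
  have e2 : ∀ (i : OTM × ℕ × ℕ × ℕ) (x : List Bool), (linSM i).acc A x =
        accCount A i.1 x (i.2.1 * x.length + i.2.2.1) (i.2.2.2 * x.length + i.2.2.2) := by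
    intro i x
    unfold SM.acc
    rw [hm, hp]
    rfl
  constructor
  · rintro ⟨⟨M, a, b, K, h⟩, ⟨M', a', b', K', h'⟩⟩
    refine ⟨((M, a, b, K), (M', a', b', K')), fun x => ?_⟩
    have h1 := h x
    have h2 := h' x
    have f1 : (linSM (M, a, b, K)).halts A x := (e1 _ x).2 h1.1
    have f2 : (linSM (M', a', b', K')).halts A x := (e1 _ x).2 h2.1
    have g1 : x ∈ L ↔ 0 < (linSM (M, a, b, K)).acc A x := by rw [e2]; exact h1.2
    have g2 : x ∈ Lᶜ ↔ 0 < (linSM (M', a', b', K')).acc A x := by rw [e2]; exact h2.2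
    simp only [verdict]
    rw [if_pos ⟨f1, f2⟩]
    by_cases hx : x ∈ L
    · have g3 := g1.1 hx
      have g4 : (linSM (M', a', b', K')).acc A x = 0 := by
        by_contra hne
        exact (g2.2 (Nat.pos_of_ne_zero hne)) hx
      rw [if_pos ⟨by omega, g4⟩]
      simp [hx]
    · have g3 := g2.1 hx
      have g4 : (linSM (M, a, b, K)).acc A x = 0 := by
        by_contra hne
        exact hx (g1.2 (Nat.pos_of_ne_zero hne))
      rw [if_neg (by omega), if_pos ⟨g4, by omega⟩]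
      simp [hx]
  · rintro ⟨⟨i, i'⟩, h⟩
    refine ⟨⟨i.1, i.2.1, i.2.2.1, i.2.2.2, fun x => ?_⟩,
      ⟨i'.1, i'.2.1, i'.2.2.1, i'.2.2.2, fun x => ?_⟩⟩
    · have h0 := h x
      rw [← e1, ← e2]
      simp only [verdict] at h0
      split_ifs at h0 with h1 h2 h3
      · refine ⟨h1.1, fun _ => by omega, fun _ => ?_⟩
        by_contra hx
        simp [hx] at h0
      · refine ⟨h1.1, fun hx => ?_, fun hx => by omega⟩
        simp [hx] at h0
    · have h0 := h x
      rw [← e1, ← e2]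
      simp only [verdict] at h0
      split_ifs at h0 with h1 h2 h3
      · refine ⟨h1.2, fun hx => ?_, fun hx => by omega⟩
        have hx' : x ∉ L := hx
        simp [hx'] at h0
      · refine ⟨h1.2, fun _ => by omega, fun _ => ?_⟩
        intro hx
        simp [hx] at h0

theorem sigma_NTIME_DTIME (c : ℕ) :
    IsSigma03 {A | ¬ ClassNTIME1 A ∩ ClassCoNTIME1 A ⊆ ClassDTIME c A} :=
  isSigma03_not_subset (I := (OTM × ℕ × ℕ × ℕ) × (OTM × ℕ × ℕ × ℕ)) (J := OTM × ℕ)
    (v' := fun j A x => outcome A j.1 x [] (j.2 * x.length ^ c + j.2))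
    (fun j x => local_verdict .npc (linSM j.1) (linSM j.2) x)
    (fun j x => ⟨j.2 * x.length ^ c + j.2, fun _ _ h => outcome_congr h⟩)
    mem_NTIME1_fam (mem_DTIME_fam c)

theorem linSM_bd' (i i' : OTM × ℕ × ℕ × ℕ) (n : ℕ) :
    Sem.bd (.npc, linSM i, linSM i') n ≤ (i.2.2.2 + i'.2.2.2) * n + (i.2.2.2 + i'.2.2.2) := by
  simp only [Sem.bd, linSM, eval_add, eval_mul, eval_C, eval_X]
  apply le_of_eq
  ring

/-- The version for `NP ∩ coNP`. -/
theorem fixed_exponent_npc_complete :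
    Sigma04Complete {A : Oracle | ∃ c, ClassNTIME1 A ∩ ClassCoNTIME1 A ⊆ ClassDTIME c A} := by
  refine ⟨⟨fun c => {A | ClassNTIME1 A ∩ ClassCoNTIME1 A ⊆ ClassDTIME c A},
    fun c => sigma_NTIME_DTIME c, ?_⟩, sigma04_hard ?_ ?_⟩
  · ext A
    simp only [Set.mem_ofPred_eq, Set.mem_iUnion]
  · intro α c0 hα
    refine ⟨2 * c0 + 4, fun L hL => ?_⟩
    obtain ⟨⟨i, i'⟩, hi⟩ := (mem_NTIME1_fam _ _).1 hL
    apply OS_linear hα (e := (.npc, linSM i, linSM i')) (linSM_bd' i i')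
    intro x
    exact ⟨decide (x ∈ L), by simp, hi x⟩
  · rintro α hα ⟨c, hc⟩
    obtain ⟨i, hi⟩ := hα c
    exact OS_level hi fun L hL => hc (classZPTIME1_subset _ hL)

end H556R2
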