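import Mathlib

/-!
# The third level of the Borel hierarchy and completeness
-/

namespace H556R2

open TopologicalSpace

/-- `Σ⁰₃` sets: countable unions of `Gδ` sets. -/
def IsSigma03 {X : Type} [TopologicalSpace X] (S : Set X) : Prop :=
  ∃ G : ℕ → Set X, (∀ i, IsGδ (G i)) ∧ S = ⋃ i, G i

/-- `Π⁰₃` sets: complements of `Σ⁰₃` sets. -/
def IsPi03 {X : Type} [TopologicalSpace X] (S : Set X) : Prop := IsSigma03 Sᶜ

/-- `S` is `Σ⁰₃`-complete: it is `Σ⁰₃`, and every `Σ⁰₃` subset of a zero-dimensional second
countable space is the preimage of `S` under a continuous map. -/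
def Sigma03Complete {Z : Type} [TopologicalSpace Z] (S : Set Z) : Prop :=
  IsSigma03 S ∧ ∀ (X : Type) [TopologicalSpace X] [SecondCountableTopology X],
    IsTopologicalBasis {s : Set X | IsClopen s} → ∀ D : Set X, IsSigma03 D →
      ∃ f : X → Z, Continuous f ∧ f ⁻¹' S = D

/-- `S` is `Π⁰₃`-complete: it is `Π⁰₃`, and every `Π⁰₃` subset of a zero-dimensional second
countable space is the preimage of `S` under a continuous map. -/
def Pi03Complete {Z : Type} [TopologicalSpace Z] (S : Set Z) : Prop :=
  IsPi03 S ∧ ∀ (X : Type) [TopologicalSpace X] [SecondCountableTopology X],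
    IsTopologicalBasis {s : Set X | IsClopen s} → ∀ D : Set X, IsPi03 D →
      ∃ f : X → Z, Continuous f ∧ f ⁻¹' S = D

end H556R2
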