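import Pool.Agent.H556R2.Final
import Pool.Agent.H556R2.BorelDefs

/-!
# Borel complexity
-/

namespace H556R2

open Topology Filter TopologicalSpace

section
variable {X : Type} [TopologicalSpace X]

theorem IsGδ.isSigma03 {S : Set X} (h : IsGδ S) : IsSigma03 S :=
  ⟨fun _ => S, fun _ => h, (Set.iUnion_const S).symm⟩

theorem isSigma03_iUnion {ι : Type} [Countable ι] {S : ι → Set X} (h : ∀ i, IsSigma03 (S i)) :
    IsSigma03 (⋃ i, S i) := by
  rcases isEmpty_or_nonempty ι with hι | hι
  · rw [Set.iUnion_of_empty]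
    exact IsGδ.isSigma03 IsGδ.empty
  · obtain ⟨f, hf⟩ := exists_surjective_nat ι
    choose G hG hS using h
    refine ⟨fun n => G (f n.unpair.1) n.unpair.2, fun n => hG _ _, ?_⟩
    ext x
    simp only [Set.mem_iUnion]
    constructor
    · rintro ⟨i, hi⟩
      rw [hS i, Set.mem_iUnion] at hi
      obtain ⟨j, hj⟩ := hi
      obtain ⟨n, rfl⟩ := hf i
      exact ⟨Nat.pair n j, by simpa using hj⟩
    · rintro ⟨n, hn⟩
      refine ⟨f n.unpair.1, ?_⟩
      rw [hS, Set.mem_iUnion]
      exact ⟨_, hn⟩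

theorem IsSigma03.inter {S T : Set X} (hS : IsSigma03 S) (hT : IsSigma03 T) :
    IsSigma03 (S ∩ T) := by
  obtain ⟨G, hG, rfl⟩ := hS
  obtain ⟨H, hH, rfl⟩ := hT
  have : (⋃ i, G i) ∩ (⋃ i, H i) = ⋃ p : ℕ × ℕ, G p.1 ∩ H p.2 := by
    ext x
    simp only [Set.mem_inter_iff, Set.mem_iUnion, Prod.exists]
    constructor
    · rintro ⟨⟨i, hi⟩, ⟨j, hj⟩⟩
      exact ⟨i, j, hi, hj⟩
    · rintro ⟨i, j, hi, hj⟩
      exact ⟨⟨i, hi⟩, ⟨j, hj⟩⟩
  rw [this]
  exact isSigma03_iUnion fun p => IsGδ.isSigma03 ((hG _).inter (hH _))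

end

/-! ### Membership -/

theorem eventually_agree (A : Oracle) (N : ℕ) :
    ∀ᶠ A' in 𝓝 A, ∀ u : List Bool, u.length ≤ N → A' u = A u := by
  have h1 : ∀ᶠ A' in 𝓝 A, ∀ u ∈ (List.finite_length_le Bool N).toFinset, A' u = A u := by
    rw [Filter.eventually_all_finset]
    intro u _
    exact ((continuous_apply u).tendsto A).eventually
      ((isOpen_discrete {A u}).mem_nhds rfl)
  filter_upwards [h1] with A' hA' u hu
  exact hA' u (by simpa using hu)

theorem isOpen_of_local {φ : Oracle → Prop} {N : ℕ}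
    (h : ∀ A A' : Oracle, (∀ u : List Bool, u.length ≤ N → A u = A' u) → φ A → φ A') :
    IsOpen {A | φ A} := by
  rw [isOpen_iff_eventually]
  intro A hA
  filter_upwards [eventually_agree A N] with A' hA'
  exact h A A' (fun u hu => (hA' u hu).symm) hA

open Classical in
theorem isSigma03_not_subset {I J : Type} [Countable I] [Countable J]
    {v : I → Oracle → List Bool → Option Bool} {v' : J → Oracle → List Bool → Option Bool}
    (hv : ∀ i x, ∃ N, ∀ A A' : Oracle, (∀ u : List Bool, u.length ≤ N → A u = A' u) →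
      v i A x = v i A' x)
    (hv' : ∀ j x, ∃ N, ∀ A A' : Oracle, (∀ u : List Bool, u.length ≤ N → A u = A' u) →
      v' j A x = v' j A' x)
    {Cl Cl' : Oracle → Set Lang}
    (hCl : ∀ A L, L ∈ Cl A ↔ ∃ i, ∀ x, v i A x = some (decide (x ∈ L)))
    (hCl' : ∀ A L, L ∈ Cl' A ↔ ∃ j, ∀ x, v' j A x = some (decide (x ∈ L))) :
    IsSigma03 {A | ¬ Cl A ⊆ Cl' A} := by
  have key : {A | ¬ Cl A ⊆ Cl' A} = ⋃ i : I, ((⋂ x : List Bool, {A | v i A x ≠ none}) ∩
      ⋂ j : J, ⋃ x : List Bool, {A | v' j A x ≠ v i A x}) := by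
    ext A
    simp only [Set.mem_ofPred_eq, Set.not_subset, Set.mem_iUnion, Set.mem_inter_iff,
      Set.mem_iInter]
    constructor
    · rintro ⟨L, hL, hL'⟩
      obtain ⟨i, hi⟩ := (hCl A L).1 hL
      refine ⟨i, fun x => by rw [hi x]; simp, fun j => ?_⟩
      by_contra hcon
      push Not at hcon
      exact hL' ((hCl' A L).2 ⟨j, fun x => by rw [hcon x, hi x]⟩)
    · rintro ⟨i, hi, hj⟩
      obtain ⟨L, hLdef⟩ : ∃ L : Lang, ∀ x, x ∈ L ↔ v i A x = some true :=
        ⟨{x | v i A x = some true}, fun x => Iff.rfl⟩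
      have hL : ∀ x, v i A x = some (decide (x ∈ L)) := by
        intro x
        obtain ⟨b, hb⟩ := Option.ne_none_iff_exists'.1 (hi x)
        have h0 := hLdef x
        rw [hb] at h0 ⊢
        cases b
        · have : x ∉ L := by
            intro hx
            have h1 := h0.1 hx
            simp at h1
          simp [this]
        · have : x ∈ L := h0.2 rfl
          simp [this]
      refine ⟨L, (hCl A L).2 ⟨i, hL⟩, fun hL' => ?_⟩
      obtain ⟨j, hj'⟩ := (hCl' A L).1 hL'
      obtain ⟨x, hx⟩ := hj j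
      apply hx
      rw [hj' x, hL x]
  rw [key]
  apply isSigma03_iUnion
  intro i
  apply IsGδ.isSigma03
  apply IsGδ.inter
  · apply IsGδ.iInter_of_isOpen
    intro x
    obtain ⟨N, hN⟩ := hv i x
    apply isOpen_of_local (N := N)
    intro A A' hA h
    rwa [← hN A A' hA]
  · apply IsGδ.iInter_of_isOpen
    intro j
    apply isOpen_iUnion
    intro x
    obtain ⟨N, hN⟩ := hv i x
    obtain ⟨N', hN'⟩ := hv' j x
    apply isOpen_of_local (N := max N N')
    intro A A' hA h
    rw [← hN A A' fun u hu => hA u (hu.trans (le_max_left _ _)),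
      ← hN' A A' fun u hu => hA u (hu.trans (le_max_right _ _))]
    exact h

section
open Classical

theorem local_verdict (k : Kind) (E E' : SM) (x : List Bool) : ∃ N, ∀ A A' : Oracle,
    (∀ u : List Bool, u.length ≤ N → A u = A' u) →
      verdict (k, E, E') A x = verdict (k, E, E') A' x :=
  ⟨Sem.bd (k, E, E') x.length, fun _ _ h => verdict_congr h⟩

theorem local_outcome (M : OTM) (p : Polynomial ℕ) (x : List Bool) : ∃ N, ∀ A A' : Oracle,
    (∀ u : List Bool, u.length ≤ N → A u = A' u) →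
      outcome A M x [] (p.eval x.length) = outcome A' M x [] (p.eval x.length) :=
  ⟨p.eval x.length, fun _ _ h => outcome_congr h⟩

theorem local_vNP (E : SM) (x : List Bool) : ∃ N, ∀ A A' : Oracle,
    (∀ u : List Bool, u.length ≤ N → A u = A' u) → vNP E A x = vNP E A' x := by
  refine ⟨E.p.eval x.length, fun A A' h => ?_⟩
  have h1 : E.halts A x ↔ E.halts A' x := haltsAll_congr h
  have h2 : E.acc A x = E.acc A' x := accCount_congr h
  unfold vNP
  rw [h2]
  exact if_congr h1 rfl rfl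

theorem mem_P_fam (A : Oracle) (L : Lang) : L ∈ ClassP A ↔ ∃ j : OTM × Polynomial ℕ, ∀ x,
    outcome A j.1 x [] (j.2.eval x.length) = some (decide (x ∈ L)) := by
  rw [mem_classP]
  simp only [Prod.exists]

theorem mem_npc_fam (A : Oracle) (L : Lang) : L ∈ ClassNP A ∩ ClassCoNP A ↔
    ∃ j : SM × SM, ∀ x, verdict (.npc, j.1, j.2) A x = some (decide (x ∈ L)) := by
  rw [mem_npc]
  simp only [Prod.exists]

theorem sigma_RP_P : IsSigma03 {A | ¬ ClassRP A ⊆ ClassP A} :=
  isSigma03_not_subset (I := SM) (J := OTM × Polynomial ℕ)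
    (fun E x => local_verdict .rp E E x) (fun j x => local_outcome j.1 j.2 x)
    (fun _ _ => mem_classRP) mem_P_fam

theorem sigma_BPP_NP : IsSigma03 {A | ¬ ClassBPP A ⊆ ClassNP A} :=
  isSigma03_not_subset (I := SM) (J := SM)
    (fun E x => local_verdict .bpp E E x) (fun E x => local_vNP E x)
    (fun _ _ => mem_classBPP) (fun _ _ => mem_classNP)

theorem sigma_NP_BPP : IsSigma03 {A | ¬ ClassNP A ⊆ ClassBPP A} :=
  isSigma03_not_subset (I := SM) (J := SM)
    (fun E x => local_vNP E x) (fun E x => local_verdict .bpp E E x)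
    (fun _ _ => mem_classNP) (fun _ _ => mem_classBPP)

theorem sigma_NP_RP : IsSigma03 {A | ¬ ClassNP A ⊆ ClassRP A} :=
  isSigma03_not_subset (I := SM) (J := SM)
    (fun E x => local_vNP E x) (fun E x => local_verdict .rp E E x)
    (fun _ _ => mem_classNP) (fun _ _ => mem_classRP)

theorem sigma_npc_P : IsSigma03 {A | ¬ ClassNP A ∩ ClassCoNP A ⊆ ClassP A} :=
  isSigma03_not_subset (I := SM × SM) (J := OTM × Polynomial ℕ)
    (fun j x => local_verdict .npc j.1 j.2 x) (fun j x => local_outcome j.1 j.2 x)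
    mem_npc_fam mem_P_fam

/-- The verdict of a pair of machines for `ZPP`. -/
noncomputable def vZPP (E E' : SM) (A : Oracle) (x : List Bool) : Option Bool :=
  if verdict (.rp, E, E) A x = some true ∧ verdict (.rp, E', E') A x = some false then some true
  else if verdict (.rp, E, E) A x = some false ∧ verdict (.rp, E', E') A x = some true then
    some false
  else none

theorem mem_ZPP_fam (A : Oracle) (L : Lang) : L ∈ ClassZPP A ↔
    ∃ j : SM × SM, ∀ x, vZPP j.1 j.2 A x = some (decide (x ∈ L)) := by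
  constructor
  · rintro ⟨h, h'⟩
    obtain ⟨E, hE⟩ := mem_classRP.1 h
    obtain ⟨E', hE'⟩ := mem_classRP.1 h'
    refine ⟨(E, E'), fun x => ?_⟩
    unfold vZPP
    rw [hE x, hE' x]
    by_cases hx : x ∈ L <;> simp [hx]
  · rintro ⟨⟨E, E'⟩, h⟩
    refine ⟨mem_classRP.2 ⟨E, fun x => ?_⟩, mem_classRP.2 ⟨E', fun x => ?_⟩⟩
    · have h1 := h x
      unfold vZPP at h1
      simp only at h1
      split_ifs at h1 with h2 h3
      · rw [h2.1, ← h1]
      · rw [h3.1, ← h1]
    · have h1 := h x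
      unfold vZPP at h1
      simp only at h1
      split_ifs at h1 with h2 h3
      · have hx : x ∈ L := by
          by_contra hx
          simp [hx] at h1
        rw [h2.2]
        simp [hx]
      · have hx : x ∉ L := by
          intro hx
          simp [hx] at h1
        rw [h3.2]
        simp [hx]

theorem sigma_ZPP_P : IsSigma03 {A | ¬ ClassZPP A ⊆ ClassP A} := by
  refine isSigma03_not_subset (I := SM × SM) (J := OTM × Polynomial ℕ) ?_
    (fun j x => local_outcome j.1 j.2 x) mem_ZPP_fam mem_P_fam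
  intro j x
  obtain ⟨N, hN⟩ := local_verdict .rp j.1 j.1 x
  obtain ⟨N', hN'⟩ := local_verdict .rp j.2 j.2 x
  refine ⟨max N N', fun A A' h => ?_⟩
  unfold vZPP
  rw [hN A A' fun u hu => h u (hu.trans (le_max_left _ _)),
    hN' A A' fun u hu => h u (hu.trans (le_max_right _ _))]

end

/-! ### Reduction -/

section
variable {X : Type} [TopologicalSpace X]

/-- An open set in a zero-dimensional second countable space is a countable union of clopen
sets. -/
theorem exists_clopen_seq [SecondCountableTopology X]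
    (hX : IsTopologicalBasis {s : Set X | IsClopen s}) {U : Set X} (hU : IsOpen U) :
    ∃ K : ℕ → Set X, (∀ k, IsClopen (K k)) ∧ U = ⋃ k, K k := by
  obtain ⟨T, hTc, hTs, hTU⟩ := isOpen_sUnion_countable
    {s : Set X | IsClopen s ∧ s ⊆ U} (fun s hs => hs.1.isOpen)
  have hU' : ⋃₀ {s : Set X | IsClopen s ∧ s ⊆ U} = U := by
    apply Set.Subset.antisymm
    · exact Set.sUnion_subset fun s hs => hs.2
    · intro x hx
      obtain ⟨s, hs, hxs, hsU⟩ := hX.exists_subset_of_mem_open hx hU
      exact ⟨s, ⟨hs, hsU⟩, hxs⟩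
  obtain ⟨K, hK⟩ := (hTc.insert ∅).exists_eq_range ⟨∅, Set.mem_insert _ _⟩
  have hmem : ∀ k, K k = ∅ ∨ K k ∈ T := fun k => by
    have : K k ∈ insert ∅ T := by
      rw [hK]
      exact Set.mem_range_self k
    simpa using this
  refine ⟨K, fun k => ?_, ?_⟩
  · rcases hmem k with h | h
    · rw [h]
      exact isClopen_empty
    · exact (hTs h).1
  · rw [← hU', ← hTU]
    ext x
    simp only [Set.mem_sUnion, Set.mem_iUnion]
    constructor
    · rintro ⟨t, ht, hx⟩
      have : t ∈ insert ∅ T := Set.mem_insert_of_mem _ ht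
      rw [hK] at this
      obtain ⟨k, rfl⟩ := this
      exact ⟨k, hx⟩
    · rintro ⟨k, hx⟩
      rcases hmem k with h | h
      · rw [h] at hx
        exact absurd hx (Set.notMem_empty x)
      · exact ⟨_, h, hx⟩

open Classical in
/-- The progress counter. -/
noncomputable def ctr (K : ℕ → ℕ → Set X) (x : X) : ℕ → ℕ
  | 0 => 0
  | b + 1 => if ∃ k ≤ b, x ∈ K (ctr K x b) k then ctr K x b + 1 else ctr K x b

open Classical in
/-- The emitted values. -/
noncomputable def emit (K : ℕ → ℕ → Set X) (x : X) (b : ℕ) : Option ℕ :=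
  if ∃ k ≤ b, x ∈ K (ctr K x b) k then some (ctr K x b) else none

omit [TopologicalSpace X] in
theorem ctr_succ_of_emit {K : ℕ → ℕ → Set X} {x : X} {b : ℕ}
    (h : ∃ k ≤ b, x ∈ K (ctr K x b) k) : ctr K x (b + 1) = ctr K x b + 1 := by
  simp only [ctr, if_pos h]

omit [TopologicalSpace X] in
theorem ctr_succ_of_not {K : ℕ → ℕ → Set X} {x : X} {b : ℕ}
    (h : ¬ ∃ k ≤ b, x ∈ K (ctr K x b) k) : ctr K x (b + 1) = ctr K x b := by
  simp only [ctr, if_neg h]

omit [TopologicalSpace X] in
theorem ctr_mono {K : ℕ → ℕ → Set X} {x : X} : Monotone (ctr K x) := by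
  apply monotone_nat_of_le_succ
  intro b
  by_cases h : ∃ k ≤ b, x ∈ K (ctr K x b) k
  · rw [ctr_succ_of_emit h]; omega
  · rw [ctr_succ_of_not h]

omit [TopologicalSpace X] in
theorem emit_all {K : ℕ → ℕ → Set X} {x : X} (h : ∀ j, x ∈ ⋃ k, K j k) (t : ℕ) :
    ∃ b, emit K x b = some t := by
  have hstep : ∀ t, (∃ b, ctr K x b = t) → ∃ b, ctr K x b = t ∧ ∃ k ≤ b, x ∈ K (ctr K x b) k := by
    rintro t ⟨b, hb⟩
    by_contra hcon
    push Not at hcon
    have hconst : ∀ d, ctr K x (b + d) = t := by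
      intro d
      induction d with
      | zero => exact hb
      | succ d ih =>
        rw [← add_assoc, ctr_succ_of_not]
        · exact ih
        · rintro ⟨k, hk, hx⟩
          exact hcon _ ih k hk hx
    obtain ⟨k, hk⟩ := Set.mem_iUnion.1 (h t)
    apply hcon _ (hconst k) k (by omega)
    rw [hconst k]
    exact hk
  have hreach : ∀ t, ∃ b, ctr K x b = t := by
    intro t
    induction t with
    | zero => exact ⟨0, rfl⟩
    | succ t ih =>
      obtain ⟨b, hb, hex⟩ := hstep t ih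
      exact ⟨b + 1, by rw [ctr_succ_of_emit hex, hb]⟩
  obtain ⟨b, hb, hex⟩ := hstep t (hreach t)
  refine ⟨b, ?_⟩
  unfold emit
  rw [if_pos hex, hb]

omit [TopologicalSpace X] in
theorem emit_finite {K : ℕ → ℕ → Set X} {x : X} {j : ℕ} (h : x ∉ ⋃ k, K j k) :
    {b | emit K x b ≠ none}.Finite := by
  have hle : ∀ b, ctr K x b ≤ j := by
    intro b
    induction b with
    | zero => exact Nat.zero_le _
    | succ b ih =>
      by_cases hex : ∃ k ≤ b, x ∈ K (ctr K x b) k
      · rw [ctr_succ_of_emit hex]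
        obtain ⟨k, -, hk⟩ := hex
        have : ctr K x b ≠ j := by
          intro heq
          rw [heq] at hk
          exact h (Set.mem_iUnion.2 ⟨k, hk⟩)
        omega
      · rw [ctr_succ_of_not hex]
        exact ih
  have hem : ∀ b, emit K x b ≠ none → ctr K x (b + 1) = ctr K x b + 1 := by
    intro b hb
    apply ctr_succ_of_emit
    by_contra hcon
    apply hb
    unfold emit
    rw [if_neg hcon]
  apply Set.Finite.of_injOn (f := ctr K x) (t := Set.Iic j)
  · intro b _
    exact hle b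
  · intro b hb b' hb' heq
    rcases lt_trichotomy b b' with hl | hl | hl
    · have h1 := hem b hb
      have h2 := ctr_mono (K := K) (x := x) (show b + 1 ≤ b' from hl)
      omega
    · exact hl
    · have h1 := hem b' hb'
      have h2 := ctr_mono (K := K) (x := x) (show b' + 1 ≤ b from hl)
      omega
  · exact Set.finite_Iic j

theorem eventually_exists {K : ℕ → Set X} (hK : ∀ k, IsClopen (K k)) (b : ℕ) (x : X) :
    ∀ᶠ y in 𝓝 x, ((∃ k ≤ b, y ∈ K k) ↔ ∃ k ≤ b, x ∈ K k) := by
  have h1 : ∀ᶠ y in 𝓝 x, ∀ k ∈ Finset.range (b + 1), (y ∈ K k ↔ x ∈ K k) := by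
    rw [Filter.eventually_all_finset]
    intro k _
    by_cases hx : x ∈ K k
    · filter_upwards [(hK k).isOpen.mem_nhds hx] with y hy
      simp [hx, hy]
    · filter_upwards [(hK k).isClosed.isOpen_compl.mem_nhds hx] with y hy
      have hy' : y ∉ K k := hy
      simp [hx, hy']
  filter_upwards [h1] with y hy
  constructor
  · rintro ⟨k, hk, h⟩
    exact ⟨k, hk, (hy k (Finset.mem_range.2 (by omega))).1 h⟩
  · rintro ⟨k, hk, h⟩
    exact ⟨k, hk, (hy k (Finset.mem_range.2 (by omega))).2 h⟩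

theorem eventually_ctr {K : ℕ → ℕ → Set X} (hK : ∀ j k, IsClopen (K j k)) (x : X) (b : ℕ) :
    ∀ᶠ y in 𝓝 x, ctr K y b = ctr K x b := by
  induction b with
  | zero => exact Filter.Eventually.of_forall fun _ => rfl
  | succ b ih =>
    filter_upwards [ih, eventually_exists (hK (ctr K x b)) b x] with y hy hy'
    have e : (∃ k ≤ b, y ∈ K (ctr K y b) k) ↔ ∃ k ≤ b, x ∈ K (ctr K x b) k := by
      rw [hy]; exact hy'
    by_cases h : ∃ k ≤ b, x ∈ K (ctr K x b) k
    · rw [ctr_succ_of_emit (e.2 h), ctr_succ_of_emit h, hy]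
    · rw [ctr_succ_of_not (fun h' => h (e.1 h')), ctr_succ_of_not h, hy]

theorem eventually_emit {K : ℕ → ℕ → Set X} (hK : ∀ j k, IsClopen (K j k)) (x : X) (b : ℕ) :
    ∀ᶠ y in 𝓝 x, emit K y b = emit K x b := by
  filter_upwards [eventually_ctr hK x b, eventually_exists (hK (ctr K x b)) b x] with y hy hy'
  have e : (∃ k ≤ b, y ∈ K (ctr K y b) k) ↔ ∃ k ≤ b, x ∈ K (ctr K x b) k := by
    rw [hy]; exact hy'
  unfold emit
  by_cases h : ∃ k ≤ b, x ∈ K (ctr K x b) k
  · rw [if_pos (e.2 h), if_pos h, hy]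
  · rw [if_neg (fun h' => h (e.1 h')), if_neg h]

/-- Every `Σ⁰₃` set is continuously coded by matrices. -/
theorem exists_matrix [SecondCountableTopology X]
    (hX : IsTopologicalBasis {s : Set X | IsClopen s}) {D : Set X} (hD : IsSigma03 D) :
    ∃ α : X → ℕ → ℕ → Option ℕ, (∀ i b x, ∀ᶠ y in 𝓝 x, α y i b = α x i b) ∧
      (∀ x ∈ D, ∃ i, ∀ t, ∃ b, α x i b = some t) ∧
      (∀ x ∉ D, ∀ i, {b | α x i b ≠ none}.Finite) := by
  obtain ⟨G, hG, rfl⟩ := hD
  choose U hU hGU using fun i => isGδ_iff_eq_iInter_nat.1 (hG i)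
  choose K hK hUK using fun i j => exists_clopen_seq hX (hU i j)
  refine ⟨fun x i b => emit (K i) x b, fun i b x => eventually_emit (hK i) x b, ?_, ?_⟩
  · intro x hx
    obtain ⟨i, hi⟩ := Set.mem_iUnion.1 hx
    rw [hGU i] at hi
    refine ⟨i, emit_all fun j => ?_⟩
    rw [← hUK]
    exact Set.mem_iInter.1 hi j
  · intro x hx i
    have h1 : x ∉ G i := fun h => hx (Set.mem_iUnion.2 ⟨i, h⟩)
    rw [hGU i, Set.mem_iInter] at h1
    push Not at h1
    obtain ⟨j, hj⟩ := h1
    rw [hUK] at hj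
    exact emit_finite hj

theorem continuous_OA {α : X → ℕ → ℕ → Option ℕ}
    (hα : ∀ i b x, ∀ᶠ y in 𝓝 x, α y i b = α x i b) : Continuous fun x => OA (α x) := by
  apply continuous_pi
  intro u
  apply IsLocallyConstant.continuous
  rw [IsLocallyConstant.iff_eventually_eq]
  intro x
  have h1 : ∀ᶠ y in 𝓝 x, ∀ s ∈ Finset.range u.length, demA (α y) s = demA (α x) s := by
    rw [Filter.eventually_all_finset]
    intro s _
    filter_upwards [hα ((s.unpair.1 - 1) / 2) s.unpair.2 x] with y hy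
    unfold demA
    rw [hy]
  filter_upwards [h1] with y hy
  have h2 : Cx.A (demA (α y)) u.length = Cx.A (demA (α x)) u.length :=
    A_congr fun s hs => hy s (Finset.mem_range.2 hs)
  unfold OA Ctx.O
  rw [h2]

end

end H556R2
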