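import Pool.Agent.H556R2.Sem

/-!
# One stage: the family of oracles over a block
-/

namespace H556R2

/-- Enumeration of semantic machines. -/
noncomputable def semOf : ℕ → Sem := Classical.choose (exists_surjective_nat Sem)

theorem semOf_surj : Function.Surjective semOf := Classical.choose_spec (exists_surjective_nat Sem)

/-- Enumeration of semantic machines with a finite exception table. -/
noncomputable def kap : ℕ → Sem × ℕ × Finset (List Bool) :=
  Classical.choose (exists_surjective_nat (Sem × ℕ × Finset (List Bool)))

theorem kap_surj : Function.Surjective kap :=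
  Classical.choose_spec (exists_surjective_nat (Sem × ℕ × Finset (List Bool)))

/-- Blocks. -/
abbrev Blk := List Bool → Bool

/-- The data of one stage. -/
structure Stg where
  past : Oracle
  Y : ℕ
  n : ℕ
  row : Option ℕ

open Classical in
/-- The value of the oracle family at `u`, given the values at shorter strings. -/
noncomputable def stepG (dflt : ℕ → Bool → List Bool → Bool) (s : Stg) (u : List Bool)
    (rec : List Bool → Blk → Bool) : Blk → Bool :=
  if u.length ≤ s.Y then fun _ => s.past u
  else match parse u with
    | none => fun _ => false
    | some (.inl (a, c, y)) =>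
      if s.row = some a ∧ y.length = s.n then fun B => B (c :: y) else fun _ => dflt a c y
    | some (.inr (k, x, t, f)) =>
      if t < (kap k).1.thr x.length then fun _ => false
      else if f = false then fun _ => true
      else if x.length < (kap k).2.1 then fun _ => decide (x ∈ (kap k).2.2)
      else if Cert (fun B => vd (kap k).1 (fun v => rec v B) x) u.length then
        fun B => vd (kap k).1 (fun v => rec v B) x
      else fun _ => false

/-- Truncation of the recursive calls. -/
noncomputable def cut (u : List Bool) (g : List Bool → Blk → Bool) : List Bool → Blk → Bool :=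
  fun v => if v.length < u.length then g v else fun _ => false

/-- The family of oracles of a stage. -/
noncomputable def G (dflt : ℕ → Bool → List Bool → Bool) (s : Stg) :
    List Bool → Blk → Bool :=
  (measure (List.length : List Bool → ℕ)).wf.fix fun u F =>
    stepG dflt s u fun v => if h : v.length < u.length then F v h else fun _ => false

theorem G_eq (dflt : ℕ → Bool → List Bool → Bool) (s : Stg) (u : List Bool) :
    G dflt s u = stepG dflt s u (cut u (G dflt s)) := by
  unfold G
  rw [WellFounded.fix_eq]
  congr 1

variable {dflt : ℕ → Bool → List Bool → Bool} {s : Stg}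

theorem G_past {u : List Bool} (hu : u.length ≤ s.Y) (B : Blk) : G dflt s u B = s.past u := by
  rw [G_eq]
  simp only [stepG, hu, if_true]

theorem G_reg_active {a : ℕ} {c : Bool} {y : List Bool} (hY : s.Y < (reg a c y).length)
    (hr : s.row = some a) (hn : y.length = s.n) (B : Blk) :
    G dflt s (reg a c y) B = B (c :: y) := by
  rw [G_eq]
  simp only [stepG, not_le.2 hY, if_false, parse_reg, hr, hn, and_self, if_true]

theorem G_reg_inactive {a : ℕ} {c : Bool} {y : List Bool} (hY : s.Y < (reg a c y).length)
    (hr : ¬ (s.row = some a ∧ y.length = s.n)) (B : Blk) :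
    G dflt s (reg a c y) B = dflt a c y := by
  rw [G_eq]
  simp only [stepG, not_le.2 hY, if_false, parse_reg, if_neg hr]

theorem G_cod_small {k : ℕ} {x : List Bool} {t : ℕ} {f : Bool} (hY : s.Y < (cod k x t f).length)
    (ht : t < (kap k).1.thr x.length) (B : Blk) : G dflt s (cod k x t f) B = false := by
  rw [G_eq]
  simp only [stepG, not_le.2 hY, if_false, parse_cod, ht, if_true]

theorem G_cod_stop {k : ℕ} {x : List Bool} {t : ℕ} (hY : s.Y < (cod k x t false).length)
    (ht : (kap k).1.thr x.length ≤ t) (B : Blk) : G dflt s (cod k x t false) B = true := by
  rw [G_eq]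
  simp only [stepG, not_le.2 hY, if_false, parse_cod, not_lt.2 ht, if_true]

theorem G_cod_table {k : ℕ} {x : List Bool} {t : ℕ} (hY : s.Y < (cod k x t true).length)
    (ht : (kap k).1.thr x.length ≤ t) (hx : x.length < (kap k).2.1) (B : Blk) :
    G dflt s (cod k x t true) B = decide (x ∈ (kap k).2.2) := by
  rw [G_eq]
  simp only [stepG, not_le.2 hY, if_false, parse_cod, not_lt.2 ht, hx, if_true,
    Bool.true_eq_false]

theorem bd_lt_thr (e : Sem) (n : ℕ) : e.bd n < e.thr n := by
  unfold Sem.thr
  omega

theorem vd_cut {e : Sem} {u x : List Bool} {g : List Bool → Blk → Bool} {B : Blk}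
    (h : e.bd x.length < u.length) :
    vd e (fun v => cut u g v B) x = vd e (fun v => g v B) x := by
  apply vd_congr
  intro v hv
  simp only [cut]
  rw [if_pos (by omega)]

/-- All values have small certificates. -/
theorem cert_G (u : List Bool) : Cert (G dflt s u) u.length := by
  classical
  rw [G_eq]
  unfold stepG
  split_ifs with h1
  · exact cert_const (fun _ _ => rfl) _
  · rcases hp : parse u with _ | (⟨a, c, y⟩ | ⟨k, x, t, f⟩)
    · exact cert_const (fun _ _ => rfl) _
    · simp only
      split_ifs with h2
      · intro B
        refine ⟨{c :: y}, ?_, ?_⟩
        · simp only [Finset.card_singleton]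
          have := parse_eq_some hp
          rw [← this]
          simp only [encode, length_reg]
          omega
        · intro B' hB'
          exact hB' _ (Finset.mem_singleton_self _)
      · exact cert_const (fun _ _ => rfl) _
    · simp only
      split_ifs with h2 h3 h4 h5
      · exact cert_const (fun _ _ => rfl) _
      · exact cert_const (fun _ _ => rfl) _
      · exact cert_const (fun _ _ => rfl) _
      · exact h5
      · exact cert_const (fun _ _ => rfl) _

/-- Without active row the family is constant. -/
theorem G_const (hr : s.row = none) : ∀ (u : List Bool) (B B' : Blk),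
    G dflt s u B = G dflt s u B' := by
  classical
  intro u
  induction h : u.length using Nat.strong_induction_on generalizing u with
  | _ N ih =>
    intro B B'
    have hcut : ∀ (v : List Bool) (B B' : Blk), cut u (G dflt s) v B = cut u (G dflt s) v B' := by
      intro v B B'
      simp only [cut]
      split_ifs with hv
      · exact ih v.length (by omega) v rfl B B'
      · rfl
    have hvd : ∀ (e : Sem) (x : List Bool) (B B' : Blk),
        vd e (fun v => cut u (G dflt s) v B) x = vd e (fun v => cut u (G dflt s) v B') x := by
      intro e x B B'
      congr 1
      funext v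
      exact hcut v B B'
    rw [G_eq]
    unfold stepG
    split_ifs with h1
    · rfl
    · rcases hp : parse u with _ | (⟨a, c, y⟩ | ⟨k, x, t, f⟩)
      · rfl
      · simp [hr]
      · simp only
        split_ifs with h2 h3 h4 h5
        · rfl
        · rfl
        · rfl
        · exact hvd _ _ _ _
        · rfl

/-- The main property of coded strings. -/
theorem G_cod_main {k : ℕ} {x : List Bool} {t : ℕ} (hY : s.Y < (cod k x t true).length)
    (ht : (kap k).1.thr x.length ≤ t) (hx : (kap k).2.1 ≤ x.length)
    (hgood : s.row = none ∨ ∀ B, verdict (kap k).1 (fun v => G dflt s v B) x ≠ none) (B : Blk) :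
    G dflt s (cod k x t true) B = vd (kap k).1 (fun v => G dflt s v B) x := by
  classical
  set u := cod k x t true with hu
  have hlen : (kap k).1.thr x.length ≤ u.length := by
    rw [hu, length_cod]
    omega
  have hbd := bd_lt_thr (kap k).1 x.length
  have hfun : (fun B => vd (kap k).1 (fun v => cut u (G dflt s) v B) x) =
      fun B => vd (kap k).1 (fun v => G dflt s v B) x := by
    funext B
    exact vd_cut (by omega)
  have hcert : Cert (fun B => vd (kap k).1 (fun v => cut u (G dflt s) v B) x) u.length := by
    rw [hfun]
    rcases hgood with hr | hne
    · apply cert_const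
      intro B B'
      congr 1
      funext v
      exact G_const hr v B B'
    · have := cert_vd (e := (kap k).1) (W := fun B v => G dflt s v B) (x := x)
        (fun v hv => (cert_G v).mono hv) hne
      refine this.mono ?_
      unfold Sem.thr at hlen
      omega
  rw [G_eq]
  have hp : parse u = some (.inr (k, x, t, true)) := parse_cod k x t true
  simp only [stepG, not_le.2 hY, if_false, hp, not_lt.2 ht, not_lt.2 hx,
    Bool.true_eq_false]
  rw [if_pos hcert]
  exact congrFun hfun B

end H556R2
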