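import Pool.Agent.H556R2.Machine

/-!
# Certificate complexity of functions of infinitely many Boolean variables
-/

namespace H556R2

section
variable {ι : Type} {V W Ω : Type}

/-- `f` has a certificate of size at most `q` at `B`. -/
def CertAt (f : (ι → Bool) → V) (B : ι → Bool) (q : ℕ) : Prop :=
  ∃ S : Finset ι, S.card ≤ q ∧ ∀ B' : ι → Bool, (∀ i ∈ S, B' i = B i) → f B' = f B

/-- All certificates of `f` have size at most `q`. -/
def Cert (f : (ι → Bool) → V) (q : ℕ) : Prop := ∀ B, CertAt f B q

theorem CertAt.mono {f : (ι → Bool) → V} {B : ι → Bool} {q q' : ℕ} (h : CertAt f B q)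
    (hq : q ≤ q') : CertAt f B q' := by
  obtain ⟨S, hS, h⟩ := h
  exact ⟨S, hS.trans hq, h⟩

theorem Cert.mono {f : (ι → Bool) → V} {q q' : ℕ} (h : Cert f q) (hq : q ≤ q') : Cert f q' :=
  fun B => (h B).mono hq

theorem certAt_const {f : (ι → Bool) → V} (h : ∀ B B', f B = f B') (B : ι → Bool) (q : ℕ) :
    CertAt f B q := ⟨∅, by simp, fun B' _ => h _ _⟩

theorem cert_const {f : (ι → Bool) → V} (h : ∀ B B', f B = f B') (q : ℕ) : Cert f q :=
  fun B => certAt_const h B q

variable [DecidableEq ι]

theorem certAt_bind {g : (ι → Bool) → W} {F : W → (ι → Bool) → V} {B : ι → Bool} {q q' : ℕ}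
    (hg : CertAt g B q) (hF : CertAt (F (g B)) B q') :
    CertAt (fun B' => F (g B') B') B (q + q') := by
  obtain ⟨S, hS, h⟩ := hg
  obtain ⟨S', hS', h'⟩ := hF
  refine ⟨S ∪ S', (Finset.card_union_le _ _).trans (add_le_add hS hS'), ?_⟩
  intro B' hB'
  have h1 : g B' = g B := h B' fun i hi => hB' i (Finset.mem_union_left _ hi)
  have h2 := h' B' fun i hi => hB' i (Finset.mem_union_right _ hi)
  simp only [h1, h2]

omit [DecidableEq ι] in
theorem certAt_comp {g : (ι → Bool) → W} (φ : W → V) {B : ι → Bool} {q : ℕ}
    (hg : CertAt g B q) : CertAt (fun B' => φ (g B')) B q := by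
  obtain ⟨S, hS, h⟩ := hg
  exact ⟨S, hS, fun B' hB' => by simp only [h B' hB']⟩

/-- Certificate size of the output of a run. -/
theorem certAt_run {W : (ι → Bool) → Oracle} {M : OTM} {B : ι → Bool} {K : ℕ} (n : ℕ) :
    ∀ c : Cfg M, (∀ v : List Bool, v.length ≤ c.head 2 + n → CertAt (fun B' => W B' v) B K) →
      CertAt (fun B' => run (W B') M n c) B (n * K) := by
  induction n with
  | zero => intro c _; exact certAt_const (fun _ _ => rfl) _ _
  | succ n ih =>
    intro c h
    let G : Bool → (ι → Bool) → Option Bool := fun a B' =>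
      match M.δ c.st (fun i => c.tape i (c.head i)) (M.isQ c.st && a) with
      | .inl b => some b
      | .inr (s, act) => run (W B') M n
          { st := s
            tape := fun i => Function.update (c.tape i) (c.head i) (act i).1
            head := fun i => moveHead (act i).2 (c.head i) }
    have h1 : (fun B' => run (W B') M (n + 1) c) = fun B' => G (W B' c.query) B' := by
      funext B'
      simp only [run, step, G]
      rcases M.δ c.st (fun i => c.tape i (c.head i)) (M.isQ c.st && W B' c.query) with
        b | ⟨s, act⟩ <;> rfl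
    rw [h1, show (n + 1) * K = K + n * K by ring]
    apply certAt_bind (g := fun B' => W B' c.query)
    · apply h
      rw [length_query]
      omega
    · simp only [G]
      rcases M.δ c.st (fun i => c.tape i (c.head i)) (M.isQ c.st && W B c.query) with
        b | ⟨s, act⟩
      · exact certAt_const (fun _ _ => rfl) _ _
      · simp only
        apply ih
        intro v hv
        apply h
        have := moveHead_le (act 2).2 (c.head 2)
        simp only at hv
        omega

theorem certAt_outcome {W : (ι → Bool) → Oracle} {M : OTM} {B : ι → Bool} {K n : ℕ}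
    {x w : List Bool} (h : ∀ v : List Bool, v.length ≤ n → CertAt (fun B' => W B' v) B K) :
    CertAt (fun B' => outcome (W B') M x w n) B (n * K) := by
  apply certAt_run
  intro v hv
  apply h
  simpa [init] using hv

/-- Flipping the variables in `S`. -/
def flipOn (B : ι → Bool) (S : Finset ι) : ι → Bool := fun i => if i ∈ S then !B i else B i

/-- If all sensitive points are witnessed by sensitive blocks of size at most `c`, and disjoint
families of sensitive blocks have at most `b` members, there is a certificate of size `b * c`. -/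
theorem certAt_of_blocks {f : (ι → Bool) → V} {B : ι → Bool} {b c : ℕ}
    (ha : ∀ B', f B' ≠ f B → ∃ S : Finset ι, S.card ≤ c ∧ (∀ i ∈ S, B' i ≠ B i) ∧
      f (flipOn B S) ≠ f B)
    (hb : ∀ F : Finset (Finset ι), (∀ S ∈ F, ∀ T ∈ F, S ≠ T → Disjoint S T) →
      (∀ S ∈ F, f (flipOn B S) ≠ f B) → F.card ≤ b) :
    CertAt f B (b * c) := by
  by_contra hno
  have key : ∀ k, k ≤ b + 1 → ∃ F : Finset (Finset ι), F.card = k ∧
      (∀ S ∈ F, ∀ T ∈ F, S ≠ T → Disjoint S T) ∧ (∀ S ∈ F, f (flipOn B S) ≠ f B) ∧
      (∀ S ∈ F, S.card ≤ c) := by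
    intro k
    induction k with
    | zero => intro _; exact ⟨∅, by simp⟩
    | succ k ih =>
      intro hk
      obtain ⟨F, hF, hd, hs, hc⟩ := ih (by omega)
      let U := F.biUnion id
      have hU : U.card ≤ b * c := by
        calc U.card ≤ F.card * c := Finset.card_biUnion_le_card_mul _ _ _ hc
          _ ≤ b * c := Nat.mul_le_mul_right _ (by omega)
      obtain ⟨B', hB', hne⟩ : ∃ B' : ι → Bool, (∀ i ∈ U, B' i = B i) ∧ f B' ≠ f B := by
        by_contra hcon
        push Not at hcon
        exact hno ⟨U, hU, hcon⟩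
      obtain ⟨S, hS, hSB, hSf⟩ := ha B' hne
      have hdisj : ∀ T ∈ F, Disjoint S T := by
        intro T hT
        rw [Finset.disjoint_left]
        intro i hiS hiT
        exact hSB i hiS (hB' i (Finset.mem_biUnion.2 ⟨T, hT, hiT⟩))
      have hSne : S.Nonempty := by
        by_contra hemp
        rw [Finset.not_nonempty_iff_eq_empty] at hemp
        apply hSf
        congr 1
        funext i
        simp [flipOn, hemp]
      have hSF : S ∉ F := by
        intro hmem
        have := hdisj S hmem
        rw [disjoint_self] at this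
        exact hSne.ne_empty this
      refine ⟨insert S F, ?_, ?_, ?_, ?_⟩
      · rw [Finset.card_insert_of_notMem hSF, hF]
      · intro T hT T' hT' hne'
        rw [Finset.mem_insert] at hT hT'
        rcases hT with rfl | hT <;> rcases hT' with rfl | hT'
        · exact absurd rfl hne'
        · exact hdisj _ hT'
        · exact (hdisj _ hT).symm
        · exact hd _ hT _ hT' hne'
      · intro T hT
        rw [Finset.mem_insert] at hT
        rcases hT with rfl | hT
        · exact hSf
        · exact hs _ hT
      · intro T hT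
        rw [Finset.mem_insert] at hT
        rcases hT with rfl | hT
        · exact hS
        · exact hc _ hT
  obtain ⟨F, hF, hd, hs, -⟩ := key (b + 1) le_rfl
  have := hb F hd hs
  omega

theorem card_hit_le (F : Finset (Finset ι)) (hd : ∀ S ∈ F, ∀ T ∈ F, S ≠ T → Disjoint S T)
    (C : Finset ι) : (F.filter fun S => ¬ Disjoint C S).card ≤ C.card := by
  classical
  have h : ∀ S ∈ F.filter fun S => ¬ Disjoint C S, ∃ i, i ∈ C ∧ i ∈ S := by
    intro S hS
    rw [Finset.mem_filter, Finset.not_disjoint_iff] at hS
    exact hS.2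
  rcases isEmpty_or_nonempty ι with hι | hι
  · have h0 : (F.filter fun S => ¬ Disjoint C S) = ∅ := by
      rw [Finset.eq_empty_iff_forall_notMem]
      intro S hS
      obtain ⟨i, -⟩ := h S hS
      exact isEmptyElim i
    rw [h0]
    exact Nat.zero_le _
  choose! e he using h
  apply Finset.card_le_card_of_injOn e
  · intro S hS
    exact (he S hS).1
  · intro S hS T hT hST
    by_contra hne
    have h1 := he S hS
    have h2 := he T hT
    simp only [Finset.coe_filter, Set.mem_ofPred_eq] at hS hT
    have := hd S hS.1 T hT.1 hne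
    rw [Finset.disjoint_left] at this
    apply this h1.2
    rw [hST]
    exact h2.2

theorem family_bound [Fintype Ω] [DecidableEq V] {F : Ω → (ι → Bool) → V} {B : ι → Bool}
    {q r : ℕ} (hΩ : 0 < Fintype.card Ω) (hF : ∀ w, CertAt (F w) B q) (fam : Finset (Finset ι))
    (hd : ∀ S ∈ fam, ∀ T ∈ fam, S ≠ T → Disjoint S T)
    (hs : ∀ S ∈ fam, Fintype.card Ω ≤
      r * (Finset.univ.filter fun w => F w (flipOn B S) ≠ F w B).card) :
    fam.card ≤ r * q := by
  classical
  choose C hC hCF using hF
  have h1 : ∀ S ∈ fam, Fintype.card Ω ≤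
      r * (Finset.univ.filter fun w => ¬ Disjoint (C w) S).card := by
    intro S hS
    refine (hs S hS).trans (Nat.mul_le_mul_left _ (Finset.card_le_card ?_))
    intro w hw
    simp only [Finset.mem_filter, Finset.mem_univ, true_and] at hw ⊢
    intro hdis
    apply hw
    apply hCF
    intro i hi
    rw [Finset.disjoint_left] at hdis
    simp [flipOn, hdis hi]
  have h2 : ∑ S ∈ fam, (Finset.univ.filter fun w => ¬ Disjoint (C w) S).card =
      ∑ w : Ω, (fam.filter fun S => ¬ Disjoint (C w) S).card :=
    (Finset.sum_card_bipartiteAbove_eq_sum_card_bipartiteBelow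
      (s := (Finset.univ : Finset Ω)) (t := fam) (fun w S => ¬ Disjoint (C w) S)).symm
  have h3 : fam.card * Fintype.card Ω ≤ r * (Fintype.card Ω * q) := by
    calc fam.card * Fintype.card Ω = ∑ S ∈ fam, Fintype.card Ω := by simp
      _ ≤ ∑ S ∈ fam, r * (Finset.univ.filter fun w => ¬ Disjoint (C w) S).card :=
        Finset.sum_le_sum h1
      _ = r * ∑ S ∈ fam, (Finset.univ.filter fun w => ¬ Disjoint (C w) S).card := by
        rw [Finset.mul_sum]
      _ = r * ∑ w : Ω, (fam.filter fun S => ¬ Disjoint (C w) S).card := by rw [h2]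
      _ ≤ r * ∑ w : Ω, q := by
        apply Nat.mul_le_mul_left
        apply Finset.sum_le_sum
        intro w _
        exact (card_hit_le fam hd (C w)).trans (hC w)
      _ = r * (Fintype.card Ω * q) := by simp
  have h4 : fam.card * Fintype.card Ω ≤ (r * q) * Fintype.card Ω := by
    calc _ ≤ r * (Fintype.card Ω * q) := h3
      _ = _ := by ring
  exact Nat.le_of_mul_le_mul_right h4 hΩ

/-- The number of accepting members of the family. -/
def acN [Fintype Ω] (F : Ω → (ι → Bool) → Option Bool) (B : ι → Bool) : ℕ :=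
  (Finset.univ.filter fun w => F w B = some true).card

omit [DecidableEq ι] in
theorem acN_pos [Fintype Ω] {F : Ω → (ι → Bool) → Option Bool} {B : ι → Bool} :
    acN F B ≠ 0 ↔ ∃ w, F w B = some true := by
  unfold acN
  rw [← Nat.pos_iff_ne_zero, Finset.card_pos]
  constructor
  · rintro ⟨w, hw⟩
    exact ⟨w, by simpa using hw⟩
  · rintro ⟨w, hw⟩
    exact ⟨w, by simpa using hw⟩

theorem nine_le (q : ℕ) : q ≤ 9 * q ^ 2 := by
  rcases Nat.eq_zero_or_pos q with rfl | h
  · simp
  · nlinarith

theorem cert_rp [Fintype Ω] {F : Ω → (ι → Bool) → Option Bool} {q : ℕ}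
    (hΩ : 0 < Fintype.card Ω) (hF : ∀ w, Cert (F w) q)
    (h : ∀ B, acN F B = 0 ∨ Fintype.card Ω ≤ 2 * acN F B) :
    Cert (fun B => decide (acN F B ≠ 0)) (9 * q ^ 2) := by
  intro B
  by_cases hB : acN F B = 0
  · have hno : ∀ w, F w B ≠ some true := by
      intro w hw
      exact acN_pos.2 ⟨w, hw⟩ hB
    refine CertAt.mono (q := (2 * q) * q) ?_ (by nlinarith)
    apply certAt_of_blocks
    · intro B' hB'
      have hB'' : acN F B' ≠ 0 := by
        intro h0
        apply hB'
        simp [hB, h0]
      obtain ⟨w, hw⟩ := acN_pos.1 hB''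
      obtain ⟨S, hS, hSF⟩ := hF w B'
      refine ⟨S.filter fun i => B' i ≠ B i, (Finset.card_filter_le _ _).trans hS, ?_, ?_⟩
      · intro i hi
        exact (Finset.mem_filter.1 hi).2
      · have h1 : F w (flipOn B (S.filter fun i => B' i ≠ B i)) = some true := by
          rw [hSF, hw]
          intro i hi
          simp only [flipOn, Finset.mem_filter, hi, true_and]
          split_ifs with hc
          · revert hc
            cases B' i <;> cases B i <;> simp
          · push Not at hc
            exact hc.symm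
        have h2 := acN_pos.2 ⟨w, h1⟩
        simp only [hB, ne_eq, not_true_eq_false, decide_false]
        simpa using h2
    · intro fam hd hs
      apply family_bound hΩ (fun w => hF w B) fam hd
      intro S hS
      have h1 : acN F (flipOn B S) ≠ 0 := by
        have := hs S hS
        simpa [hB] using this
      have h2 := (h (flipOn B S)).resolve_left h1
      refine h2.trans (Nat.mul_le_mul_left _ (Finset.card_le_card ?_))
      intro w hw
      simp only [Finset.mem_filter, Finset.mem_univ, true_and] at hw ⊢
      rw [hw]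
      exact (hno w).symm
  · obtain ⟨w, hw⟩ := acN_pos.1 hB
    obtain ⟨S, hS, hSF⟩ := hF w B
    refine ⟨S, hS.trans (nine_le q), ?_⟩
    intro B' hB'
    have h1 := hSF B' hB'
    rw [hw] at h1
    have h2 := acN_pos.2 ⟨w, h1⟩
    simp [h2, hB]

omit [DecidableEq ι] in
theorem cert_npc {Ω' : Type} [Fintype Ω] [Fintype Ω'] {F : Ω → (ι → Bool) → Option Bool}
    {F' : Ω' → (ι → Bool) → Option Bool} {q : ℕ}
    (hF : ∀ w, Cert (F w) q) (hF' : ∀ w, Cert (F' w) q)
    (h : ∀ B, (acN F B ≠ 0 ∧ acN F' B = 0) ∨ (acN F B = 0 ∧ acN F' B ≠ 0)) :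
    Cert (fun B => decide (acN F B ≠ 0)) (9 * q ^ 2) := by
  intro B
  rcases h B with ⟨h1, h2⟩ | ⟨h1, h2⟩
  · obtain ⟨w, hw⟩ := acN_pos.1 h1
    obtain ⟨S, hS, hSF⟩ := hF w B
    refine ⟨S, hS.trans (nine_le q), ?_⟩
    intro B' hB'
    have h3 := hSF B' hB'
    rw [hw] at h3
    have h4 := acN_pos.2 ⟨w, h3⟩
    simp [h4, h1]
  · obtain ⟨w, hw⟩ := acN_pos.1 h2
    obtain ⟨S, hS, hSF⟩ := hF' w B
    refine ⟨S, hS.trans (nine_le q), ?_⟩
    intro B' hB'
    have h3 := hSF B' hB'
    rw [hw] at h3
    have h4 := acN_pos.2 ⟨w, h3⟩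
    rcases h B' with h5 | h5
    · exact absurd h5.2 h4
    · simp [h5.1, h1]

theorem flipOn_flipOn_singleton (B : ι → Bool) (S : Finset ι) {i : ι} (hi : i ∈ S) :
    flipOn (flipOn B S) {i} = flipOn B (S.erase i) := by
  funext j
  simp only [flipOn, Finset.mem_singleton, Finset.mem_erase]
  by_cases hj : j = i
  · subst hj
    simp [hi]
  · simp [hj]

theorem cert_bpp [Fintype Ω] {F : Ω → (ι → Bool) → Option Bool} {q : ℕ}
    (hΩ : 0 < Fintype.card Ω) (hF : ∀ w, Cert (F w) q)
    (h : ∀ B, 3 * acN F B ≤ Fintype.card Ω ∨ 2 * Fintype.card Ω ≤ 3 * acN F B) :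
    Cert (fun B => decide (2 * Fintype.card Ω ≤ 3 * acN F B)) (9 * q ^ 2) := by
  classical
  -- any change of the value changes a third of the family
  have hsens : ∀ B B' : ι → Bool,
      decide (2 * Fintype.card Ω ≤ 3 * acN F B') ≠ decide (2 * Fintype.card Ω ≤ 3 * acN F B) →
      Fintype.card Ω ≤ 3 * (Finset.univ.filter fun w => F w B' ≠ F w B).card := by
    intro B B' hne
    have hsub : ∀ B B' : ι → Bool, acN F B' ≤ acN F B +
        (Finset.univ.filter fun w => F w B' ≠ F w B).card := by
      intro B B'
      unfold acN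
      refine (Finset.card_le_card ?_).trans (Finset.card_union_le _ _)
      intro w hw
      simp only [Finset.mem_filter, Finset.mem_univ, true_and, Finset.mem_union] at hw ⊢
      by_cases hc : F w B' = F w B
      · left; rw [← hc]; exact hw
      · right; exact hc
    have h1 := hsub B B'
    have h2 := hsub B' B
    have h3 : (Finset.univ.filter fun w => F w B ≠ F w B').card =
        (Finset.univ.filter fun w => F w B' ≠ F w B).card := by
      congr 1
      ext w
      simp only [Finset.mem_filter, Finset.mem_univ, true_and]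
      exact ne_comm
    rw [h3] at h2
    have hb := h B
    have hb' := h B'
    by_cases hc : 2 * Fintype.card Ω ≤ 3 * acN F B
    · by_cases hc' : 2 * Fintype.card Ω ≤ 3 * acN F B'
      · simp [hc, hc'] at hne
      · have := hb'.resolve_right hc'
        omega
    · by_cases hc' : 2 * Fintype.card Ω ≤ 3 * acN F B'
      · have := hb.resolve_right hc
        omega
      · simp [hc, hc'] at hne
  have hfam : ∀ (B : ι → Bool) (fam : Finset (Finset ι)),
      (∀ S ∈ fam, ∀ T ∈ fam, S ≠ T → Disjoint S T) →
      (∀ S ∈ fam, decide (2 * Fintype.card Ω ≤ 3 * acN F (flipOn B S)) ≠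
        decide (2 * Fintype.card Ω ≤ 3 * acN F B)) → fam.card ≤ 3 * q := by
    intro B fam hd hs
    apply family_bound hΩ (fun w => hF w B) fam hd
    intro S hS
    exact hsens _ _ (hs S hS)
  intro B
  rw [show 9 * q ^ 2 = (3 * q) * (3 * q) by ring]
  apply certAt_of_blocks
  · intro B' hB'
    -- a finite sensitive block
    have hex : ∃ k, ∃ S : Finset ι, S.card = k ∧ (∀ i ∈ S, B' i ≠ B i) ∧
        decide (2 * Fintype.card Ω ≤ 3 * acN F (flipOn B S)) ≠
          decide (2 * Fintype.card Ω ≤ 3 * acN F B) := by
      have hc : ∀ w, ∃ S : Finset ι, ∀ B'' : ι → Bool, (∀ i ∈ S, B'' i = B' i) →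
          F w B'' = F w B' := fun w => by
        obtain ⟨S, -, hS⟩ := hF w B'
        exact ⟨S, hS⟩
      choose C hC using hc
      let U := Finset.univ.biUnion C
      refine ⟨_, U.filter fun i => B' i ≠ B i, rfl, ?_, ?_⟩
      · intro i hi
        exact (Finset.mem_filter.1 hi).2
      · have h1 : acN F (flipOn B (U.filter fun i => B' i ≠ B i)) = acN F B' := by
          unfold acN
          congr 1
          ext w
          simp only [Finset.mem_filter, Finset.mem_univ, true_and]
          rw [hC w]
          intro i hi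
          have hiU : i ∈ U := Finset.mem_biUnion.2 ⟨w, Finset.mem_univ _, hi⟩
          simp only [flipOn, Finset.mem_filter, hiU, true_and]
          split_ifs with hc
          · revert hc
            cases B' i <;> cases B i <;> simp
          · push Not at hc
            exact hc.symm
        rw [h1]
        exact hB'
    obtain ⟨S, hSk, hSB, hSf⟩ := Nat.find_spec hex
    have hmin : ∀ T : Finset ι, (∀ i ∈ T, B' i ≠ B i) → T.card < S.card →
        decide (2 * Fintype.card Ω ≤ 3 * acN F (flipOn B T)) =
          decide (2 * Fintype.card Ω ≤ 3 * acN F B) := by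
      intro T hT hTS
      by_contra hne
      rw [hSk] at hTS
      exact Nat.find_min hex hTS ⟨T, rfl, hT, hne⟩
    refine ⟨S, ?_, hSB, hSf⟩
    have h1 := hfam (flipOn B S) (S.image fun i => {i}) ?_ ?_
    · rwa [Finset.card_image_of_injective _ (Finset.singleton_injective)] at h1
    · intro T hT T' hT' hne
      rw [Finset.mem_image] at hT hT'
      obtain ⟨i, _, rfl⟩ := hT
      obtain ⟨j, _, rfl⟩ := hT'
      rw [Finset.disjoint_singleton]
      intro hij
      exact hne (by rw [hij])
    · intro T hT
      rw [Finset.mem_image] at hT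
      obtain ⟨i, hi, rfl⟩ := hT
      rw [flipOn_flipOn_singleton B S hi]
      rw [hmin (S.erase i) (fun j hj => hSB j (Finset.mem_of_mem_erase hj))
        (Finset.card_erase_lt_of_mem hi)]
      exact hSf.symm
  · intro fam hd hs
    exact hfam B fam hd hs

end

end H556R2
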