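import Pool.Agent.H556R2.Sem

/-!
# The relativized classes in terms of verdicts
-/

namespace H556R2

open Classical in
theorem mem_classP {A : Oracle} {L : Lang} : L ∈ ClassP A ↔
    ∃ (M : OTM) (p : Polynomial ℕ), ∀ x : List Bool,
      outcome A M x [] (p.eval x.length) = some (decide (x ∈ L)) := by
  constructor
  · rintro ⟨M, p, h⟩
    refine ⟨M, p, fun x => ?_⟩
    by_cases hx : x ∈ L
    · rw [(h x).1 hx]; simp [hx]
    · rw [(h x).2 hx]; simp [hx]
  · rintro ⟨M, p, h⟩
    refine ⟨M, p, fun x => ⟨fun hx => ?_, fun hx => ?_⟩⟩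
    · rw [h x]; simp [hx]
    · rw [h x]; simp [hx]

open Classical in
theorem mem_classRP {A : Oracle} {L : Lang} : L ∈ ClassRP A ↔
    ∃ E : SM, ∀ x : List Bool, verdict (.rp, E, E) A x = some (decide (x ∈ L)) := by
  constructor
  · rintro ⟨M, m, p, h⟩
    refine ⟨⟨M, m, p⟩, fun x => ?_⟩
    obtain ⟨h1, h2, h3⟩ := h x
    have ht := SM.tot_pos ⟨M, m, p⟩ x
    by_cases hx : x ∈ L
    · have h4 : (SM.mk M m p).tot x ≤ 2 * (SM.mk M m p).acc A x := h2 hx
      have h5 : (SM.mk M m p).acc A x ≠ 0 := by omega
      simp only [verdict]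
      rw [if_pos (show (SM.mk M m p).halts A x from h1), if_neg h5, if_pos h4]
      simp [hx]
    · have h4 : (SM.mk M m p).acc A x = 0 := h3 hx
      simp only [verdict]
      rw [if_pos (show (SM.mk M m p).halts A x from h1), if_pos h4]
      simp [hx]
  · rintro ⟨E, h⟩
    refine ⟨E.M, E.m, E.p, fun x => ?_⟩
    have h1 := h x
    simp only [verdict] at h1
    split_ifs at h1 with h2 h3 h4
    · have hx : x ∉ L := by
        intro hx
        simp [hx] at h1
      exact ⟨h2, fun hx' => absurd hx' hx, fun _ => h3⟩
    · have hx : x ∈ L := by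
        by_contra hx
        simp [hx] at h1
      exact ⟨h2, fun _ => h4, fun hx' => absurd hx hx'⟩

open Classical in
theorem mem_classBPP {A : Oracle} {L : Lang} : L ∈ ClassBPP A ↔
    ∃ E : SM, ∀ x : List Bool, verdict (.bpp, E, E) A x = some (decide (x ∈ L)) := by
  constructor
  · rintro ⟨M, m, p, h⟩
    refine ⟨⟨M, m, p⟩, fun x => ?_⟩
    obtain ⟨h1, h2, h3⟩ := h x
    have ht := SM.tot_pos ⟨M, m, p⟩ x
    by_cases hx : x ∈ L
    · have h4 : 2 * (SM.mk M m p).tot x ≤ 3 * (SM.mk M m p).acc A x := h2 hx
      have h5 : ¬ 3 * (SM.mk M m p).acc A x ≤ (SM.mk M m p).tot x := by omega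
      simp only [verdict]
      rw [if_pos (show (SM.mk M m p).halts A x from h1), if_neg h5, if_pos h4]
      simp [hx]
    · have h4 : 3 * (SM.mk M m p).acc A x ≤ (SM.mk M m p).tot x := h3 hx
      simp only [verdict]
      rw [if_pos (show (SM.mk M m p).halts A x from h1), if_pos h4]
      simp [hx]
  · rintro ⟨E, h⟩
    refine ⟨E.M, E.m, E.p, fun x => ?_⟩
    have h1 := h x
    simp only [verdict] at h1
    split_ifs at h1 with h2 h3 h4
    · have hx : x ∉ L := by
        intro hx
        simp [hx] at h1
      exact ⟨h2, fun hx' => absurd hx' hx, fun _ => h3⟩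
    · have hx : x ∈ L := by
        by_contra hx
        simp [hx] at h1
      exact ⟨h2, fun _ => h4, fun hx' => absurd hx hx'⟩

open Classical in
/-- The verdict of an `NP` machine. -/
noncomputable def vNP (E : SM) (A : Oracle) (x : List Bool) : Option Bool :=
  if E.halts A x then some (decide (E.acc A x ≠ 0)) else none

open Classical in
theorem mem_classNP {A : Oracle} {L : Lang} : L ∈ ClassNP A ↔
    ∃ E : SM, ∀ x : List Bool, vNP E A x = some (decide (x ∈ L)) := by
  constructor
  · rintro ⟨M, m, p, h⟩
    refine ⟨⟨M, m, p⟩, fun x => ?_⟩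
    obtain ⟨h1, h2⟩ := h x
    unfold vNP
    rw [if_pos (show (SM.mk M m p).halts A x from h1)]
    have h3 : (SM.mk M m p).acc A x ≠ 0 ↔ x ∈ L := by
      rw [h2, ← Nat.pos_iff_ne_zero]
      rfl
    simp only [h3]
  · rintro ⟨E, h⟩
    refine ⟨E.M, E.m, E.p, fun x => ?_⟩
    have h1 := h x
    unfold vNP at h1
    split_ifs at h1 with h2
    refine ⟨h2, ?_⟩
    simp only [Option.some.injEq, decide_eq_decide] at h1
    rw [← h1, ← Nat.pos_iff_ne_zero]
    rfl

open Classical in
theorem mem_npc {A : Oracle} {L : Lang} : L ∈ ClassNP A ∩ ClassCoNP A ↔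
    ∃ E E' : SM, ∀ x : List Bool, verdict (.npc, E, E') A x = some (decide (x ∈ L)) := by
  constructor
  · rintro ⟨h, h'⟩
    obtain ⟨E, hE⟩ := mem_classNP.1 h
    obtain ⟨E', hE'⟩ := mem_classNP.1 h'
    refine ⟨E, E', fun x => ?_⟩
    have h1 := hE x
    have h2 := hE' x
    unfold vNP at h1 h2
    split_ifs at h1 with h3
    split_ifs at h2 with h4
    simp only [Option.some.injEq, decide_eq_decide, Set.mem_compl_iff] at h1 h2
    simp only [verdict]
    rw [if_pos ⟨h3, h4⟩]
    by_cases hx : x ∈ L
    · have h5 : E.acc A x ≠ 0 := h1.2 hx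
      have h6 : E'.acc A x = 0 := by
        by_contra hc
        exact h2.1 hc hx
      rw [if_pos ⟨h5, h6⟩]
      simp [hx]
    · have h5 : E.acc A x = 0 := by
        by_contra hc
        exact hx (h1.1 hc)
      have h6 : E'.acc A x ≠ 0 := h2.2 hx
      rw [if_neg (fun h => h.1 h5), if_pos ⟨h5, h6⟩]
      simp [hx]
  · rintro ⟨E, E', h⟩
    constructor
    · refine mem_classNP.2 ⟨E, fun x => ?_⟩
      have h1 := h x
      simp only [verdict] at h1
      split_ifs at h1 with h2 h3 h4
      · rw [← h1]
        simp [vNP, h2.1, h3.1]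
      · rw [← h1]
        simp [vNP, h2.1, h4.1]
    · refine mem_classNP.2 ⟨E', fun x => ?_⟩
      have h1 := h x
      simp only [verdict] at h1
      split_ifs at h1 with h2 h3 h4
      · have hx : x ∈ L := by
          by_contra hx
          simp [hx] at h1
        simp [vNP, h2.2, h3.2, hx]
      · have hx : x ∉ L := by
          intro hx
          simp [hx] at h1
        simp [vNP, h2.2, h4.2, hx]

theorem haltsAll_zero {A : Oracle} {M : OTM} {x : List Bool} {t : ℕ} :
    HaltsAll A M x 0 t ↔ (outcome A M x [] t).isSome := by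
  unfold HaltsAll
  constructor
  · intro h
    exact h fun _ => false
  · intro h w
    have hw : List.ofFn w = [] := by simp
    rw [hw]
    exact h

theorem accCount_zero {A : Oracle} {M : OTM} {x : List Bool} {t : ℕ} :
    accCount A M x 0 t = if outcome A M x [] t = some true then 1 else 0 := by
  unfold accCount
  split_ifs with h
  · rw [Finset.filter_true_of_mem]
    · simp
    · intro w _
      have hw : List.ofFn w = [] := by simp
      rw [hw]
      exact h
  · rw [Finset.card_eq_zero, Finset.filter_eq_empty_iff]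
    intro w _
    have hw : List.ofFn w = [] := by simp
    rw [hw]
    exact h

/-- `P ⊆ RP`. -/
theorem classP_subset_classRP (A : Oracle) : ClassP A ⊆ ClassRP A := by
  rintro L ⟨M, p, h⟩
  refine ⟨M, 0, p, fun x => ?_⟩
  rw [Polynomial.eval_zero, haltsAll_zero, accCount_zero]
  refine ⟨?_, ?_, ?_⟩
  · by_cases hx : x ∈ L
    · rw [(h x).1 hx]; rfl
    · rw [(h x).2 hx]; rfl
  · intro hx
    rw [if_pos ((h x).1 hx)]
    norm_num
  · intro hx
    rw [(h x).2 hx]
    simp

/-- `RP ⊆ NP`. -/
theorem classRP_subset_classNP (A : Oracle) : ClassRP A ⊆ ClassNP A := by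
  rintro L ⟨M, m, p, h⟩
  refine ⟨M, m, p, fun x => ⟨(h x).1, ?_, ?_⟩⟩
  · intro hx
    have h1 := (h x).2.1 hx
    have h2 : 0 < 2 ^ (m.eval x.length) := by positivity
    omega
  · intro hc
    by_contra hx
    have := (h x).2.2 hx
    omega

theorem classP_subset_classNP (A : Oracle) : ClassP A ⊆ ClassNP A :=
  (classP_subset_classRP A).trans (classRP_subset_classNP A)

/-- The machine with negated output. -/
def flipM (M : OTM) : OTM where
  k := M.k
  q := M.q
  g := M.g
  isQ := M.isQ
  δ := fun s σ a => match M.δ s σ a with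
    | .inl b => .inl (!b)
    | .inr r => .inr r

theorem run_flipM (A : Oracle) (M : OTM) : ∀ (n : ℕ) (c : Cfg M),
    run A (flipM M) n ⟨c.st, c.tape, c.head⟩ = (run A M n c).map (fun b => !b) := by
  intro n
  induction n with
  | zero => intro c; rfl
  | succ n ih =>
    intro c
    rcases hδ : M.δ c.st (fun i => c.tape i (c.head i)) (M.isQ c.st && A c.query) with
      b | ⟨s, act⟩
    · have h1 : step A M c = .inl b := by simp only [step, hδ]
      have h2 : step A (flipM M) ⟨c.st, c.tape, c.head⟩ = .inl (!b) := by
        have h3 : (flipM M).δ c.st (fun i => c.tape i (c.head i))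
            ((flipM M).isQ c.st && A c.query) = .inl (!b) := by
          show (match M.δ c.st (fun i => c.tape i (c.head i)) (M.isQ c.st && A c.query) with
            | .inl b => Sum.inl (!b)
            | .inr r => .inr r) = _
          rw [hδ]
          rfl
        unfold step
        erw [h3]
      simp only [run, h1, h2, Option.map_some]
    · have h1 : step A M c = .inr
          { st := s
            tape := fun i => Function.update (c.tape i) (c.head i) (act i).1
            head := fun i => moveHead (act i).2 (c.head i) } := by simp only [step, hδ]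
      have h2 : step A (flipM M) ⟨c.st, c.tape, c.head⟩ = .inr
          { st := s
            tape := fun i => Function.update (c.tape i) (c.head i) (act i).1
            head := fun i => moveHead (act i).2 (c.head i) } := by
        have h3 : (flipM M).δ c.st (fun i => c.tape i (c.head i))
            ((flipM M).isQ c.st && A c.query) = .inr (s, act) := by
          show (match M.δ c.st (fun i => c.tape i (c.head i)) (M.isQ c.st && A c.query) with
            | .inl b => Sum.inl (!b)
            | .inr r => .inr r) = _
          rw [hδ]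
          rfl
        unfold step
        erw [h3]
      simp only [run, h1, h2]
      exact ih
          { st := s
            tape := fun i => Function.update (c.tape i) (c.head i) (act i).1
            head := fun i => moveHead (act i).2 (c.head i) }

/-- `P` is closed under complement. -/
theorem compl_mem_classP {A : Oracle} {L : Lang} (h : L ∈ ClassP A) : Lᶜ ∈ ClassP A := by
  obtain ⟨M, p, h⟩ := h
  have hout : ∀ x t, outcome A (flipM M) x [] t = (outcome A M x [] t).map (fun b => !b) :=
    fun x t => run_flipM A M t (init M x [])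
  refine ⟨flipM M, p, fun x => ⟨fun hx => ?_, fun hx => ?_⟩⟩
  · rw [hout, (h x).2 hx]; rfl
  · rw [hout, (h x).1 (by simpa using hx)]; rfl

end H556R2
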