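import Pool.Agent.H556R2.Borel

/-!
# Exact Borel complexity of relativized questions
-/

namespace H556R2

open Topology Filter TopologicalSpace

theorem ssubset_iff_not_subset {α : Type} {S T : Set α} (h : S ⊆ T) : S ⊂ T ↔ ¬ T ⊆ S := by
  rw [Set.ssubset_iff_subset_ne]
  constructor
  · rintro ⟨_, h2⟩ h3
    exact h2 (Set.Subset.antisymm h h3)
  · intro h2
    exact ⟨h, fun h3 => h2 h3.symm.subset⟩

theorem classP_subset_ZPP (A : Oracle) : ClassP A ⊆ ClassZPP A := fun _ hL =>
  ⟨classP_subset_classRP A hL, classP_subset_classRP A (compl_mem_classP hL)⟩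

theorem classP_subset_npc (A : Oracle) : ClassP A ⊆ ClassNP A ∩ ClassCoNP A := fun _ hL =>
  ⟨classP_subset_classNP A hL, classP_subset_classNP A (compl_mem_classP hL)⟩

theorem classZPP_subset_npc (A : Oracle) : ClassZPP A ⊆ ClassNP A ∩ ClassCoNP A := fun _ hL =>
  ⟨classRP_subset_classNP A hL.1, classRP_subset_classNP A hL.2⟩

theorem both_strict_complete :
    Sigma03Complete {A : Oracle | ClassP A ⊂ ClassRP A ∧ ClassRP A ⊂ ClassNP A} := by
  have h0 : {A : Oracle | ClassP A ⊂ ClassRP A ∧ ClassRP A ⊂ ClassNP A} =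
      {A | ¬ ClassRP A ⊆ ClassP A} ∩ {A | ¬ ClassNP A ⊆ ClassRP A} := by
    ext A
    simp only [Set.mem_ofPred_eq, Set.mem_inter_iff,
      ssubset_iff_not_subset (classP_subset_classRP A),
      ssubset_iff_not_subset (classRP_subset_classNP A)]
  refine ⟨?_, ?_⟩
  · rw [h0]
    exact sigma_RP_P.inter sigma_NP_RP
  · intro X _ _ hX D hD
    obtain ⟨α, hα, h1, h2⟩ := exists_matrix hX hD
    refine ⟨fun x => OA (α x), continuous_OA hα, ?_⟩
    rw [h0]
    ext x
    simp only [Set.mem_preimage, Set.mem_inter_iff, Set.mem_ofPred_eq]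
    constructor
    · rintro ⟨h3, -⟩
      by_contra hx
      exact h3 (OA_fin_RP (h2 x hx))
    · intro hx
      obtain ⟨i, hi⟩ := h1 x hx
      refine ⟨fun h => OA_inf_ZPP hi fun L hL => h hL.1, OA_NP_not_RP _⟩

theorem P_eq_RP_complete : Pi03Complete {A : Oracle | ClassP A = ClassRP A} := by
  have h0 : {A : Oracle | ClassP A = ClassRP A}ᶜ = {A | ¬ ClassRP A ⊆ ClassP A} := by
    ext A
    simp only [Set.mem_compl_iff, Set.mem_ofPred_eq]
    constructor
    · intro h1 h2
      exact h1 (Set.Subset.antisymm (classP_subset_classRP A) h2)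
    · intro h1 h2
      exact h1 h2.symm.subset
  refine ⟨?_, ?_⟩
  · unfold IsPi03
    rw [h0]
    exact sigma_RP_P
  · intro X _ _ hX D hD
    obtain ⟨α, hα, h1, h2⟩ := exists_matrix hX hD
    refine ⟨fun x => OA (α x), continuous_OA hα, ?_⟩
    ext x
    simp only [Set.mem_preimage, Set.mem_ofPred_eq]
    constructor
    · intro h3
      by_contra hx
      obtain ⟨i, hi⟩ := h1 x hx
      exact OA_inf_ZPP hi fun L hL => h3.symm.subset hL.1
    · intro hx
      exact Set.Subset.antisymm (classP_subset_classRP _) (OA_fin_RP (h2 x fun h => h hx))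

theorem P_eq_ZPP_complete : Pi03Complete {A : Oracle | ClassP A = ClassZPP A} := by
  have h0 : {A : Oracle | ClassP A = ClassZPP A}ᶜ = {A | ¬ ClassZPP A ⊆ ClassP A} := by
    ext A
    simp only [Set.mem_compl_iff, Set.mem_ofPred_eq]
    constructor
    · intro h1 h2
      exact h1 (Set.Subset.antisymm (classP_subset_ZPP A) h2)
    · intro h1 h2
      exact h1 h2.symm.subset
  refine ⟨?_, ?_⟩
  · unfold IsPi03
    rw [h0]
    exact sigma_ZPP_P
  · intro X _ _ hX D hD
    obtain ⟨α, hα, h1, h2⟩ := exists_matrix hX hD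
    refine ⟨fun x => OA (α x), continuous_OA hα, ?_⟩
    ext x
    simp only [Set.mem_preimage, Set.mem_ofPred_eq]
    constructor
    · intro h3
      by_contra hx
      obtain ⟨i, hi⟩ := h1 x hx
      exact OA_inf_ZPP hi h3.symm.subset
    · intro hx
      exact Set.Subset.antisymm (classP_subset_ZPP _)
        (fun L hL => OA_fin_RP (h2 x fun h => h hx) hL.1)

theorem P_eq_npc_complete :
    Pi03Complete {A : Oracle | ClassP A = ClassNP A ∩ ClassCoNP A} := by
  have h0 : {A : Oracle | ClassP A = ClassNP A ∩ ClassCoNP A}ᶜ =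
      {A | ¬ ClassNP A ∩ ClassCoNP A ⊆ ClassP A} := by
    ext A
    simp only [Set.mem_compl_iff, Set.mem_ofPred_eq]
    constructor
    · intro h1 h2
      exact h1 (Set.Subset.antisymm (classP_subset_npc A) h2)
    · intro h1 h2
      exact h1 h2.symm.subset
  refine ⟨?_, ?_⟩
  · unfold IsPi03
    rw [h0]
    exact sigma_npc_P
  · intro X _ _ hX D hD
    obtain ⟨α, hα, h1, h2⟩ := exists_matrix hX hD
    refine ⟨fun x => OA (α x), continuous_OA hα, ?_⟩
    ext x
    simp only [Set.mem_preimage, Set.mem_ofPred_eq]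
    constructor
    · intro h3
      by_contra hx
      obtain ⟨i, hi⟩ := h1 x hx
      exact OA_inf_ZPP hi fun L hL => h3.symm.subset (classZPP_subset_npc _ hL)
    · intro hx
      exact Set.Subset.antisymm (classP_subset_npc _) (OA_fin_npc (h2 x fun h => h hx))

theorem BPP_NP_incomparable_complete :
    Sigma03Complete {A : Oracle | ¬ ClassNP A ⊆ ClassBPP A ∧ ¬ ClassBPP A ⊆ ClassNP A} := by
  refine ⟨?_, ?_⟩
  · exact sigma_NP_BPP.inter sigma_BPP_NP
  · intro X _ _ hX D hD
    obtain ⟨α, hα, h1, h2⟩ := exists_matrix hX hD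
    refine ⟨fun x => OA (α x), continuous_OA hα, ?_⟩
    ext x
    simp only [Set.mem_preimage, Set.mem_ofPred_eq]
    constructor
    · rintro ⟨-, h3⟩
      by_contra hx
      exact h3 ((OA_fin_BPP (h2 x hx)).trans (classP_subset_classNP _))
    · intro hx
      obtain ⟨i, hi⟩ := h1 x hx
      exact ⟨OA_NP_not_BPP _, OA_inf_BPP hi⟩

end H556R2
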