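import Pool.Agent.H556R2.Block

/-!
# The stage construction
-/

namespace H556R2

/-- The parameters of the construction. -/
structure Ctx where
  dflt : ℕ → Bool → List Bool → Bool
  Δ : ℕ → ℕ → ℕ → (List Bool → Blk → Bool) → Blk
  Y : ℕ → ℕ
  n : ℕ → ℕ
  Y0 : Y 0 = 0
  hYn : ∀ s, Y s ≤ n s
  hnY : ∀ s, n s + s + 10 ≤ Y (s + 1)

/-- Demands: row, target, bound. -/
abbrev Dem := Option (ℕ × ℕ × ℕ)

/-- The data of a stage. -/
def Ctx.stg (C : Ctx) (past : Oracle) (s : ℕ) (d : Dem) : Stg :=
  ⟨past, C.Y s, C.n s, d.map fun t => t.1⟩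

/-- The family of a stage. -/
noncomputable def Ctx.fam (C : Ctx) (past : Oracle) (s : ℕ) (d : Dem) :
    List Bool → Blk → Bool := G C.dflt (C.stg past s d)

/-- The promise of machine `e` is violated at an input of bounded size. -/
def Viol (e : ℕ) (A : Oracle) (X : ℕ) : Prop :=
  ∃ x : List Bool, (semOf e).bd x.length ≤ X ∧ verdict (semOf e) A x = none

theorem viol_congr {e : ℕ} {A A' : Oracle} {X : ℕ}
    (h : ∀ v : List Bool, v.length ≤ X → A v = A' v) : Viol e A X ↔ Viol e A' X := by
  unfold Viol
  constructor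
  · rintro ⟨x, hx, hv⟩
    exact ⟨x, hx, by rw [← hv]; exact (verdict_congr fun v hv' => h v (hv'.trans hx)).symm⟩
  · rintro ⟨x, hx, hv⟩
    exact ⟨x, hx, by rw [← hv]; exact verdict_congr fun v hv' => h v (hv'.trans hx)⟩

theorem Viol.mono {e : ℕ} {A : Oracle} {X X' : ℕ} (h : Viol e A X) (hX : X ≤ X') :
    Viol e A X' := by
  obtain ⟨x, hx, hv⟩ := h
  exact ⟨x, hx.trans hX, hv⟩

/-- Machine `e` can be broken at this stage. -/
def Ctx.Brk (C : Ctx) (past : Oracle) (s : ℕ) (d : Dem) (e : ℕ) : Prop :=
  ¬ Viol e past (C.Y s) ∧ ∃ B, Viol e (fun u => C.fam past s d u B) (C.Y (s + 1))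

open Classical in
/-- The chosen machine to break, if any, and the chosen block. -/
noncomputable def Ctx.choice (C : Ctx) (past : Oracle) (s : ℕ) (d : Dem) : Option ℕ × Blk :=
  match d with
  | none => (none, fun _ => false)
  | some (a, c, m) =>
    if h : ∃ e, e < m ∧ C.Brk past s (some (a, c, m)) e then
      (some (Nat.find h), Classical.choose (Nat.find_spec h).2.2)
    else (none, C.Δ a c (C.n s) (C.fam past s (some (a, c, m))))

/-- The oracle after `s` stages. -/
noncomputable def Ctx.A (C : Ctx) (dem : ℕ → Dem) : ℕ → Oracle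
  | 0 => fun _ => false
  | s + 1 => fun u => C.fam (C.A dem s) s (dem s) u (C.choice (C.A dem s) s (dem s)).2

/-- The machine broken at stage `s`. -/
noncomputable def Ctx.chosen (C : Ctx) (dem : ℕ → Dem) (s : ℕ) : Option ℕ :=
  (C.choice (C.A dem s) s (dem s)).1

/-- The block chosen at stage `s`. -/
noncomputable def Ctx.blk (C : Ctx) (dem : ℕ → Dem) (s : ℕ) : Blk :=
  (C.choice (C.A dem s) s (dem s)).2

/-- The family at stage `s`. -/
noncomputable def Ctx.famS (C : Ctx) (dem : ℕ → Dem) (s : ℕ) : List Bool → Blk → Bool :=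
  C.fam (C.A dem s) s (dem s)

/-- The final oracle. -/
noncomputable def Ctx.O (C : Ctx) (dem : ℕ → Dem) : Oracle := fun u => C.A dem u.length u

variable {C : Ctx} {dem : ℕ → Dem}

theorem A_succ (s : ℕ) (u : List Bool) :
    C.A dem (s + 1) u = C.famS dem s u (C.blk dem s) := rfl

theorem Y_lt (s : ℕ) : C.Y s < C.Y (s + 1) := by
  have h1 := C.hYn s
  have h2 := C.hnY s
  omega

theorem Y_strictMono : StrictMono C.Y := strictMono_nat_of_lt_succ Y_lt

theorem le_Y (s : ℕ) : s ≤ C.Y s := Y_strictMono.id_le s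

theorem n_lt (s : ℕ) : C.n s < C.n (s + 1) := by
  have h1 := C.hYn (s + 1)
  have h2 := C.hnY s
  omega

theorem n_strictMono : StrictMono C.n := strictMono_nat_of_lt_succ n_lt

theorem A_succ_past {s : ℕ} {u : List Bool} (hu : u.length ≤ C.Y s) :
    C.A dem (s + 1) u = C.A dem s u := by
  rw [A_succ]
  unfold Ctx.famS Ctx.fam
  exact G_past (s := C.stg (C.A dem s) s (dem s)) hu _

theorem A_mono {s s' : ℕ} (hs : s ≤ s') {u : List Bool} (hu : u.length ≤ C.Y s) :
    C.A dem s' u = C.A dem s u := by
  induction s', hs using Nat.le_induction with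
  | base => rfl
  | succ s' hs ih =>
    rw [A_succ_past (hu.trans (Y_strictMono.monotone hs)), ih]

theorem O_eq {s : ℕ} {u : List Bool} (hu : u.length ≤ C.Y s) : C.O dem u = C.A dem s u := by
  unfold Ctx.O
  rcases le_total s u.length with h | h
  · exact A_mono h hu
  · exact (A_mono h (le_Y _)).symm

theorem O_stage {s : ℕ} {u : List Bool} (hu : u.length ≤ C.Y (s + 1)) :
    C.O dem u = C.famS dem s u (C.blk dem s) := by
  rw [O_eq hu, A_succ]

theorem exists_stage {N : ℕ} (hN : 0 < N) : ∃ s, C.Y s < N ∧ N ≤ C.Y (s + 1) := by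
  have hex : ∃ s, N ≤ C.Y s := ⟨N, le_Y N⟩
  have h0 : Nat.find hex ≠ 0 := by
    intro h
    have := Nat.find_spec hex
    rw [h, C.Y0] at this
    omega
  obtain ⟨s, hs⟩ := Nat.exists_eq_succ_of_ne_zero h0
  refine ⟨s, ?_, ?_⟩
  · have := Nat.find_min hex (m := s) (by omega)
    omega
  · have := Nat.find_spec hex
    rwa [hs] at this

theorem chosen_spec {s e : ℕ} (h : C.chosen dem s = some e) :
    ∃ a c m, dem s = some (a, c, m) ∧ e < m ∧ C.Brk (C.A dem s) s (dem s) e ∧
      Viol e (C.A dem (s + 1)) (C.Y (s + 1)) := by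
  classical
  rcases hd : dem s with _ | ⟨a, c, m⟩
  · simp [Ctx.chosen, Ctx.choice, hd] at h
  · refine ⟨a, c, m, rfl, ?_⟩
    have hA : C.A dem (s + 1) = fun u => C.famS dem s u (C.blk dem s) := rfl
    rw [hA]
    unfold Ctx.chosen at h
    unfold Ctx.blk Ctx.famS
    rw [hd] at h ⊢
    unfold Ctx.choice at h ⊢
    simp only at h ⊢
    by_cases hex : ∃ e, e < m ∧ C.Brk (C.A dem s) s (some (a, c, m)) e
    · rw [dif_pos hex] at h ⊢
      simp only [Option.some.injEq] at h
      have hs := Nat.find_spec hex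
      subst h
      exact ⟨hs.1, hs.2, Classical.choose_spec (Nat.find_spec hex).2.2⟩
    · rw [dif_neg hex] at h
      simp at h

theorem chosen_inj_aux {s s' e : ℕ} (hs : s < s') (h : C.chosen dem s = some e)
    (h' : C.chosen dem s' = some e) : False := by
  obtain ⟨-, -, -, -, -, -, hv⟩ := chosen_spec h
  obtain ⟨-, -, -, -, -, ⟨hb, -⟩, -⟩ := chosen_spec h'
  apply hb
  have h1 : Viol e (C.A dem s') (C.Y (s + 1)) := by
    rw [viol_congr (A' := C.A dem (s + 1))]
    · exact hv
    · intro v hv'
      exact A_mono hs hv'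
  exact h1.mono (Y_strictMono.monotone hs)

theorem chosen_inj {s s' e : ℕ} (h : C.chosen dem s = some e) (h' : C.chosen dem s' = some e) :
    s = s' := by
  rcases lt_trichotomy s s' with hl | hl | hl
  · exact (chosen_inj_aux hl h h').elim
  · exact hl
  · exact (chosen_inj_aux hl h' h).elim

theorem finite_chosen (m : ℕ) : {s | ∃ e, e < m ∧ C.chosen dem s = some e}.Finite := by
  have h : ∀ s ∈ {s | ∃ e, e < m ∧ C.chosen dem s = some e}, ∃ e, e < m ∧
    C.chosen dem s = some e := fun s hs => hs
  choose! f hf using h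
  apply Set.Finite.of_injOn (f := f) (t := Set.Iio m)
  · intro s hs
    exact (hf s hs).1
  · intro s hs s' hs' he
    apply chosen_inj (hf s hs).2
    rw [he]
    exact (hf s' hs').2
  · exact Set.finite_Iio m

theorem card_chosen_le (m : ℕ) (F : Finset ℕ)
    (hF : ∀ s ∈ F, ∃ e, e < m ∧ C.chosen dem s = some e) : F.card ≤ m := by
  choose! f hf using hF
  calc F.card ≤ (Finset.range m).card := by
        apply Finset.card_le_card_of_injOn f
        · intro s hs
          simpa using (hf s hs).1
        · intro s hs s' hs' he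
          apply chosen_inj (hf s hs).2
          rw [he]
          exact (hf s' hs').2
    _ = m := Finset.card_range m

/-- A stage at which nothing is broken follows the diagonalization rule. -/
theorem blk_diag {s a c m : ℕ} (hd : dem s = some (a, c, m)) (hc : C.chosen dem s = none) :
    C.blk dem s = C.Δ a c (C.n s) (C.famS dem s) := by
  classical
  unfold Ctx.chosen at hc
  unfold Ctx.blk Ctx.famS
  rw [hd] at hc ⊢
  unfold Ctx.choice at hc ⊢
  simp only at hc ⊢
  by_cases hex : ∃ e, e < m ∧ C.Brk (C.A dem s) s (some (a, c, m)) e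
  · rw [dif_pos hex] at hc
    simp at hc
  · rw [dif_neg hex]

theorem chosen_of_brk {s a c m e : ℕ} (hd : dem s = some (a, c, m)) (he : e < m)
    (hb : C.Brk (C.A dem s) s (dem s) e) : ∃ e', e' ≤ e ∧ C.chosen dem s = some e' := by
  classical
  rw [hd] at hb
  have hex : ∃ e, e < m ∧ C.Brk (C.A dem s) s (some (a, c, m)) e := ⟨e, he, hb⟩
  refine ⟨Nat.find hex, Nat.find_min' hex ⟨he, hb⟩, ?_⟩
  unfold Ctx.chosen
  rw [hd]
  unfold Ctx.choice
  simp only
  rw [dif_pos hex]

theorem famS_row {s : ℕ} : (C.stg (C.A dem s) s (dem s)).row = (dem s).map fun t => t.1 := rfl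

theorem chosen_of_none {s : ℕ} (h : dem s = none) : C.chosen dem s = none := by
  unfold Ctx.chosen
  rw [h]
  rfl

/-- The value of the oracle in an active region. -/
theorem O_reg_active {s a c m : ℕ} (hd : dem s = some (a, c, m)) (ha : a ≤ s + 1) {b : Bool}
    {y : List Bool} (hy : y.length = C.n s) : C.O dem (reg a b y) = C.blk dem s (b :: y) := by
  have h1 := C.hnY s
  have h2 := C.hYn s
  rw [O_stage (s := s) (by rw [length_reg]; omega)]
  unfold Ctx.famS Ctx.fam
  apply G_reg_active
  · rw [length_reg, hy]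
    simp only [Ctx.stg]
    omega
  · simp [Ctx.stg, hd]
  · exact hy

/-- The value of the oracle in an inactive region. -/
theorem O_reg_inactive {a : ℕ} {b : Bool} {y : List Bool}
    (h : ∀ s, ¬ ((∃ c m, dem s = some (a, c, m)) ∧ y.length = C.n s)) :
    C.O dem (reg a b y) = C.dflt a b y := by
  obtain ⟨s, hs, hs'⟩ := exists_stage (C := C) (N := (reg a b y).length)
    (by rw [length_reg]; omega)
  rw [O_stage hs']
  unfold Ctx.famS Ctx.fam
  apply G_reg_inactive
  · exact hs
  · rintro ⟨h1, h2⟩
    apply h s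
    refine ⟨?_, h2⟩
    simp only [Ctx.stg] at h1
    rcases hd : dem s with _ | ⟨a', c, m⟩
    · simp [hd] at h1
    · simp only [hd, Option.map_some, Option.some.injEq] at h1
      subst h1
      exact ⟨c, m, rfl⟩

/-- Continuity of the construction. -/
theorem A_congr {dem dem' : ℕ → Dem} {s : ℕ} (h : ∀ s' < s, dem s' = dem' s') :
    C.A dem s = C.A dem' s := by
  induction s with
  | zero => rfl
  | succ s ih =>
    have h1 := ih fun s' hs' => h s' (by omega)
    have h2 := h s (by omega)
    funext u
    simp only [Ctx.A, h1, h2]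

/-- In the finite case every semantic machine is decided by the coded strings. -/
theorem exists_code (hfin : ∀ m, {s | ∃ a c m', dem s = some (a, c, m') ∧ m' ≤ m}.Finite)
    {e : ℕ} (he : ∀ x, verdict (semOf e) (C.O dem) x ≠ none) :
    ∃ k, (kap k).1 = semOf e ∧ ∀ (x : List Bool) (t : ℕ),
      (t < (semOf e).thr x.length → ∀ f, C.O dem (cod k x t f) = false) ∧
      ((semOf e).thr x.length ≤ t → C.O dem (cod k x t false) = true ∧
        C.O dem (cod k x t true) = vd (semOf e) (C.O dem) x) := by
  classical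
  -- from some stage on the machine is unbreakable
  obtain ⟨S0, hS0⟩ : ∃ S0, ∀ s, S0 ≤ s → (dem s).map (fun t => t.1) = none ∨
      ∀ B, ¬ Viol e (fun u => C.famS dem s u B) (C.Y (s + 1)) := by
    obtain ⟨N1, hN1⟩ := (hfin e).bddAbove
    obtain ⟨N2, hN2⟩ := (finite_chosen (C := C) (dem := dem) (e + 1)).bddAbove
    refine ⟨max N1 N2 + 1, fun s hs => ?_⟩
    rcases hd : dem s with _ | ⟨a, c, m⟩
    · left; rfl
    · right
      intro B hB
      have hm : e < m := by
        by_contra hle
        have : s ≤ N1 := hN1 ⟨a, c, m, hd, by omega⟩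
        have := le_max_left N1 N2
        omega
      have hbrk : C.Brk (C.A dem s) s (dem s) e := by
        refine ⟨?_, B, hB⟩
        intro hv
        rw [← viol_congr (A := C.O dem) (fun v hv' => O_eq hv')] at hv
        obtain ⟨x, -, hx⟩ := hv
        exact he x hx
      obtain ⟨e', he', hc⟩ := chosen_of_brk hd hm hbrk
      have : s ≤ N2 := hN2 ⟨e', by omega, hc⟩
      have := le_max_right N1 N2
      omega
  let d := C.Y S0 + 1
  have hFfin : {x : List Bool | x.length < d ∧ vd (semOf e) (C.O dem) x = true}.Finite :=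
    (List.finite_length_lt Bool d).subset fun x hx => hx.1
  obtain ⟨k, hk⟩ := kap_surj (semOf e, d, hFfin.toFinset)
  have hk1 : (kap k).1 = semOf e := by rw [hk]
  have hk2 : (kap k).2.1 = d := by rw [hk]
  have hk3 : (kap k).2.2 = hFfin.toFinset := by rw [hk]
  refine ⟨k, hk1, fun x t => ?_⟩
  have hstage : ∀ f, ∃ s, C.Y s < (cod k x t f).length ∧ (cod k x t f).length ≤ C.Y (s + 1) :=
    fun f => exists_stage (by rw [length_cod]; omega)
  refine ⟨?_, ?_⟩
  · intro ht f
    obtain ⟨s, hs, hs'⟩ := hstage f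
    rw [O_stage hs']
    exact G_cod_small (s := C.stg (C.A dem s) s (dem s)) hs (by rwa [hk1]) _
  · intro ht
    refine ⟨?_, ?_⟩
    · obtain ⟨s, hs, hs'⟩ := hstage false
      rw [O_stage hs']
      exact G_cod_stop (s := C.stg (C.A dem s) s (dem s)) hs (by rwa [hk1]) _
    · obtain ⟨s, hs, hs'⟩ := hstage true
      rw [O_stage hs']
      by_cases hx : x.length < d
      · have h1 := G_cod_table (dflt := C.dflt) (s := C.stg (C.A dem s) s (dem s)) hs
          (by rwa [hk1]) (by rwa [hk2]) (C.blk dem s)
        rw [hk3] at h1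
        unfold Ctx.famS Ctx.fam
        rw [h1]
        have h2 : (x ∈ hFfin.toFinset) ↔ vd (semOf e) (C.O dem) x = true := by
          rw [Set.Finite.mem_toFinset]
          constructor
          · intro h; exact h.2
          · intro h; exact ⟨hx, h⟩
        simp only [h2, Bool.decide_eq_true]
      · push Not at hx
        have hbd : (semOf e).bd x.length ≤ C.Y (s + 1) := by
          have := bd_lt_thr (semOf e) x.length
          rw [length_cod] at hs'
          omega
        have hsS : S0 ≤ s := by
          by_contra hlt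
          push Not at hlt
          have h1 : C.Y (s + 1) ≤ C.Y S0 := Y_strictMono.monotone hlt
          rw [length_cod] at hs'
          omega
        have hgood : (C.stg (C.A dem s) s (dem s)).row = none ∨ ∀ B, verdict (kap k).1
            (fun v => G C.dflt (C.stg (C.A dem s) s (dem s)) v B) x ≠ none := by
          rcases hS0 s hsS with h | h
          · left; exact h
          · right
            intro B hv
            rw [hk1] at hv
            exact h B ⟨x, hbd, hv⟩
        have h1 := G_cod_main (dflt := C.dflt) (s := C.stg (C.A dem s) s (dem s)) hs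
          (by rwa [hk1]) (by rwa [hk2]) hgood (C.blk dem s)
        unfold Ctx.famS Ctx.fam
        rw [h1, hk1]
        apply vd_congr
        intro v hv
        exact (O_stage (hv.trans hbd)).symm

end H556R2
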