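import Pool.Agent.H556R2.Sem

/-!
# Two concrete oracle machines
-/

namespace H556R2

/-- The symbol of a bit. -/
def sym (b : Bool) : Fin 3 := if b then 2 else 1

/-- A machine that first writes the string `h` on its oracle tape and then follows `body`. -/
def mk (h : List Bool) (extra : ℕ) (isQb : ℕ → Bool)
    (body : ℕ → (Fin 3 → Fin 3) → Bool → Bool ⊕ (ℕ × (Fin 3 → Fin 3 × Dir))) : OTM where
  k := 0
  q := h.length + extra
  g := 0
  isQ := fun s => if s.val < h.length then false else isQb (s.val - h.length)
  δ := fun s σ a =>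
    if hs : s.val < h.length then
      .inr (Fin.ofNat (h.length + extra + 1) (s.val + 1),
        ![(σ 0, .stay), (σ 1, .stay), (sym h[s.val], .right)])
    else match body (s.val - h.length) σ a with
      | .inl b => .inl b
      | .inr (n, act) => .inr (Fin.ofNat (h.length + extra + 1) (h.length + n), act)

/-- Copying the second input and querying. -/
def bodyV (n : ℕ) (σ : Fin 3 → Fin 3) (a : Bool) : Bool ⊕ (ℕ × (Fin 3 → Fin 3 × Dir)) :=
  match n with
  | 0 =>
    if σ 1 = 0 then .inr (1, ![(σ 0, .stay), (σ 1, .stay), (σ 2, .stay)])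
    else .inr (0, ![(σ 0, .stay), (σ 1, .right), (σ 1, .right)])
  | _ => .inl a

/-- The verifier writes `h`, copies its second input, queries and outputs the answer. -/
def progV (h : List Bool) : OTM := mk h 1 (fun n => n == 1) bodyV

/-- Copying the input in coded form, then padding until the oracle says stop, then querying. -/
def bodyD (n : ℕ) (σ : Fin 3 → Fin 3) (a : Bool) : Bool ⊕ (ℕ × (Fin 3 → Fin 3 × Dir)) :=
  match n with
  | 0 =>
    if σ 0 = 0 then .inr (2, ![(σ 0, .stay), (σ 1, .stay), (1, .right)])
    else .inr (1, ![(σ 0, .stay), (σ 1, .stay), (2, .right)])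
  | 1 => .inr (0, ![(σ 0, .right), (σ 1, .stay), (σ 0, .right)])
  | 2 => .inr (3, ![(σ 0, .stay), (σ 1, .stay), (1, .right)])
  | 3 => .inr (if a then 5 else 4, ![(σ 0, .stay), (σ 1, .stay), (σ 2, .left)])
  | 4 => .inr (2, ![(σ 0, .stay), (σ 1, .stay), (2, .right)])
  | 5 => .inr (6, ![(σ 0, .stay), (σ 1, .stay), (2, .right)])
  | _ => .inl a

/-- The deterministic decider. -/
def progD (h : List Bool) : OTM := mk h 6 (fun n => n == 3 || n == 6) bodyD

/-- Invariant of configurations of machines of the form `mk`. -/
structure Inv {h : List Bool} {extra : ℕ} {isQb : ℕ → Bool}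
    {body : ℕ → (Fin 3 → Fin 3) → Bool → Bool ⊕ (ℕ × (Fin 3 → Fin 3 × Dir))}
    (c : Cfg (mk h extra isQb body)) (x w : List Bool) (i j n : ℕ) (u : List Bool) : Prop where
  st : c.st.val = n
  t0 : c.tape (0 : Fin 3) = (tapeOf x : ℕ → Fin 3)
  t1 : c.tape (1 : Fin 3) = (tapeOf w : ℕ → Fin 3)
  h0 : c.head (0 : Fin 3) = i
  h1 : c.head (1 : Fin 3) = j
  q : c.query = u

variable {h : List Bool} {extra : ℕ} {isQb : ℕ → Bool}
    {body : ℕ → (Fin 3 → Fin 3) → Bool → Bool ⊕ (ℕ × (Fin 3 → Fin 3 × Dir))}

/-- The effect of an action on the oracle tape. -/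
inductive Eff (σ2 : Fin 3) (u : List Bool) : Fin 3 × Dir → List Bool → Prop
  | stay : Eff σ2 u (σ2, .stay) u
  | left : Eff σ2 u (σ2, .left) u.dropLast
  | right (b : Bool) : Eff σ2 u (sym b, .right) (u ++ [b])

theorem map_range_dropLast {α : Type} (f : ℕ → α) (n : ℕ) :
    (List.range (n - 1)).map f = ((List.range n).map f).dropLast := by
  cases n with
  | zero => rfl
  | succ n => simp [List.range_succ]

theorem decide_sym (b : Bool) : decide (sym b = 2) = b := by
  cases b <;> decide

/-- The query string of a tape and a head position. -/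
def qry (t : ℕ → Fin 3) (n : ℕ) : List Bool := (List.range n).map fun j => decide (t j = 2)

theorem qry_right (t : ℕ → Fin 3) (n : ℕ) (b : Bool) :
    qry (Function.update t n (sym b)) (n + 1) = qry t n ++ [b] := by
  unfold qry
  rw [List.range_succ, List.map_append]
  congr 1
  · apply List.map_congr_left
    intro j hj
    rw [List.mem_range] at hj
    rw [Function.update_of_ne (ne_of_lt hj)]
  · simp only [List.map_cons, List.map_nil, Function.update_self, decide_sym]

theorem qry_eff (t : ℕ → Fin 3) (n : ℕ) (p : Fin 3 × Dir) {u : List Bool}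
    (hE : Eff (t n) (qry t n) p u) :
    qry (Function.update t n p.1) (moveHead p.2 n) = u := by
  cases hE with
  | stay => simp only [Function.update_eq_self, moveHead]
  | left =>
    simp only [Function.update_eq_self, moveHead]
    exact map_range_dropLast _ _
  | right b =>
    simp only [moveHead]
    exact qry_right t n b

theorem query_eff (c : Cfg (mk h extra isQb body)) (s : Fin (h.length + extra + 1))
    (act : Fin 3 → Fin 3 × Dir) {u : List Bool}
    (hE : Eff (c.tape (2 : Fin 3) (c.head (2 : Fin 3))) c.query (act 2) u) :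
    Cfg.query (M := mk h extra isQb body)
      { st := s
        tape := fun i : Fin 3 => Function.update (c.tape i) (c.head i) (act i).1
        head := fun i : Fin 3 => moveHead (act i).2 (c.head i) } = u :=
  qry_eff (c.tape (2 : Fin 3)) (c.head (2 : Fin 3)) (act 2) hE

theorem step_inv {A : Oracle} {c : Cfg (mk h extra isQb body)} {x w : List Bool} {i j n : ℕ}
    {u : List Bool} (hc : Inv c x w i j n u) {n' : ℕ} (hn' : n' ≤ h.length + extra)
    {act : Fin 3 → Fin 3 × Dir} {u' : List Bool}
    (hδ : (mk h extra isQb body).δ c.st (fun i => c.tape i (c.head i))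
      ((mk h extra isQb body).isQ c.st && A u) =
        .inr (Fin.ofNat (h.length + extra + 1) n', act))
    (h0 : (act 0).1 = c.tape (0 : Fin 3) (c.head (0 : Fin 3)))
    (h1 : (act 1).1 = c.tape (1 : Fin 3) (c.head (1 : Fin 3)))
    (hE : Eff (c.tape (2 : Fin 3) (c.head (2 : Fin 3))) u (act 2) u') :
    ∃ c', step A (mk h extra isQb body) c = .inr c' ∧
      Inv c' x w (moveHead (act 0).2 i) (moveHead (act 1).2 j) n' u' := by
  refine ⟨{ st := Fin.ofNat (h.length + extra + 1) n'
            tape := fun i : Fin 3 => Function.update (c.tape i) (c.head i) (act i).1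
            head := fun i : Fin 3 => moveHead (act i).2 (c.head i) }, ?_, ?_⟩
  · unfold step
    rw [hc.q, hδ]
    rfl
  · refine ⟨?_, ?_, ?_, ?_, ?_, ?_⟩
    · simp only [Fin.ofNat]
      exact Nat.mod_eq_of_lt (by omega)
    · simp only
      erw [h0, Function.update_eq_self]
      exact hc.t0
    · simp only
      erw [h1, Function.update_eq_self]
      exact hc.t1
    · simp only [← hc.h0]
    · simp only [← hc.h1]
    · apply query_eff
      rw [hc.q]
      exact hE

theorem run_of_step_inv {A : Oracle} {c : Cfg (mk h extra isQb body)} {x w : List Bool}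
    {i j n : ℕ} {u : List Bool} (hc : Inv c x w i j n u) {n' : ℕ} (hn' : n' ≤ h.length + extra)
    {act : Fin 3 → Fin 3 × Dir} {u' : List Bool}
    (hδ : (mk h extra isQb body).δ c.st (fun i => c.tape i (c.head i))
      ((mk h extra isQb body).isQ c.st && A u) =
        .inr (Fin.ofNat (h.length + extra + 1) n', act))
    (h0 : (act 0).1 = c.tape (0 : Fin 3) (c.head (0 : Fin 3)))
    (h1 : (act 1).1 = c.tape (1 : Fin 3) (c.head (1 : Fin 3)))
    (hE : Eff (c.tape (2 : Fin 3) (c.head (2 : Fin 3))) u (act 2) u') {N : ℕ} {ans : Bool}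
    (hnext : ∀ c' : Cfg (mk h extra isQb body),
      Inv c' x w (moveHead (act 0).2 i) (moveHead (act 1).2 j) n' u' →
      run A (mk h extra isQb body) N c' = some ans) :
    run A (mk h extra isQb body) (N + 1) c = some ans := by
  obtain ⟨c', hs, hI⟩ := step_inv hc hn' hδ h0 h1 hE
  exact run_step hs (hnext c' hI)

/-- Writing the header. -/
theorem run_header {A : Oracle} {x w : List Bool} {N : ℕ} {ans : Bool}
    (hnext : ∀ c' : Cfg (mk h extra isQb body), Inv c' x w 0 0 h.length h →
      run A (mk h extra isQb body) N c' = some ans) :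
    ∀ (d n : ℕ), n + d = h.length → ∀ c : Cfg (mk h extra isQb body),
      Inv c x w 0 0 n (h.take n) → run A (mk h extra isQb body) (N + d) c = some ans := by
  intro d
  induction d with
  | zero =>
    intro n hn c hc
    apply hnext
    have : n = h.length := by omega
    subst this
    simpa using hc
  | succ d ih =>
    intro n hn c hc
    have hlt : n < h.length := by omega
    rw [← add_assoc]
    refine run_of_step_inv (n' := n + 1) (u' := h.take (n + 1)) hc (by omega)
      (act := ![(c.tape (0 : Fin 3) (c.head (0 : Fin 3)), .stay),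
        (c.tape (1 : Fin 3) (c.head (1 : Fin 3)), .stay), (sym h[n], .right)]) ?_ rfl rfl ?_ ?_
    · have hst := hc.st
      simp only [mk]
      rw [dif_pos (by rw [hst]; exact hlt)]
      simp only [hst]
    · rw [List.take_succ_eq_append_getElem hlt]
      exact Eff.right _
    · intro c' hc'
      exact ih (n + 1) (by omega) c' hc'

theorem inv_init (x w : List Bool) :
    Inv (init (mk h extra isQb body) x w) x w 0 0 0 (h.take 0) := by
  refine ⟨rfl, ?_, ?_, rfl, rfl, ?_⟩
  · rfl
  · rfl
  · rfl

/-- Running from the initial configuration. -/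
theorem outcome_mk {A : Oracle} {x w : List Bool} {N : ℕ} {ans : Bool}
    (hnext : ∀ c' : Cfg (mk h extra isQb body), Inv c' x w 0 0 h.length h →
      run A (mk h extra isQb body) N c' = some ans) :
    outcome A (mk h extra isQb body) x w (N + h.length) = some ans :=
  run_header hnext h.length 0 (by omega) _ (inv_init x w)

/-- One step of the body. -/
theorem run_body {A : Oracle} {c : Cfg (mk h extra isQb body)} {x w : List Bool}
    {i j n : ℕ} {u : List Bool} (hc : Inv c x w i j (h.length + n) u) {n' : ℕ}
    (hn' : n' ≤ extra) {act : Fin 3 → Fin 3 × Dir} {u' : List Bool}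
    (hb : body n (fun i => c.tape i (c.head i)) (isQb n && A u) = .inr (n', act))
    (h0 : (act 0).1 = c.tape (0 : Fin 3) (c.head (0 : Fin 3)))
    (h1 : (act 1).1 = c.tape (1 : Fin 3) (c.head (1 : Fin 3)))
    (hE : Eff (c.tape (2 : Fin 3) (c.head (2 : Fin 3))) u (act 2) u') {N : ℕ} {ans : Bool}
    (hnext : ∀ c' : Cfg (mk h extra isQb body),
      Inv c' x w (moveHead (act 0).2 i) (moveHead (act 1).2 j) (h.length + n') u' →
      run A (mk h extra isQb body) N c' = some ans) :
    run A (mk h extra isQb body) (N + 1) c = some ans := by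
  refine run_of_step_inv (n' := h.length + n') hc (by omega) (act := act) ?_ h0 h1 hE hnext
  have hst := hc.st
  have hge : ¬ c.st.val < h.length := by omega
  have hsub : c.st.val - h.length = n := by omega
  simp only [mk, hge, if_false, hsub]
  rw [dif_neg (by simp)]
  rw [hb]

/-- Halting of the body. -/
theorem run_halt {A : Oracle} {c : Cfg (mk h extra isQb body)} {x w : List Bool}
    {i j n : ℕ} {u : List Bool} (hc : Inv c x w i j (h.length + n) u) {ans : Bool}
    (hb : body n (fun i => c.tape i (c.head i)) (isQb n && A u) = .inl ans) (N : ℕ) :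
    run A (mk h extra isQb body) (N + 1) c = some ans := by
  have hst := hc.st
  have hge : ¬ c.st.val < h.length := by omega
  have hsub : c.st.val - h.length = n := by omega
  have hδ : (mk h extra isQb body).δ c.st (fun i => c.tape i (c.head i))
      ((mk h extra isQb body).isQ c.st && A u) = .inl ans := by
    simp only [mk, hge, if_false, hsub]
    rw [dif_neg (by simp)]
    rw [hb]
  simp only [run, step]
  rw [hc.q, hδ]

/-! ### The verifier -/

theorem tapeOf_getElem {l : List Bool} {i : ℕ} (hi : i < l.length) :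
    (tapeOf l : ℕ → Fin 3) i = sym l[i] := by
  simp [tapeOf, hi, sym]

theorem tapeOf_length {l : List Bool} {i : ℕ} (hi : l.length ≤ i) :
    (tapeOf l : ℕ → Fin 3) i = 0 := by
  simp [tapeOf, hi]

theorem sym_ne_zero (b : Bool) : sym b ≠ 0 := by cases b <;> decide

theorem bodyV_blank {σ : Fin 3 → Fin 3} {a : Bool} (h : σ 1 = 0) :
    bodyV 0 σ a = .inr (1, ![(σ 0, .stay), (σ 1, .stay), (σ 2, .stay)]) := by
  simp only [bodyV, h, if_true]

theorem bodyV_copy {σ : Fin 3 → Fin 3} {a : Bool} (h : σ 1 ≠ 0) :
    bodyV 0 σ a = .inr (0, ![(σ 0, .stay), (σ 1, .right), (σ 1, .right)]) := by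
  simp only [bodyV, h, if_false]

theorem bodyD_blank {σ : Fin 3 → Fin 3} {a : Bool} (h : σ 0 = 0) :
    bodyD 0 σ a = .inr (2, ![(σ 0, .stay), (σ 1, .stay), (1, .right)]) := by
  simp only [bodyD, h, if_true]

theorem bodyD_copy {σ : Fin 3 → Fin 3} {a : Bool} (h : σ 0 ≠ 0) :
    bodyD 0 σ a = .inr (1, ![(σ 0, .stay), (σ 1, .stay), (2, .right)]) := by
  simp only [bodyD, h, if_false]

theorem runV_copy {A : Oracle} {x w : List Bool} {u : List Bool} {ans : Bool}
    (hA : A (u ++ w) = ans) : ∀ (d j : ℕ), j + d = w.length →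
    ∀ c : Cfg (progV h), Inv (h := h) (extra := 1) (isQb := fun n => n == 1) (body := bodyV)
      c x w 0 j (h.length + 0) (u ++ w.take j) →
      run A (progV h) (2 + d) c = some ans := by
  intro d
  induction d with
  | zero =>
    intro j hj c hc
    have hj' : j = w.length := by omega
    subst hj'
    have h1 : c.tape (1 : Fin 3) (c.head (1 : Fin 3)) = (0 : Fin 3) := by
      rw [hc.t1, hc.h1]
      exact tapeOf_length le_rfl
    refine run_body (n' := 1) hc (by omega) (act := ![(c.tape (0 : Fin 3) (c.head (0 : Fin 3)),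
      .stay), (c.tape (1 : Fin 3) (c.head (1 : Fin 3)), .stay),
      (c.tape (2 : Fin 3) (c.head (2 : Fin 3)), .stay)]) ?_ rfl rfl Eff.stay ?_
    · exact bodyV_blank h1
    · intro c' hc'
      apply run_halt hc' _ 0
      simp only [List.take_length]
      rw [hA]
      rfl
  | succ d ih =>
    intro j hj c hc
    have hlt : j < w.length := by omega
    have h1 : c.tape (1 : Fin 3) (c.head (1 : Fin 3)) = sym w[j] := by
      rw [hc.t1, hc.h1]
      exact tapeOf_getElem hlt
    rw [← add_assoc]
    refine run_body (n' := 0) (u' := u ++ w.take (j + 1)) hc (by omega)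
      (act := ![(c.tape (0 : Fin 3) (c.head (0 : Fin 3)),
      .stay), (c.tape (1 : Fin 3) (c.head (1 : Fin 3)), .right),
      (c.tape (1 : Fin 3) (c.head (1 : Fin 3)), .right)]) ?_ rfl rfl ?_ ?_
    · refine bodyV_copy ?_
      rw [h1]
      exact sym_ne_zero _
    · rw [List.take_succ_eq_append_getElem hlt, ← List.append_assoc]
      show Eff _ _ (c.tape (1 : Fin 3) (c.head (1 : Fin 3)), Dir.right) _
      rw [h1]
      exact Eff.right _
    · intro c' hc'
      exact ih (j + 1) (by omega) c' hc'

theorem outcome_progV (A : Oracle) (h x w : List Bool) {N : ℕ}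
    (hN : h.length + w.length + 2 ≤ N) : outcome A (progV h) x w N = some (A (h ++ w)) := by
  refine run_mono (2 + w.length + h.length) _ _ (by omega) ?_
  apply outcome_mk (h := h) (extra := 1) (isQb := fun n => n == 1) (body := bodyV)
  intro c' hc'
  apply runV_copy (u := h) rfl w.length 0 (by omega)
  simpa using hc'

/-! ### The decider -/

theorem runD_loop {A : Oracle} {x : List Bool} {i : ℕ} {ans : Bool} : ∀ (d : ℕ) (u : List Bool),
    (∀ t < d, A (u ++ (List.replicate t true ++ [false])) = false) →
    A (u ++ (List.replicate d true ++ [false])) = true →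
    A (u ++ (List.replicate d true ++ [true])) = ans →
    ∀ c : Cfg (progD h), Inv (h := h) (extra := 6) (isQb := fun n => n == 3 || n == 6)
      (body := bodyD) c x [] i 0 (h.length + 2) u →
      run A (progD h) (3 * d + 4) c = some ans := by
  intro d
  induction d with
  | zero =>
    intro u _ hyes hans c hc
    simp only [List.replicate_zero, List.nil_append] at hyes hans
    refine run_body (n' := 3) (u' := u ++ [false]) hc (by omega)
      (act := ![(c.tape (0 : Fin 3) (c.head (0 : Fin 3)),
      .stay), (c.tape (1 : Fin 3) (c.head (1 : Fin 3)), .stay),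
      (1, .right)]) rfl rfl rfl (Eff.right false) ?_
    intro c1 hc1
    refine run_body (n' := 5) (u' := u) hc1 (by omega)
      (act := ![(c1.tape (0 : Fin 3) (c1.head (0 : Fin 3)),
      .stay), (c1.tape (1 : Fin 3) (c1.head (1 : Fin 3)), .stay),
      (c1.tape (2 : Fin 3) (c1.head (2 : Fin 3)), .left)]) ?_ rfl rfl ?_ ?_
    · simp only [bodyD, hyes]
      rfl
    · have := Eff.left (σ2 := c1.tape (2 : Fin 3) (c1.head (2 : Fin 3))) (u := u ++ [false])
      simpa using this
    intro c2 hc2
    refine run_body (n' := 6) (u' := u ++ [true]) hc2 (by omega)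
      (act := ![(c2.tape (0 : Fin 3) (c2.head (0 : Fin 3)),
      .stay), (c2.tape (1 : Fin 3) (c2.head (1 : Fin 3)), .stay),
      (2, .right)]) rfl rfl rfl (Eff.right true) ?_
    intro c3 hc3
    apply run_halt hc3 _ 0
    simp only [bodyD, hans]
    rfl
  | succ d ih =>
    intro u hno hyes hans c hc
    have h0 := hno 0 (by omega)
    simp only [List.replicate_zero, List.nil_append] at h0
    have hsh : ∀ (t : ℕ) (b : Bool), u ++ (List.replicate (t + 1) true ++ [b]) =
        (u ++ [true]) ++ (List.replicate t true ++ [b]) := by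
      intro t b
      simp [List.replicate_succ]
    rw [show 3 * (d + 1) + 4 = (3 * d + 4) + 1 + 1 + 1 by ring]
    refine run_body (n' := 3) (u' := u ++ [false]) hc (by omega)
      (act := ![(c.tape (0 : Fin 3) (c.head (0 : Fin 3)),
      .stay), (c.tape (1 : Fin 3) (c.head (1 : Fin 3)), .stay),
      (1, .right)]) rfl rfl rfl (Eff.right false) ?_
    intro c1 hc1
    refine run_body (n' := 4) (u' := u) hc1 (by omega)
      (act := ![(c1.tape (0 : Fin 3) (c1.head (0 : Fin 3)),
      .stay), (c1.tape (1 : Fin 3) (c1.head (1 : Fin 3)), .stay),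
      (c1.tape (2 : Fin 3) (c1.head (2 : Fin 3)), .left)]) ?_ rfl rfl ?_ ?_
    · simp only [bodyD, h0]
      rfl
    · have := Eff.left (σ2 := c1.tape (2 : Fin 3) (c1.head (2 : Fin 3))) (u := u ++ [false])
      simpa using this
    intro c2 hc2
    refine run_body (n' := 2) (u' := u ++ [true]) hc2 (by omega)
      (act := ![(c2.tape (0 : Fin 3) (c2.head (0 : Fin 3)),
      .stay), (c2.tape (1 : Fin 3) (c2.head (1 : Fin 3)), .stay),
      (2, .right)]) rfl rfl rfl (Eff.right true) ?_
    intro c3 hc3
    apply ih (u ++ [true]) _ _ _ c3 hc3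
    · intro t ht
      rw [← hsh]
      exact hno (t + 1) (by omega)
    · rw [← hsh]
      exact hyes
    · rw [← hsh]
      exact hans

theorem runD_copy {A : Oracle} {x : List Bool} {N : ℕ} {ans : Bool} (v : List Bool)
    (hnext : ∀ c' : Cfg (progD h), Inv (h := h) (extra := 6)
      (isQb := fun n => n == 3 || n == 6) (body := bodyD) c' x [] x.length 0 (h.length + 2)
        (v ++ encS x) → run A (progD h) N c' = some ans) :
    ∀ (d i : ℕ), i + d = x.length → ∀ (u : List Bool), u ++ encS (x.drop i) = v ++ encS x →
    ∀ c : Cfg (progD h), Inv (h := h) (extra := 6) (isQb := fun n => n == 3 || n == 6)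
      (body := bodyD) c x [] i 0 (h.length + 0) u →
      run A (progD h) (N + 1 + 2 * d) c = some ans := by
  intro d
  induction d with
  | zero =>
    intro i hi u hu c hc
    have hi' : i = x.length := by omega
    subst hi'
    simp only [List.drop_length, encS] at hu
    have h1 : c.tape (0 : Fin 3) (c.head (0 : Fin 3)) = (0 : Fin 3) := by
      rw [hc.t0, hc.h0]
      exact tapeOf_length le_rfl
    refine run_body (n' := 2) (u' := u ++ [false]) hc (by omega)
      (act := ![(c.tape (0 : Fin 3) (c.head (0 : Fin 3)),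
      .stay), (c.tape (1 : Fin 3) (c.head (1 : Fin 3)), .stay),
      (1, .right)]) ?_ rfl rfl (Eff.right false) ?_
    · exact bodyD_blank h1
    · intro c' hc'
      rw [hu] at hc'
      exact hnext c' hc'
  | succ d ih =>
    intro i hi u hu c hc
    have hlt : i < x.length := by omega
    have h1 : c.tape (0 : Fin 3) (c.head (0 : Fin 3)) = sym x[i] := by
      rw [hc.t0, hc.h0]
      exact tapeOf_getElem hlt
    rw [show N + 1 + 2 * (d + 1) = (N + 1 + 2 * d) + 1 + 1 by ring]
    refine run_body (n' := 1) (u' := u ++ [true]) hc (by omega)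
      (act := ![(c.tape (0 : Fin 3) (c.head (0 : Fin 3)),
      .stay), (c.tape (1 : Fin 3) (c.head (1 : Fin 3)), .stay),
      (2, .right)]) ?_ rfl rfl (Eff.right true) ?_
    · refine bodyD_copy ?_
      rw [h1]
      exact sym_ne_zero _
    intro c1 hc1
    have h2 : c1.tape (0 : Fin 3) (c1.head (0 : Fin 3)) = sym x[i] := by
      rw [hc1.t0, hc1.h0]
      exact tapeOf_getElem hlt
    refine run_body (n' := 0) (u' := u ++ [true] ++ [x[i]]) hc1 (by omega)
      (act := ![(c1.tape (0 : Fin 3) (c1.head (0 : Fin 3)),
      .right), (c1.tape (1 : Fin 3) (c1.head (1 : Fin 3)), .stay),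
      (c1.tape (0 : Fin 3) (c1.head (0 : Fin 3)), .right)]) rfl rfl rfl ?_ ?_
    · show Eff _ _ (c1.tape (0 : Fin 3) (c1.head (0 : Fin 3)), Dir.right) _
      rw [h2]
      exact Eff.right _
    intro c2 hc2
    apply ih (i + 1) (by omega) _ _ c2 hc2
    rw [← hu, List.drop_eq_getElem_cons hlt]
    simp [encS]

/-- The decider outputs the answer at the first padding length at which the oracle says stop. -/
theorem outcome_progD (A : Oracle) (h x : List Bool) (d : ℕ) {N : ℕ}
    (hno : ∀ t < d, A (h ++ (encS x ++ (List.replicate t true ++ [false]))) = false)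
    (hyes : A (h ++ (encS x ++ (List.replicate d true ++ [false]))) = true)
    (hN : 3 * d + 2 * x.length + h.length + 5 ≤ N) :
    outcome A (progD h) x [] N =
      some (A (h ++ (encS x ++ (List.replicate d true ++ [true])))) := by
  refine run_mono (3 * d + 4 + 1 + 2 * x.length + h.length) _ _ (by omega) ?_
  apply outcome_mk (h := h) (extra := 6) (isQb := fun n => n == 3 || n == 6) (body := bodyD)
  intro c' hc'
  refine runD_copy (x := x) (v := h) ?_ x.length 0 (by omega) h (by simp) c'
    (by simpa using hc')
  intro c2 hc2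
  apply runD_loop d (h ++ encS x) _ _ _ c2 hc2
  · intro t ht
    rw [List.append_assoc]
    exact hno t ht
  · rw [List.append_assoc]
    exact hyes
  · rw [List.append_assoc]

end H556R2
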