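import Pool.Agent.H556R2.Growth
import Pool.Agent.H556R2.Classes
import Pool.Agent.H556R2.Prog

/-!
# The classes relative to the constructed oracles
-/

namespace H556R2

open Polynomial in
open Classical in
/-- The finite case: every promise that always holds gives a language in `P`. -/
theorem collapse {dem : ℕ → Dem}
    (hfin : ∀ m, {s | ∃ a c m', dem s = some (a, c, m') ∧ m' ≤ m}.Finite)
    {e : Sem} {L : Lang} (h : ∀ x, verdict e (Cx.O dem) x = some (decide (x ∈ L))) :
    L ∈ ClassP (Cx.O dem) := by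
  obtain ⟨i, rfl⟩ := semOf_surj e
  obtain ⟨k, hk, hcode⟩ := exists_code (C := Cx) hfin (e := i) (fun x => by rw [h x]; simp)
  rw [mem_classP]
  refine ⟨progD (false :: encN k), 3 * (semOf i).thrP + 2 * X + C (k + 10), fun x => ?_⟩
  have hc := hcode x
  rw [outcome_progD (Cx.O dem) (false :: encN k) x ((semOf i).thr x.length)]
  · have h1 : (false :: encN k) ++ (encS x ++
        (List.replicate ((semOf i).thr x.length) true ++ [true])) =
        cod k x ((semOf i).thr x.length) true := rfl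
    rw [h1, ((hc _).2 le_rfl).2]
    unfold vd
    rw [h x]
    by_cases hx : x ∈ L <;> simp [hx]
  · intro t ht
    exact (hc t).1 ht false
  · exact ((hc _).2 le_rfl).1
  · simp only [Polynomial.eval_add, Polynomial.eval_mul, Sem.eval_thrP, Polynomial.eval_X,
      Polynomial.eval_C, List.length_cons, length_encN, Polynomial.eval_ofNat]
    omega

/-- The header of a region. -/
def hdr (a : ℕ) (b : Bool) : List Bool := true :: (encN a ++ [b])

theorem hdr_append (a : ℕ) (b : Bool) (y : List Bool) : hdr a b ++ y = reg a b y := by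
  simp [hdr, reg]

theorem length_hdr (a : ℕ) (b : Bool) : (hdr a b).length = a + 3 := by
  simp [hdr, length_encN]

theorem outcome_hdr (A : Oracle) (a : ℕ) (b : Bool) (x w : List Bool) {t : ℕ}
    (ht : w.length + a + 5 ≤ t) :
    outcome A (progV (hdr a b)) x w t = some (A (reg a b w)) := by
  rw [outcome_progV A (hdr a b) x w (by rw [length_hdr]; omega), hdr_append]

theorem haltsAll_progV (A : Oracle) (a : ℕ) (b : Bool) (x : List Bool) {m t : ℕ}
    (ht : m + a + 5 ≤ t) : HaltsAll A (progV (hdr a b)) x m t := by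
  intro w
  rw [outcome_hdr A a b x _ (by rw [List.length_ofFn]; exact ht)]
  rfl

theorem accCount_progV (A : Oracle) (a : ℕ) (b : Bool) (x : List Bool) {m t : ℕ}
    (ht : m + a + 5 ≤ t) : accCount A (progV (hdr a b)) x m t = cntO A a b m := by
  unfold accCount cntO cnt
  congr 1
  ext w
  simp only [Finset.mem_filter, Finset.mem_univ, true_and]
  rw [outcome_hdr A a b x _ (by rw [List.length_ofFn]; exact ht)]
  simp

/-- The polynomial `n + N`. -/
noncomputable def shiftP (N : ℕ) : Polynomial ℕ := Polynomial.X + Polynomial.C N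

theorem eval_shiftP (N n : ℕ) : (shiftP N).eval n = n + N := by
  simp [shiftP]

/-- The language of strings `x` such that the region of length `|x| + N` is nonempty. -/
def Lex (A : Oracle) (a N : ℕ) : Lang := {x | cntO A a true (x.length + N) ≠ 0}

/-- The language of strings `x` such that the region of length `|x| + N` is large. -/
def Lmaj (A : Oracle) (a N : ℕ) : Lang :=
  {x | 3 * 2 ^ (x.length + N) ≤ 4 * cntO A a true (x.length + N)}

theorem Lex_mem_NP (A : Oracle) (a N : ℕ) : Lex A a N ∈ ClassNP A := by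
  refine ⟨progV (hdr a true), shiftP N, shiftP (N + a + 5), fun x => ?_⟩
  rw [eval_shiftP, eval_shiftP]
  refine ⟨haltsAll_progV _ _ _ _ (by omega), ?_⟩
  rw [accCount_progV _ _ _ _ (by omega)]
  exact Nat.pos_iff_ne_zero.symm

section
variable {dem : ℕ → Dem} (hrow : ∀ s a c m, dem s = some (a, c, m) → a ≤ s + 1)

include hrow in
open Classical in
theorem np_diag (hnp : ∀ e i, i ≤ e → dem (Nat.pair 0 (Nat.pair e i)) = some (0, e, e))
    (e : Sem) : ∃ x, verdict e (Cx.O dem) x ≠ some (decide (x ∈ Lex (Cx.O dem) 0 0)) := by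
  obtain ⟨i, rfl⟩ := semOf_surj e
  obtain ⟨j, hj, hc⟩ : ∃ j, j ≤ i ∧ Cx.chosen dem (Nat.pair 0 (Nat.pair i j)) = none := by
    by_contra hcon
    push Not at hcon
    let F := (Finset.range (i + 1)).image fun j => Nat.pair 0 (Nat.pair i j)
    have hF : F.card = i + 1 := by
      rw [Finset.card_image_of_injective, Finset.card_range]
      intro j j' h
      simpa [Nat.pair_eq_pair] using h
    have := card_chosen_le (C := Cx) (dem := dem) i F (by
      intro s hs
      obtain ⟨j, hj, rfl⟩ := Finset.mem_image.1 hs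
      rw [Finset.mem_range] at hj
      obtain ⟨e', he'⟩ := Option.ne_none_iff_exists'.1 (hcon j (by omega))
      obtain ⟨a, c, m, hd, hm, -⟩ := chosen_spec he'
      rw [hnp i j (by omega)] at hd
      simp only [Option.some.injEq, Prod.mk.injEq] at hd
      exact ⟨e', by omega, he'⟩)
    omega
  have h1 := mis_O hrow (hnp i j hj) hc ((Nat.left_le_pair i j).trans (Nat.right_le_pair _ _))
  refine ⟨List.replicate (nf (Nat.pair 0 (Nat.pair i j))) false, ?_⟩
  simp only [Mis, rowKind, if_true] at h1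
  have h2 : decide (List.replicate (nf (Nat.pair 0 (Nat.pair i j))) false ∈
      Lex (Cx.O dem) 0 0) =
      decide (cntO (Cx.O dem) 0 true (nf (Nat.pair 0 (Nat.pair i j))) ≠ 0) := by
    rw [decide_eq_decide]
    simp only [Lex, Set.mem_ofPred_eq, List.length_replicate, add_zero]
  rw [h2]
  exact h1

/-- Beyond some length, no stage in the row is used to break a machine. -/
theorem exists_shift {a : ℕ} (hbd : ∀ s c m, dem s = some (a, c, m) → m ≤ a) :
    ∃ N0, ∀ s c m, N0 ≤ nf s → dem s = some (a, c, m) → Cx.chosen dem s = none := by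
  obtain ⟨S1, hS1⟩ := (finite_chosen (C := Cx) (dem := dem) a).bddAbove
  refine ⟨nf S1 + 1, fun s c m hs hd => ?_⟩
  by_contra hc
  obtain ⟨e', he'⟩ := Option.ne_none_iff_exists'.1 hc
  obtain ⟨a', c', m', hd', hm', -⟩ := chosen_spec he'
  rw [hd] at hd'
  simp only [Option.some.injEq, Prod.mk.injEq] at hd'
  have h1 := hbd s c m hd
  have h2 : s ≤ S1 := hS1 ⟨e', by omega, he'⟩
  have h3 : nf s ≤ nf S1 := (n_strictMono (C := Cx)).monotone h2
  omega

include hrow in
theorem zpp_row {a : ℕ} (ha : rowKind a = .zpp) (hbd : ∀ s c m, dem s = some (a, c, m) → m ≤ a)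
    (hinf : ∀ c S, ∃ s, S < s ∧ dem s = some (a, c, a)) :
    ∃ L : Lang, L ∈ ClassZPP (Cx.O dem) ∧ L ∉ ClassP (Cx.O dem) := by
  classical
  obtain ⟨N0, hN0⟩ := exists_shift hbd
  have htyped : ∀ n, N0 ≤ n → Typed .zpp n (cntO (Cx.O dem) a true n)
      (cntO (Cx.O dem) a false n) := by
    intro n hn
    rw [← ha]
    apply typed_O hrow
    rintro s c m rfl hd
    exact hN0 s c m hn hd
  refine ⟨Lex (Cx.O dem) a N0, ⟨?_, ?_⟩, ?_⟩
  · refine ⟨progV (hdr a true), shiftP N0, shiftP (N0 + a + 5), fun x => ?_⟩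
    rw [eval_shiftP, eval_shiftP, accCount_progV _ _ _ _ (by omega)]
    refine ⟨haltsAll_progV _ _ _ _ (by omega), ?_, ?_⟩
    · intro hx
      rcases htyped (x.length + N0) (by omega) with ⟨h1, h2⟩ | ⟨h1, h2⟩
      · omega
      · exact absurd h2 hx
    · intro hx
      by_contra hne
      exact hx hne
  · refine ⟨progV (hdr a false), shiftP N0, shiftP (N0 + a + 5), fun x => ?_⟩
    rw [eval_shiftP, eval_shiftP, accCount_progV _ _ _ _ (by omega)]
    have hpos : 0 < 2 ^ (x.length + N0) := by positivity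
    refine ⟨haltsAll_progV _ _ _ _ (by omega), ?_, ?_⟩
    · intro hx
      have hx' : cntO (Cx.O dem) a true (x.length + N0) = 0 := by
        by_contra hne
        exact hx hne
      rcases htyped (x.length + N0) (by omega) with ⟨h1, h2⟩ | ⟨h1, h2⟩
      · omega
      · omega
    · intro hx
      have hx' : cntO (Cx.O dem) a true (x.length + N0) ≠ 0 := by
        simpa [Lex] using hx
      rcases htyped (x.length + N0) (by omega) with ⟨h1, h2⟩ | ⟨h1, h2⟩
      · exact h2
      · exact absurd h2 hx'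
  · intro hP
    obtain ⟨M, p, hMp⟩ := mem_classP.1 hP
    obtain ⟨c, hc⟩ := adv_surj (⟨M, 0, p⟩, N0)
    obtain ⟨s, hs, hd⟩ := hinf c (c + N0)
    have hns : s ≤ nf s := (n_strictMono (C := Cx)).id_le s
    have hch := hN0 s c a (by omega) hd
    have h1 := mis_O hrow hd hch (by omega)
    rw [ha] at h1
    simp only [Mis, hc] at h1
    have h2 := hMp (List.replicate (nf s - N0) false)
    rw [List.length_replicate] at h2
    apply h1
    rw [h2]
    simp only [Lex, Set.mem_ofPred_eq, List.length_replicate,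
      Nat.sub_add_cancel (show N0 ≤ nf s by omega)]

include hrow in
theorem bn_row {a : ℕ} (ha : rowKind a = .bn) (hbd : ∀ s c m, dem s = some (a, c, m) → m ≤ a)
    (hinf : ∀ c S, ∃ s, S < s ∧ dem s = some (a, c, a)) :
    ∃ L : Lang, L ∈ ClassBPP (Cx.O dem) ∧ L ∉ ClassNP (Cx.O dem) := by
  classical
  obtain ⟨N0, hN0⟩ := exists_shift hbd
  have htyped : ∀ n, N0 ≤ n → Typed .bn n (cntO (Cx.O dem) a true n)
      (cntO (Cx.O dem) a false n) := by
    intro n hn
    rw [← ha]
    apply typed_O hrow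
    rintro s c m rfl hd
    exact hN0 s c m hn hd
  refine ⟨Lmaj (Cx.O dem) a N0, ?_, ?_⟩
  · refine ⟨progV (hdr a true), shiftP N0, shiftP (N0 + a + 5), fun x => ?_⟩
    rw [eval_shiftP, eval_shiftP, accCount_progV _ _ _ _ (by omega)]
    refine ⟨haltsAll_progV _ _ _ _ (by omega), ?_, ?_⟩
    · intro hx
      have hx' : 3 * 2 ^ (x.length + N0) ≤ 4 * cntO (Cx.O dem) a true (x.length + N0) := hx
      omega
    · intro hx
      have hx' : ¬ 3 * 2 ^ (x.length + N0) ≤ 4 * cntO (Cx.O dem) a true (x.length + N0) := hx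
      rcases htyped (x.length + N0) (by omega) with h1 | h1
      · exact absurd h1 hx'
      · omega
  · intro hNP
    obtain ⟨E, hE⟩ := mem_classNP.1 hNP
    obtain ⟨c, hc⟩ := adv_surj (E, N0)
    obtain ⟨s, hs, hd⟩ := hinf c (c + N0)
    have hns : s ≤ nf s := (n_strictMono (C := Cx)).id_le s
    have hch := hN0 s c a (by omega) hd
    have h1 := mis_O hrow hd hch (by omega)
    rw [ha] at h1
    simp only [Mis, hc] at h1
    have h2 := hE (List.replicate (nf s - N0) false)
    unfold vNP at h2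
    split_ifs at h2 with h3
    simp only [Option.some.injEq, decide_eq_decide] at h2
    apply h1
    rw [h2]
    simp only [Lmaj, Set.mem_ofPred_eq, List.length_replicate,
      Nat.sub_add_cancel (show N0 ≤ nf s by omega)]

end

/-! ### The demands given by a matrix -/

/-- The demands: row `0` serves `NP`, rows `2 i + 1` and `2 i + 2` follow row `i` of `α`. -/
def demA (α : ℕ → ℕ → Option ℕ) (s : ℕ) : Dem :=
  if s.unpair.1 = 0 then
    (if s.unpair.2.unpair.2 ≤ s.unpair.2.unpair.1 then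
      some (0, s.unpair.2.unpair.1, s.unpair.2.unpair.1) else none)
  else (α ((s.unpair.1 - 1) / 2) s.unpair.2).map fun t => (s.unpair.1, t.unpair.1, s.unpair.1)

theorem demA_row (α : ℕ → ℕ → Option ℕ) (s a c m : ℕ) (h : demA α s = some (a, c, m)) :
    a = s.unpair.1 ∧ (a ≠ 0 → m = a) := by
  unfold demA at h
  split_ifs at h with h1 h2
  · simp only [Option.some.injEq, Prod.mk.injEq] at h
    refine ⟨by omega, fun h3 => by omega⟩
  · rw [Option.map_eq_some_iff] at h
    obtain ⟨t, -, ht⟩ := h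
    simp only [Prod.mk.injEq] at ht
    refine ⟨by omega, fun _ => by omega⟩

theorem demA_hrow (α : ℕ → ℕ → Option ℕ) : ∀ s a c m, demA α s = some (a, c, m) → a ≤ s + 1 := by
  intro s a c m h
  have h1 := (demA_row α s a c m h).1
  have h2 := Nat.unpair_left_le s
  omega

theorem demA_hnp (α : ℕ → ℕ → Option ℕ) :
    ∀ e i, i ≤ e → demA α (Nat.pair 0 (Nat.pair e i)) = some (0, e, e) := by
  intro e i hi
  simp [demA, hi]

theorem demA_hfin {α : ℕ → ℕ → Option ℕ} (hα : ∀ i, {b | α i b ≠ none}.Finite) (m : ℕ) :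
    {s | ∃ a c m', demA α s = some (a, c, m') ∧ m' ≤ m}.Finite := by
  have h1 : ((fun p : ℕ × ℕ => Nat.pair 0 (Nat.pair p.1 p.2)) ''
      (Set.Iic m ×ˢ Set.Iic m)).Finite :=
    ((Set.finite_Iic m).prod (Set.finite_Iic m)).image _
  have h2 : (⋃ r ∈ Set.Iic m, (fun b => Nat.pair r b) '' {b | α ((r - 1) / 2) b ≠ none}).Finite :=
    (Set.finite_Iic m).biUnion fun r _ => (hα _).image _
  refine (h1.union h2).subset ?_
  rintro s ⟨a, c, m', hs, hm⟩
  have hr := demA_row α s a c m' hs
  unfold demA at hs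
  split_ifs at hs with h3 h4
  · left
    simp only [Option.some.injEq, Prod.mk.injEq] at hs
    refine ⟨(s.unpair.2.unpair.1, s.unpair.2.unpair.2), ⟨?_, ?_⟩, ?_⟩
    · simp only [Set.mem_Iic]
      omega
    · simp only [Set.mem_Iic]
      omega
    · simp only [Nat.pair_unpair]
      rw [← h3, Nat.pair_unpair]
  · right
    rw [Option.map_eq_some_iff] at hs
    obtain ⟨t, ht, ht'⟩ := hs
    simp only [Prod.mk.injEq] at ht'
    simp only [Set.mem_iUnion, Set.mem_Iic]
    refine ⟨s.unpair.1, by omega, s.unpair.2, ?_, Nat.pair_unpair s⟩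
    simp [ht]

theorem demA_hinf {α : ℕ → ℕ → Option ℕ} {i : ℕ} (hα : ∀ t, ∃ b, α i b = some t) {r : ℕ}
    (hr : r ≠ 0) (hi : (r - 1) / 2 = i) (c S : ℕ) :
    ∃ s, S < s ∧ demA α s = some (r, c, r) := by
  choose f hf using hα
  have hinj : Function.Injective fun k => f (Nat.pair c k) := by
    intro k k' h
    simp only at h
    have h1 := hf (Nat.pair c k)
    have h2 := hf (Nat.pair c k')
    rw [h, h2] at h1
    simp only [Option.some.injEq, Nat.pair_eq_pair, true_and] at h1
    exact h1.symm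
  obtain ⟨b, ⟨k, hk⟩, hb⟩ := (Set.infinite_range_of_injective hinj).exists_gt S
  simp only at hk
  refine ⟨Nat.pair r b, lt_of_lt_of_le hb (Nat.right_le_pair r b), ?_⟩
  unfold demA
  rw [Nat.unpair_pair]
  simp only [if_neg hr, hi, ← hk, hf, Option.map_some, Nat.unpair_pair]

/-- The oracle given by a matrix. -/
noncomputable def OA (α : ℕ → ℕ → Option ℕ) : Oracle := Cx.O (demA α)

theorem OA_NP_not_RP (α : ℕ → ℕ → Option ℕ) : ¬ ClassNP (OA α) ⊆ ClassRP (OA α) := by
  intro h
  obtain ⟨E, hE⟩ := mem_classRP.1 (h (Lex_mem_NP (OA α) 0 0))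
  obtain ⟨x, hx⟩ := np_diag (demA_hrow α) (demA_hnp α) (.rp, E, E)
  exact hx (hE x)

theorem OA_NP_not_BPP (α : ℕ → ℕ → Option ℕ) : ¬ ClassNP (OA α) ⊆ ClassBPP (OA α) := by
  intro h
  obtain ⟨E, hE⟩ := mem_classBPP.1 (h (Lex_mem_NP (OA α) 0 0))
  obtain ⟨x, hx⟩ := np_diag (demA_hrow α) (demA_hnp α) (.bpp, E, E)
  exact hx (hE x)

theorem OA_NP_ne_coNP (α : ℕ → ℕ → Option ℕ) : ¬ ClassNP (OA α) ⊆ ClassCoNP (OA α) := by
  intro h
  obtain ⟨E, E', hE⟩ := mem_npc.1 ⟨Lex_mem_NP (OA α) 0 0, h (Lex_mem_NP (OA α) 0 0)⟩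
  obtain ⟨x, hx⟩ := np_diag (demA_hrow α) (demA_hnp α) (.npc, E, E')
  exact hx (hE x)

theorem OA_fin_RP {α : ℕ → ℕ → Option ℕ} (hα : ∀ i, {b | α i b ≠ none}.Finite) :
    ClassRP (OA α) ⊆ ClassP (OA α) := by
  intro L hL
  obtain ⟨E, hE⟩ := mem_classRP.1 hL
  exact collapse (demA_hfin hα) hE

theorem OA_fin_BPP {α : ℕ → ℕ → Option ℕ} (hα : ∀ i, {b | α i b ≠ none}.Finite) :
    ClassBPP (OA α) ⊆ ClassP (OA α) := by
  intro L hL
  obtain ⟨E, hE⟩ := mem_classBPP.1 hL
  exact collapse (demA_hfin hα) hE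

theorem OA_fin_npc {α : ℕ → ℕ → Option ℕ} (hα : ∀ i, {b | α i b ≠ none}.Finite) :
    ClassNP (OA α) ∩ ClassCoNP (OA α) ⊆ ClassP (OA α) := by
  intro L hL
  obtain ⟨E, E', hE⟩ := mem_npc.1 hL
  exact collapse (demA_hfin hα) hE

theorem OA_inf_ZPP {α : ℕ → ℕ → Option ℕ} {i : ℕ} (hα : ∀ t, ∃ b, α i b = some t) :
    ¬ ClassZPP (OA α) ⊆ ClassP (OA α) := by
  intro h
  obtain ⟨L, hL, hL'⟩ := zpp_row (dem := demA α) (demA_hrow α) (a := 2 * i + 1)
    (by simp only [rowKind]; rw [if_neg (by omega), if_pos (by omega)])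
    (fun s c m hs => ((demA_row α s _ c m hs).2 (by omega)).le)
    (fun c S => demA_hinf hα (by omega) (by omega) c S)
  exact hL' (h hL)

theorem OA_inf_BPP {α : ℕ → ℕ → Option ℕ} {i : ℕ} (hα : ∀ t, ∃ b, α i b = some t) :
    ¬ ClassBPP (OA α) ⊆ ClassNP (OA α) := by
  intro h
  obtain ⟨L, hL, hL'⟩ := bn_row (dem := demA α) (demA_hrow α) (a := 2 * i + 2)
    (by simp only [rowKind]; rw [if_neg (by omega), if_neg (by omega)])
    (fun s c m hs => ((demA_row α s _ c m hs).2 (by omega)).le)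
    (fun c S => demA_hinf hα (by omega) (by omega) c S)
  exact hL' (h hL)

end H556R2
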