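import Pool.Agent.H556R2.Rows

/-!
# The parameters of the construction
-/

namespace H556R2

theorem poly_bound (P : Polynomial ℕ) : ∃ C d : ℕ, ∀ k, P.eval k ≤ C * (k + 1) ^ d := by
  induction P using Polynomial.induction_on' with
  | add p q hp hq =>
    obtain ⟨C, d, h⟩ := hp
    obtain ⟨C', d', h'⟩ := hq
    refine ⟨C + C', d + d', fun k => ?_⟩
    rw [Polynomial.eval_add, add_mul]
    have h1 : (k + 1) ^ d ≤ (k + 1) ^ (d + d') := Nat.pow_le_pow_right (by omega) (by omega)
    have h2 : (k + 1) ^ d' ≤ (k + 1) ^ (d + d') := Nat.pow_le_pow_right (by omega) (by omega)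
    exact add_le_add ((h k).trans (Nat.mul_le_mul_left _ h1))
      ((h' k).trans (Nat.mul_le_mul_left _ h2))
  | monomial n a =>
    refine ⟨a, n, fun k => ?_⟩
    rw [Polynomial.eval_monomial]
    exact Nat.mul_le_mul_left _ (Nat.pow_le_pow_left (by omega) _)

theorem exists_big (P : Polynomial ℕ) :
    ∃ n0, ∀ n, n0 ≤ n → ∀ k ≤ n, 4 * (P.eval k) ^ 2 < 2 ^ n := by
  obtain ⟨C, d, h⟩ := poly_bound P
  have h1 := tendsto_pow_const_div_const_pow_of_one_lt (2 * d) (r := (2 : ℝ)) (by norm_num)
  have h2 : ∀ᶠ n : ℕ in Filter.atTop, (n : ℝ) ^ (2 * d) / 2 ^ n < 1 / (8 * (C : ℝ) ^ 2 + 1) :=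
    h1.eventually (gt_mem_nhds (by positivity))
  obtain ⟨N, hN⟩ := Filter.eventually_atTop.1 h2
  refine ⟨N, fun n hn k hk => ?_⟩
  have h3 := hN (n + 1) (by omega)
  have h4 : P.eval k ≤ C * (n + 1) ^ d :=
    (h k).trans (Nat.mul_le_mul_left _ (Nat.pow_le_pow_left (by omega) _))
  have h5 : 4 * (P.eval k) ^ 2 ≤ 4 * (C ^ 2 * (n + 1) ^ (2 * d)) := by
    calc 4 * (P.eval k) ^ 2 ≤ 4 * (C * (n + 1) ^ d) ^ 2 :=
          Nat.mul_le_mul_left _ (Nat.pow_le_pow_left h4 2)
      _ = _ := by rw [mul_pow, ← pow_mul]; ring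
  refine lt_of_le_of_lt h5 ?_
  have h6 : (4 * (C ^ 2 * (n + 1) ^ (2 * d)) : ℝ) < 2 ^ n := by
    rw [div_lt_div_iff₀ (by positivity) (by positivity)] at h3
    push_cast at h3
    rw [pow_succ (2 : ℝ) n] at h3
    have h7 : (0 : ℝ) < ((n : ℝ) + 1) ^ (2 * d) := by positivity
    nlinarith
  exact_mod_cast h6

theorem exists_sel (s Y : ℕ) : ∃ n, Y ≤ n ∧ ∀ c ≤ s, ∀ j ≤ n, 4 * ((PP c).eval j) ^ 2 < 2 ^ n := by
  choose f hf using fun c => exists_big (PP c)
  refine ⟨Y + ∑ c ∈ Finset.range (s + 1), f c, by omega, fun c hc j hj => ?_⟩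
  apply hf c _ _ j hj
  have : f c ≤ ∑ c ∈ Finset.range (s + 1), f c :=
    Finset.single_le_sum (f := f) (fun _ _ => Nat.zero_le _)
      (Finset.mem_range.2 (by omega : c < s + 1))
  omega

/-- The length chosen at stage `s`. -/
noncomputable def nsel (s Y : ℕ) : ℕ := Classical.choose (exists_sel s Y)

theorem nsel_spec (s Y : ℕ) : Y ≤ nsel s Y ∧ ∀ c ≤ s, ∀ j ≤ nsel s Y,
    4 * ((PP c).eval j) ^ 2 < 2 ^ (nsel s Y) := Classical.choose_spec (exists_sel s Y)

/-- The lengths at which the stages start. -/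
noncomputable def Yf : ℕ → ℕ
  | 0 => 0
  | s + 1 => nsel s (Yf s) + s + 10 +
      ∑ c ∈ Finset.range (s + 1), ∑ j ∈ Finset.range (nsel s (Yf s) + 1), (PP c).eval j

/-- The lengths of the blocks. -/
noncomputable def nf (s : ℕ) : ℕ := nsel s (Yf s)

theorem pol_le {s c j : ℕ} (hc : c ≤ s) (hj : j ≤ nf s) : (PP c).eval j ≤ Yf (s + 1) := by
  have h1 : (PP c).eval j ≤ ∑ j ∈ Finset.range (nsel s (Yf s) + 1), (PP c).eval j :=
    Finset.single_le_sum (f := fun j => (PP c).eval j) (fun _ _ => Nat.zero_le _)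
      (Finset.mem_range.2 (by unfold nf at hj; omega))
  have h2 : ∑ j ∈ Finset.range (nsel s (Yf s) + 1), (PP c).eval j ≤
      ∑ c ∈ Finset.range (s + 1), ∑ j ∈ Finset.range (nsel s (Yf s) + 1), (PP c).eval j :=
    Finset.single_le_sum
      (f := fun c => ∑ j ∈ Finset.range (nsel s (Yf s) + 1), (PP c).eval j)
      (fun _ _ => Nat.zero_le _) (Finset.mem_range.2 (by omega : c < s + 1))
  simp only [Yf]
  omega

theorem big_nf {s c : ℕ} (hc : c ≤ s) : ∀ j ≤ nf s, 4 * ((PP c).eval j) ^ 2 < 2 ^ (nf s) :=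
  (nsel_spec s (Yf s)).2 c hc

/-- Which kind of row. -/
def rowKind (a : ℕ) : RowKind := if a = 0 then .np else if a % 2 = 1 then .zpp else .bn

/-- Values in inactive regions. -/
def dfltf (a : ℕ) (c : Bool) (_ : List Bool) : Bool :=
  match rowKind a with
  | .zpp => !c
  | _ => false

/-- Default blocks. -/
def dfltBlk (k : RowKind) : Blk :=
  match k with
  | .zpp => fun z => decide (z.head? = some false)
  | _ => fun _ => false

open Classical in
/-- The diagonalization rule. -/
noncomputable def Δf (a c n : ℕ) (g : List Bool → Blk → Bool) : Blk :=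
  if h : ∃ B : Blk, Typed (rowKind a) n (cnt (fun y => B (true :: y)) n)
      (cnt (fun y => B (false :: y)) n) ∧
      Mis (rowKind a) c n (fun u => g u B) (cnt (fun y => B (true :: y)) n) then
    Classical.choose h
  else dfltBlk (rowKind a)

theorem typed_dflt (k : RowKind) (n : ℕ) : Typed k n (cnt (fun y => dfltBlk k (true :: y)) n)
    (cnt (fun y => dfltBlk k (false :: y)) n) := by
  cases k with
  | np => trivial
  | zpp =>
    right
    refine ⟨?_, ?_⟩
    · have : cnt (fun y => dfltBlk .zpp (false :: y)) n = 2 ^ n := by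
        simp [dfltBlk, cnt_true]
      rw [this]
      have : 0 < 2 ^ n := by positivity
      omega
    · simp [dfltBlk, cnt_false]
  | bn =>
    right
    have : cnt (fun y => dfltBlk .bn (true :: y)) n = 0 := by
      simp [dfltBlk, cnt_false]
    rw [this]
    simp

theorem typed_Δf (a c n : ℕ) (g : List Bool → Blk → Bool) :
    Typed (rowKind a) n (cnt (fun y => Δf a c n g (true :: y)) n)
      (cnt (fun y => Δf a c n g (false :: y)) n) := by
  classical
  unfold Δf
  split_ifs with h
  · exact (Classical.choose_spec h).1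
  · exact typed_dflt _ _

theorem mis_Δf {a c n : ℕ} {g : List Bool → Blk → Bool}
    (hg : ∀ v : List Bool, Cert (g v) v.length)
    (hbig : ∀ j ≤ n, 4 * ((PP c).eval j) ^ 2 < 2 ^ n) :
    Mis (rowKind a) c n (fun u => g u (Δf a c n g))
      (cnt (fun y => Δf a c n g (true :: y)) n) := by
  classical
  have h := exists_good (W := fun B u => g u B) hg (rowKind a) hbig
  have h2 : Δf a c n g = Classical.choose h := by
    unfold Δf
    rw [dif_pos h]
  rw [h2]
  exact (Classical.choose_spec h).2

/-- The concrete parameters. -/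
noncomputable def Cx : Ctx where
  dflt := dfltf
  Δ := Δf
  Y := Yf
  n := nf
  Y0 := rfl
  hYn := fun s => (nsel_spec s (Yf s)).1
  hnY := fun s => by
    simp only [Yf, nf]
    omega

/-- The number of ones of the oracle in a region. -/
def cntO (A : Oracle) (a : ℕ) (b : Bool) (n : ℕ) : ℕ := cnt (fun y => A (reg a b y)) n

theorem mis_congr {k : RowKind} {c n : ℕ} {A A' : Oracle} {p : ℕ}
    (h : ∀ j ≤ n, ∀ v : List Bool, v.length ≤ (PP c).eval j → A v = A' v) :
    Mis k c n A p ↔ Mis k c n A' p := by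
  cases k with
  | np =>
    simp only [Mis]
    rw [verdict_congr]
    intro v hv
    apply h n le_rfl v
    simp only [List.length_replicate, Sem.bd] at hv
    simp only [PP, Polynomial.eval_add]
    omega
  | zpp =>
    simp only [Mis]
    rw [outcome_congr]
    intro v hv
    apply h (n - (adv c).2) (Nat.sub_le _ _) v
    simp only [PP, Polynomial.eval_add]
    omega
  | bn =>
    simp only [Mis, SM.acc]
    rw [accCount_congr]
    intro v hv
    apply h (n - (adv c).2) (Nat.sub_le _ _) v
    simp only [List.length_replicate] at hv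
    simp only [PP, Polynomial.eval_add]
    omega

variable {dem : ℕ → Dem} (hrow : ∀ s a c m, dem s = some (a, c, m) → a ≤ s + 1)
include hrow

theorem cntO_active {s a c m : ℕ} (hd : dem s = some (a, c, m)) (b : Bool) :
    cntO (Cx.O dem) a b (nf s) = cnt (fun y => Cx.blk dem s (b :: y)) (nf s) := by
  apply cnt_congr
  intro y hy
  exact O_reg_active hd (hrow s a c m hd) hy

omit hrow in
theorem cntO_inactive {a n : ℕ} (b : Bool)
    (h : ∀ s, ¬ ((∃ c m, dem s = some (a, c, m)) ∧ n = nf s)) :
    cntO (Cx.O dem) a b n = cnt (dfltf a b) n := by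
  apply cnt_congr
  intro y hy
  apply O_reg_inactive
  intro s hs
  apply h s
  rw [← hy]
  exact hs

/-- At an unbroken stage the adversary errs on the final oracle. -/
theorem mis_O {s a c m : ℕ} (hd : dem s = some (a, c, m)) (hc : Cx.chosen dem s = none)
    (hcs : c ≤ s) : Mis (rowKind a) c (nf s) (Cx.O dem) (cntO (Cx.O dem) a true (nf s)) := by
  rw [cntO_active hrow hd]
  have h1 : Cx.blk dem s = Δf a c (nf s) (Cx.famS dem s) := blk_diag hd hc
  rw [mis_congr (A' := fun u => Cx.famS dem s u (Cx.blk dem s))]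
  · rw [h1]
    exact mis_Δf (fun v => cert_G v) (big_nf hcs)
  · intro j hj v hv
    exact O_stage (C := Cx) (hv.trans (pol_le hcs hj))

/-- If all stages of length `n` in the row are unbroken, the region of length `n` is typed. -/
theorem typed_O {a n : ℕ} (h : ∀ s c m, n = nf s → dem s = some (a, c, m) →
    Cx.chosen dem s = none) :
    Typed (rowKind a) n (cntO (Cx.O dem) a true n) (cntO (Cx.O dem) a false n) := by
  by_cases hex : ∃ s, (∃ c m, dem s = some (a, c, m)) ∧ n = nf s
  · obtain ⟨s, ⟨c, m, hd⟩, rfl⟩ := hex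
    rw [cntO_active hrow hd, cntO_active hrow hd]
    have h1 : Cx.blk dem s = Δf a c (nf s) (Cx.famS dem s) := blk_diag hd (h s c m rfl hd)
    rw [h1]
    exact typed_Δf _ _ _ _
  · have hno : ∀ s, ¬ ((∃ c m, dem s = some (a, c, m)) ∧ n = nf s) := fun s hs => hex ⟨s, hs⟩
    rw [cntO_inactive _ hno, cntO_inactive _ hno]
    have hpos : 0 < 2 ^ n := by positivity
    rcases hk : rowKind a with _ | _ | _
    · trivial
    · right
      have h1 : dfltf a true = fun _ => false := by
        funext y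
        simp [dfltf, hk]
      have h2 : dfltf a false = fun _ => true := by
        funext y
        simp [dfltf, hk]
      rw [h1, h2, cnt_true, cnt_false]
      omega
    · right
      have h1 : dfltf a true = fun _ => false := by
        funext y
        simp [dfltf, hk]
      rw [h1, cnt_false]
      omega

end H556R2
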