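import Mathlib

/-!
# Deterministic multitape oracle Turing machines and relativized classes
-/

namespace H556R2

/-- Head moves. -/
inductive Dir
  | left
  | stay
  | right

/-- A deterministic multitape oracle Turing machine.  It has `k + 3` tapes, infinite to the right
(tape `0`: input, tape `1`: second input, i.e. witness or coin string, tape `2`: oracle tape, the
others: work tapes), `q + 1` states (state `0` is initial) and the `g + 3` tape symbols
`0` (blank), `1` (bit false), `2` (bit true), `3`, ...  In a query state (`isQ`) the machine also
sees the answer of the oracle to the current query string.  A transition either halts with a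
Boolean output or gives the new state and, for every tape, the symbol to write and the head move. -/
structure OTM where
  k : ℕ
  q : ℕ
  g : ℕ
  isQ : Fin (q + 1) → Bool
  δ : Fin (q + 1) → (Fin (k + 3) → Fin (g + 3)) → Bool →
    Bool ⊕ (Fin (q + 1) × (Fin (k + 3) → Fin (g + 3) × Dir))

/-- An oracle: the characteristic function of a set of binary strings. -/
abbrev Oracle := List Bool → Bool

/-- Configurations of a machine. -/
structure Cfg (M : OTM) where
  st : Fin (M.q + 1)
  tape : Fin (M.k + 3) → ℕ → Fin (M.g + 3)
  head : Fin (M.k + 3) → ℕ

/-- The current query string: the cells of the oracle tape to the left of its head. -/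
def Cfg.query {M : OTM} (c : Cfg M) : List Bool :=
  (List.range (c.head 2)).map fun j => decide (c.tape 2 j = 2)

/-- Moving a head on a one-way infinite tape. -/
def moveHead : Dir → ℕ → ℕ
  | .left, n => n - 1
  | .stay, n => n
  | .right, n => n + 1

/-- One step with oracle `A`. -/
def step (A : Oracle) (M : OTM) (c : Cfg M) : Bool ⊕ Cfg M :=
  match M.δ c.st (fun i => c.tape i (c.head i)) (M.isQ c.st && A c.query) with
  | .inl b => .inl b
  | .inr (s, act) => .inr
      { st := s
        tape := fun i => Function.update (c.tape i) (c.head i) (act i).1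
        head := fun i => moveHead (act i).2 (c.head i) }

/-- `run A M n c`: the output of `M` started in configuration `c` if it halts within `n` steps,
and `none` otherwise. -/
def run (A : Oracle) (M : OTM) : ℕ → Cfg M → Option Bool
  | 0, _ => none
  | n + 1, c =>
    match step A M c with
    | .inl b => some b
    | .inr c' => run A M n c'

/-- The content of a tape holding the binary string `l`. -/
def tapeOf {g : ℕ} (l : List Bool) : ℕ → Fin (g + 3) := fun i =>
  match l[i]? with
  | none => 0
  | some b => if b then 2 else 1

/-- The initial configuration on input `x` and second input `w`. -/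
def init (M : OTM) (x w : List Bool) : Cfg M where
  st := 0
  tape := fun i => if i = 0 then tapeOf x else if i = 1 then tapeOf w else fun _ => 0
  head := fun _ => 0

/-- The output of `M` with oracle `A` on input `x` and second input `w` if it halts within `t`
steps, and `none` otherwise. -/
def outcome (A : Oracle) (M : OTM) (x w : List Bool) (t : ℕ) : Option Bool :=
  run A M t (init M x w)

/-- Languages. -/
abbrev Lang := Set (List Bool)

/-- `P` relative to the oracle `A`. -/
def ClassP (A : Oracle) : Set Lang :=
  {L | ∃ (M : OTM) (p : Polynomial ℕ), ∀ x : List Bool,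
    (x ∈ L → outcome A M x [] (p.eval x.length) = some true) ∧
    (x ∉ L → outcome A M x [] (p.eval x.length) = some false)}

/-- The number of second inputs of length `m` on which `M` accepts `x` within `t` steps. -/
def accCount (A : Oracle) (M : OTM) (x : List Bool) (m t : ℕ) : ℕ :=
  (Finset.univ.filter fun w : Fin m → Bool => outcome A M x (List.ofFn w) t = some true).card

/-- `M` halts on `x` within `t` steps for all second inputs of length `m`. -/
def HaltsAll (A : Oracle) (M : OTM) (x : List Bool) (m t : ℕ) : Prop :=
  ∀ w : Fin m → Bool, (outcome A M x (List.ofFn w) t).isSome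

/-- `NP` relative to the oracle `A`. -/
def ClassNP (A : Oracle) : Set Lang :=
  {L | ∃ (M : OTM) (m p : Polynomial ℕ), ∀ x : List Bool,
    HaltsAll A M x (m.eval x.length) (p.eval x.length) ∧
    (x ∈ L ↔ 0 < accCount A M x (m.eval x.length) (p.eval x.length))}

/-- `RP` relative to the oracle `A`: on `x ∈ L` at least half of the coin strings lead to
acceptance, on `x ∉ L` none does. -/
def ClassRP (A : Oracle) : Set Lang :=
  {L | ∃ (M : OTM) (m p : Polynomial ℕ), ∀ x : List Bool,
    HaltsAll A M x (m.eval x.length) (p.eval x.length) ∧
    (x ∈ L → 2 ^ (m.eval x.length) ≤ 2 * accCount A M x (m.eval x.length) (p.eval x.length)) ∧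
    (x ∉ L → accCount A M x (m.eval x.length) (p.eval x.length) = 0)}

/-- `BPP` relative to the oracle `A`: on `x ∈ L` at least two thirds of the coin strings lead to
acceptance, on `x ∉ L` at most one third do. -/
def ClassBPP (A : Oracle) : Set Lang :=
  {L | ∃ (M : OTM) (m p : Polynomial ℕ), ∀ x : List Bool,
    HaltsAll A M x (m.eval x.length) (p.eval x.length) ∧
    (x ∈ L → 2 * 2 ^ (m.eval x.length) ≤
      3 * accCount A M x (m.eval x.length) (p.eval x.length)) ∧
    (x ∉ L → 3 * accCount A M x (m.eval x.length) (p.eval x.length) ≤ 2 ^ (m.eval x.length))}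

/-- `coNP` relative to `A`: the complements of the languages in `NP`. -/
def ClassCoNP (A : Oracle) : Set Lang := {L | Lᶜ ∈ ClassNP A}

/-- `coRP` relative to `A`: the complements of the languages in `RP`. -/
def ClassCoRP (A : Oracle) : Set Lang := {L | Lᶜ ∈ ClassRP A}

/-- `ZPP` relative to `A`, defined as the intersection of `RP` and `coRP`. -/
def ClassZPP (A : Oracle) : Set Lang := ClassRP A ∩ ClassCoRP A

/-! ### Countability -/

instance : Finite Dir := by
  refine Finite.of_injective (β := Fin 3)
    (fun d => match d with | .left => 0 | .stay => 1 | .right => 2) ?_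
  rintro (_ | _ | _) (_ | _ | _) h <;> first | rfl | (exfalso; revert h; decide)

/-- Auxiliary type for counting machines. -/
abbrev TrData (k q g : ℕ) : Type := Fin (q + 1) → (Fin (k + 3) → Fin (g + 3)) → Bool →
  Bool ⊕ (Fin (q + 1) × (Fin (k + 3) → Fin (g + 3) × Dir))

theorem countable_trData (k q g : ℕ) : Countable (TrData k q g) := by
  have h1 : Countable ((Fin (k + 3) → Fin (g + 3)) → Bool →
      Bool ⊕ (Fin (q + 1) × (Fin (k + 3) → Fin (g + 3) × Dir))) := inferInstance
  infer_instance

instance : Countable OTM := by
  have h0 := countable_trData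
  have h1 : ∀ k q g : ℕ, Countable ((Fin (q + 1) → Bool) × TrData k q g) :=
    fun k q g => inferInstance
  have h2 : ∀ k q : ℕ, Countable (Σ g : ℕ, (Fin (q + 1) → Bool) × TrData k q g) :=
    fun k q => inferInstance
  have h3 : ∀ k : ℕ, Countable (Σ q g : ℕ, (Fin (q + 1) → Bool) × TrData k q g) :=
    fun k => inferInstance
  have h4 : Countable (Σ k q g : ℕ, (Fin (q + 1) → Bool) × TrData k q g) := inferInstance
  let f : OTM → Σ k q g : ℕ, (Fin (q + 1) → Bool) × TrData k q g :=
    fun M => ⟨M.k, M.q, M.g, M.isQ, M.δ⟩
  have hf : Function.Injective f := by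
    rintro ⟨k, q, g, i, d⟩ ⟨k', q', g', i', d'⟩ h
    simp only [f] at h
    cases h
    rfl
  exact hf.countable

instance : Nonempty OTM := ⟨⟨0, 0, 0, fun _ => false, fun _ _ _ => .inl false⟩⟩

instance : Countable (Polynomial ℕ) := by
  have : Cardinal.mk (Polynomial ℕ) ≤ Cardinal.aleph0 := by
    refine le_trans (Polynomial.cardinalMk_le_max) ?_
    simp
  exact Cardinal.mk_le_aleph0_iff.1 this

/-! ### Basic lemmas on runs -/

theorem length_query {M : OTM} (c : Cfg M) : c.query.length = c.head 2 := by
  simp [Cfg.query]

theorem moveHead_le (d : Dir) (n : ℕ) : moveHead d n ≤ n + 1 := by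
  cases d <;> simp [moveHead]
  omega

theorem run_congr {A A' : Oracle} {M : OTM} (n : ℕ) :
    ∀ c : Cfg M, (∀ v : List Bool, v.length ≤ c.head 2 + n → A v = A' v) →
      run A M n c = run A' M n c := by
  induction n with
  | zero => intro c _; rfl
  | succ n ih =>
    intro c h
    have hq : A c.query = A' c.query := h _ (by rw [length_query]; omega)
    simp only [run, step, hq]
    rcases M.δ c.st (fun i => c.tape i (c.head i)) (M.isQ c.st && A' c.query) with b | ⟨s, act⟩
    · rfl
    · simp only
      apply ih
      intro v hv
      apply h
      have := moveHead_le (act 2).2 (c.head 2)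
      simp only at hv
      omega

theorem outcome_congr {A A' : Oracle} {M : OTM} {x w : List Bool} {t : ℕ}
    (h : ∀ v : List Bool, v.length ≤ t → A v = A' v) :
    outcome A M x w t = outcome A' M x w t := by
  apply run_congr
  intro v hv
  apply h
  simpa [init] using hv

theorem run_mono {A : Oracle} {M : OTM} {b : Bool} (n : ℕ) :
    ∀ (c : Cfg M) (m : ℕ), n ≤ m → run A M n c = some b → run A M m c = some b := by
  induction n with
  | zero => intro c m _ h; simp [run] at h
  | succ n ih =>
    intro c m hm h
    obtain ⟨m, rfl⟩ : ∃ m', m = m' + 1 := ⟨m - 1, by omega⟩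
    simp only [run] at h ⊢
    rcases hs : step A M c with b' | c'
    · simpa [hs] using h
    · simp only [hs] at h ⊢
      exact ih c' m (by omega) h

theorem run_step {A : Oracle} {M : OTM} {n : ℕ} {c c' : Cfg M} {b : Bool}
    (hs : step A M c = .inr c') (h : run A M n c' = some b) : run A M (n + 1) c = some b := by
  simp only [run, hs, h]

theorem accCount_congr {A A' : Oracle} {M : OTM} {x : List Bool} {m t : ℕ}
    (h : ∀ v : List Bool, v.length ≤ t → A v = A' v) :
    accCount A M x m t = accCount A' M x m t := by
  unfold accCount
  congr 1
  ext w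
  simp only [Finset.mem_filter, Finset.mem_univ, true_and]
  rw [outcome_congr h]

theorem haltsAll_congr {A A' : Oracle} {M : OTM} {x : List Bool} {m t : ℕ}
    (h : ∀ v : List Bool, v.length ≤ t → A v = A' v) :
    HaltsAll A M x m t ↔ HaltsAll A' M x m t := by
  unfold HaltsAll
  apply forall_congr'
  intro w
  rw [outcome_congr h]

end H556R2
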