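import Pool.Agent.H556R2.Construct

/-!
# Diagonalization blocks
-/

namespace H556R2

/-- Enumeration of machines together with a shift. -/
noncomputable def adv : ℕ → SM × ℕ := Classical.choose (exists_surjective_nat (SM × ℕ))

theorem adv_surj : Function.Surjective adv := Classical.choose_spec (exists_surjective_nat _)

/-- The kinds of rows. -/
inductive RowKind
  | np
  | zpp
  | bn

/-- The number of strings of length `n` at which `f` is true. -/
def cnt (f : List Bool → Bool) (n : ℕ) : ℕ :=
  (Finset.univ.filter fun w : Fin n → Bool => f (List.ofFn w) = true).card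

/-- Allowed blocks: `p` and `q` are the numbers of ones in the two parts. -/
def Typed (k : RowKind) (n p q : ℕ) : Prop :=
  match k with
  | .np => True
  | .zpp => (3 * 2 ^ n ≤ 4 * p ∧ q = 0) ∨ (3 * 2 ^ n ≤ 4 * q ∧ p = 0)
  | .bn => 3 * 2 ^ n ≤ 4 * p ∨ 4 * p ≤ 2 ^ n

/-- The adversary `c` errs. -/
def Mis (k : RowKind) (c n : ℕ) (A : Oracle) (p : ℕ) : Prop :=
  match k with
  | .np => verdict (semOf c) A (List.replicate n false) ≠ some (decide (p ≠ 0))
  | .zpp => outcome A (adv c).1.M (List.replicate (n - (adv c).2) false) []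
      ((adv c).1.p.eval (n - (adv c).2)) ≠ some (decide (p ≠ 0))
  | .bn => ¬ ((adv c).1.acc A (List.replicate (n - (adv c).2) false) ≠ 0 ↔ 3 * 2 ^ n ≤ 4 * p)

/-- The time bound of the adversaries. -/
noncomputable def PP (c : ℕ) : Polynomial ℕ :=
  (semOf c).2.1.p + (semOf c).2.2.p + (adv c).1.p

theorem card_preimage_le (b : Bool) (n : ℕ) (S : Finset (List Bool)) :
    (Finset.univ.filter fun w : Fin n → Bool => b :: List.ofFn w ∈ S).card ≤ S.card := by
  apply Finset.card_le_card_of_injOn fun w => b :: List.ofFn w
  · intro w hw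
    simpa using hw
  · intro w _ w' _ h
    simp only [List.cons.injEq, true_and] at h
    exact List.ofFn_injective h

theorem cnt_compl (f : List Bool → Bool) (n : ℕ) :
    cnt f n + (Finset.univ.filter fun w : Fin n → Bool => ¬ f (List.ofFn w) = true).card =
      2 ^ n := by
  unfold cnt
  rw [Finset.card_filter_add_card_filter_not]
  simp

theorem cnt_true (n : ℕ) : cnt (fun _ => true) n = 2 ^ n := by
  simp [cnt]

theorem cnt_false (n : ℕ) : cnt (fun _ => false) n = 0 := by
  simp [cnt]

theorem cnt_congr {f g : List Bool → Bool} {n : ℕ} (h : ∀ y : List Bool, y.length = n →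
    f y = g y) : cnt f n = cnt g n := by
  unfold cnt
  congr 1
  ext w
  simp only [Finset.mem_filter, Finset.mem_univ, true_and]
  rw [h _ (List.length_ofFn)]

theorem cnt_eq_zero {f : List Bool → Bool} {n : ℕ} (h : ∀ y : List Bool, f y = false) :
    cnt f n = 0 := by
  simp [cnt, h]

/-- A block which is full outside of a small set. -/
theorem cnt_large {b : Bool} {n : ℕ} {S : Finset (List Bool)} {f : List Bool → Bool}
    (hf : ∀ y : List Bool, b :: y ∉ S → f y = true) (hS : 4 * S.card ≤ 2 ^ n) :
    3 * 2 ^ n ≤ 4 * cnt f n := by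
  have h1 := cnt_compl f n
  have h2 : (Finset.univ.filter fun w : Fin n → Bool => ¬ f (List.ofFn w) = true).card ≤
      S.card := by
    refine le_trans (Finset.card_le_card ?_) (card_preimage_le b n S)
    intro w hw
    simp only [Finset.mem_filter, Finset.mem_univ, true_and] at hw ⊢
    by_contra hc
    exact hw (hf _ hc)
  omega

/-- Pigeonhole: some position is used by few members of a family. -/
theorem exists_light {Ω : Type} [Fintype Ω] (hΩ : 0 < Fintype.card Ω) {n q : ℕ}
    (Cw : Ω → Finset (List Bool)) (hC : ∀ w, (Cw w).card ≤ q) (hq : 4 * q < 2 ^ n) :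
    ∃ y : Fin n → Bool,
      4 * (Finset.univ.filter fun w => true :: List.ofFn y ∈ Cw w).card < Fintype.card Ω := by
  classical
  by_contra hcon
  push Not at hcon
  have h1 : 2 ^ n * Fintype.card Ω ≤
      ∑ y : Fin n → Bool, 4 * (Finset.univ.filter fun w => true :: List.ofFn y ∈ Cw w).card := by
    calc 2 ^ n * Fintype.card Ω = ∑ y : Fin n → Bool, Fintype.card Ω := by simp
      _ ≤ _ := Finset.sum_le_sum fun y _ => hcon y
  have h2 : ∑ y : Fin n → Bool, (Finset.univ.filter fun w => true :: List.ofFn y ∈ Cw w).card =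
      ∑ w : Ω, (Finset.univ.filter fun y : Fin n → Bool => true :: List.ofFn y ∈ Cw w).card :=
    (Finset.sum_card_bipartiteAbove_eq_sum_card_bipartiteBelow
      (s := (Finset.univ : Finset Ω)) (t := (Finset.univ : Finset (Fin n → Bool)))
      (fun w y => true :: List.ofFn y ∈ Cw w)).symm
  have h3 : ∑ w : Ω, (Finset.univ.filter fun y : Fin n → Bool =>
      true :: List.ofFn y ∈ Cw w).card ≤ Fintype.card Ω * q := by
    calc _ ≤ ∑ w : Ω, q := Finset.sum_le_sum fun w _ =>
          (card_preimage_le true n (Cw w)).trans (hC w)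
      _ = _ := by simp
  rw [← Finset.mul_sum, h2] at h1
  have h4 : 2 ^ n * Fintype.card Ω ≤ (4 * q) * Fintype.card Ω := by
    calc _ ≤ 4 * (Fintype.card Ω * q) := h1.trans (Nat.mul_le_mul_left _ h3)
      _ = _ := by ring
  have := Nat.le_of_mul_le_mul_right h4 hΩ
  omega

section
variable {W : Blk → Oracle} (hW : ∀ v : List Bool, Cert (fun B => W B v) v.length)
include hW

theorem hW_le {T : ℕ} : ∀ v : List Bool, v.length ≤ T → Cert (fun B => W B v) T :=
  fun v hv => (hW v).mono hv

theorem good_zpp {c n : ℕ} (hbig : ∀ j ≤ n, 4 * ((PP c).eval j) ^ 2 < 2 ^ n) :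
    ∃ B : Blk, Typed .zpp n (cnt (fun y => B (true :: y)) n) (cnt (fun y => B (false :: y)) n) ∧
      Mis .zpp c n (W B) (cnt (fun y => B (true :: y)) n) := by
  classical
  set E := (adv c).1 with hE
  set x : List Bool := List.replicate (n - (adv c).2) false with hx
  set T := E.p.eval (n - (adv c).2) with hT
  have hTT : 4 * (T * T) < 2 ^ n := by
    have h1 := hbig (n - (adv c).2) (Nat.sub_le _ _)
    have h2 : T ≤ (PP c).eval (n - (adv c).2) := by
      simp only [PP, Polynomial.eval_add, hT, hE]
      omega
    have h3 : T * T ≤ ((PP c).eval (n - (adv c).2)) ^ 2 := by nlinarith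
    omega
  have hpos : 0 < 2 ^ n := by positivity
  obtain ⟨S, hS, hSf⟩ : CertAt (fun B => outcome (W B) E.M x [] T) (fun _ => false) (T * T) :=
    certAt_outcome fun v hv => (hW_le hW v hv) _
  beta_reduce at hSf
  by_cases hacc : outcome (W fun _ => false) E.M x [] T = some true
  · let B : Blk := fun z => decide (z.head? = some false ∧ z ∉ S)
    have h0 : cnt (fun y => B (true :: y)) n = 0 := cnt_eq_zero (by simp [B])
    refine ⟨B, Or.inr ⟨?_, h0⟩, ?_⟩
    · exact cnt_large (b := false) (S := S) (by simp [B]) (by omega)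
    · simp only [Mis, ← hE, ← hx, ← hT, h0]
      rw [hSf B (by intro i hi; simp [B, hi]), hacc]
      simp
  · let B : Blk := fun z => decide (z.head? = some true ∧ z ∉ S)
    have h0 : cnt (fun y => B (false :: y)) n = 0 := cnt_eq_zero (by simp [B])
    have h1 : 3 * 2 ^ n ≤ 4 * cnt (fun y => B (true :: y)) n :=
      cnt_large (b := true) (S := S) (by simp [B]) (by omega)
    refine ⟨B, Or.inl ⟨h1, h0⟩, ?_⟩
    simp only [Mis, ← hE, ← hx, ← hT]
    rw [hSf B (by intro i hi; simp [B, hi])]
    have h2 : cnt (fun y => B (true :: y)) n ≠ 0 := by omega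
    simp only [h2, ne_eq, not_false_eq_true, decide_true]
    exact hacc

theorem good_bn {c n : ℕ} (hbig : ∀ j ≤ n, 4 * ((PP c).eval j) ^ 2 < 2 ^ n) :
    ∃ B : Blk, Typed .bn n (cnt (fun y => B (true :: y)) n) (cnt (fun y => B (false :: y)) n) ∧
      Mis .bn c n (W B) (cnt (fun y => B (true :: y)) n) := by
  classical
  set E := (adv c).1 with hE
  set x : List Bool := List.replicate (n - (adv c).2) false with hx
  have hxl : x.length = n - (adv c).2 := by simp [hx]
  set T := E.p.eval x.length with hT
  have hTT : 4 * (T * T) < 2 ^ n := by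
    have h1 := hbig (n - (adv c).2) (Nat.sub_le _ _)
    have h2 : T ≤ (PP c).eval (n - (adv c).2) := by
      simp only [PP, Polynomial.eval_add, hT, hE, hxl]
      omega
    have h3 : T * T ≤ ((PP c).eval (n - (adv c).2)) ^ 2 := by nlinarith
    omega
  have hpos : 0 < 2 ^ n := by positivity
  by_cases hacc : E.acc (W fun _ => true) x = 0
  · refine ⟨fun _ => true, ?_, ?_⟩
    · left
      rw [cnt_true]
      omega
    · simp only [Mis, ← hE, ← hx, hacc, cnt_true]
      intro h
      exact absurd rfl (h.2 (by omega))
  · rw [← acN_fam E W x] at hacc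
    obtain ⟨w, hw⟩ := acN_pos.1 hacc
    obtain ⟨S, hS, hSf⟩ : CertAt (E.fam W x w) (fun _ => true) (T * T) :=
      cert_fam le_rfl (hW_le hW) w _
    let B : Blk := fun z => decide (z ∈ S)
    have h1 : cnt (fun y => B (true :: y)) n ≤ S.card := by
      refine le_trans (le_of_eq ?_) (card_preimage_le true n S)
      simp [cnt, B]
    refine ⟨B, Or.inr (by omega), ?_⟩
    simp only [Mis, ← hE, ← hx]
    intro h
    have h2 : E.acc (W B) x ≠ 0 := by
      rw [← acN_fam E W x]
      refine acN_pos.2 ⟨w, ?_⟩
      rw [hSf B (by intro i hi; simp [B, hi])]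
      exact hw
    have h3 := h.1 h2
    omega

theorem good_np {c n : ℕ} (hbig : ∀ j ≤ n, 4 * ((PP c).eval j) ^ 2 < 2 ^ n) :
    ∃ B : Blk, Mis .np c n (W B) (cnt (fun y => B (true :: y)) n) := by
  classical
  set x : List Bool := List.replicate n false with hx
  have hxl : x.length = n := by simp [hx]
  simp only [Mis, ← hx]
  by_cases hv0 : verdict (semOf c) (W fun _ => false) x = some false
  swap
  · refine ⟨fun _ => false, ?_⟩
    rw [cnt_false]
    simpa using hv0
  obtain ⟨k, E, E', hsem⟩ : ∃ k E E', semOf c = (k, E, E') := ⟨_, _, _, rfl⟩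
  rw [hsem] at hv0 ⊢
  have h1 := hbig n le_rfl
  have hPP : E.p.eval x.length + E'.p.eval x.length ≤ (PP c).eval n := by
    simp only [PP, Polynomial.eval_add, hsem, hxl]
    omega
  have hTT : 4 * (E.p.eval x.length * E.p.eval x.length) < 2 ^ n := by
    have h3 : E.p.eval x.length * E.p.eval x.length ≤ ((PP c).eval n) ^ 2 := by nlinarith
    omega
  have hTT' : 4 * (E'.p.eval x.length * E'.p.eval x.length) < 2 ^ n := by
    have h3 : E'.p.eval x.length * E'.p.eval x.length ≤ ((PP c).eval n) ^ 2 := by nlinarith
    omega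
  have hΩ : 0 < Fintype.card (Fin (E.m.eval x.length) → Bool) := by
    rw [card_fam]; exact E.tot_pos x
  -- a light position
  have hlight : ∃ y : Fin n → Bool, 4 * E.acc (W fun z => decide (z = true :: List.ofFn y)) x <
      4 * E.acc (W fun _ => false) x + E.tot x := by
    have hcert : ∀ w, CertAt (E.fam W x w) (fun _ => false)
        (E.p.eval x.length * E.p.eval x.length) := fun w => cert_fam le_rfl (hW_le hW) w _
    choose Cw hC hCf using hcert
    obtain ⟨y, hy⟩ := exists_light hΩ Cw hC hTT
    refine ⟨y, ?_⟩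
    rw [card_fam] at hy
    have h5 : E.acc (W fun z => decide (z = true :: List.ofFn y)) x ≤
        E.acc (W fun _ => false) x +
          (Finset.univ.filter fun w => true :: List.ofFn y ∈ Cw w).card := by
      rw [← acN_fam E W x, ← acN_fam E W x]
      unfold acN
      refine (Finset.card_le_card ?_).trans (Finset.card_union_le _ _)
      intro w hw
      simp only [Finset.mem_filter, Finset.mem_univ, true_and, Finset.mem_union] at hw ⊢
      by_cases hc : true :: List.ofFn y ∈ Cw w
      · right; exact hc
      · left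
        rw [← hw]
        apply (hCf w _ _).symm
        intro i hi
        have : i ≠ true :: List.ofFn y := by
          rintro rfl
          exact hc hi
        simp [this]
    omega
  have hcnt : ∀ y : Fin n → Bool,
      cnt (fun y' => (fun z => decide (z = true :: List.ofFn y)) (true :: y')) n ≠ 0 := by
    intro y
    unfold cnt
    rw [← Nat.pos_iff_ne_zero, Finset.card_pos]
    exact ⟨y, by simp⟩
  cases k with
  | rp =>
    obtain ⟨y, hy⟩ := hlight
    refine ⟨fun z => decide (z = true :: List.ofFn y), ?_⟩
    rw [decide_eq_true (hcnt y)]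
    simp only [verdict] at hv0 ⊢
    split_ifs at hv0 with h2 h3 h4
    · rw [h3] at hy
      split_ifs with h5 h6 h7
      · simp
      · omega
      · simp
      · simp
    · simp at hv0
  | bpp =>
    obtain ⟨y, hy⟩ := hlight
    refine ⟨fun z => decide (z = true :: List.ofFn y), ?_⟩
    rw [decide_eq_true (hcnt y)]
    have := E.tot_pos x
    simp only [verdict] at hv0 ⊢
    split_ifs at hv0 with h2 h3 h4
    · split_ifs with h5 h6 h7
      · simp
      · omega
      · simp
      · simp
    · simp at hv0
  | npc =>
    simp only [verdict] at hv0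
    split_ifs at hv0 with h2 h3 h4
    · simp at hv0
    · obtain ⟨-, h4'⟩ := h4
      rw [← acN_fam E' W x] at h4'
      obtain ⟨w, hw⟩ := acN_pos.1 h4'
      obtain ⟨S, hS, hSf⟩ : CertAt (E'.fam W x w) (fun _ => false)
          (E'.p.eval x.length * E'.p.eval x.length) := cert_fam le_rfl (hW_le hW) w _
      obtain ⟨y, hy⟩ : ∃ y : Fin n → Bool, true :: List.ofFn y ∉ S := by
        by_contra hcon
        push Not at hcon
        have h5 := card_preimage_le true n S
        rw [Finset.filter_true_of_mem (fun y _ => hcon y)] at h5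
        simp at h5
        omega
      refine ⟨fun z => decide (z = true :: List.ofFn y), ?_⟩
      rw [decide_eq_true (hcnt y)]
      have h6 : E'.acc (W fun z => decide (z = true :: List.ofFn y)) x ≠ 0 := by
        rw [← acN_fam E' W x]
        refine acN_pos.2 ⟨w, ?_⟩
        rw [hSf _ _]
        · exact hw
        · intro i hi
          have : i ≠ true :: List.ofFn y := by
            rintro rfl
            exact hy hi
          simp [this]
      simp only [verdict]
      split_ifs with h7 h8 h9
      · exact absurd h8.2 h6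
      · simp
      · simp
      · simp

theorem exists_good (k : RowKind) {c n : ℕ} (hbig : ∀ j ≤ n, 4 * ((PP c).eval j) ^ 2 < 2 ^ n) :
    ∃ B : Blk, Typed k n (cnt (fun y => B (true :: y)) n) (cnt (fun y => B (false :: y)) n) ∧
      Mis k c n (W B) (cnt (fun y => B (true :: y)) n) := by
  cases k with
  | np =>
    obtain ⟨B, hB⟩ := good_np hW hbig
    exact ⟨B, trivial, hB⟩
  | zpp => exact good_zpp hW hbig
  | bn => exact good_bn hW hbig

end

end H556R2
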