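import Pool.Agent.H556R2.Block

/-!
# One stage with a block of controlled size
-/

namespace H556R2

/-- Enumeration of semantic machines with an exponent and a finite exception table. -/
noncomputable def kapS : ℕ → Sem × ℕ × ℕ × Finset (List Bool) :=
  Classical.choose (exists_surjective_nat (Sem × ℕ × ℕ × Finset (List Bool)))

theorem kapS_surj : Function.Surjective kapS :=
  Classical.choose_spec (exists_surjective_nat (Sem × ℕ × ℕ × Finset (List Bool)))

/-- The threshold with an additional term of exponent `2 r + 4`. -/
def thrS (e : Sem) (r n : ℕ) : ℕ :=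
  9 * (e.bd n * e.bd n) ^ 2 + 2 * (e.bd n) ^ (2 * r + 4) + e.bd n + 1

/-- The data of one stage: `l` is the number of relevant bits of the positions. -/
structure StgS where
  past : Oracle
  Y : ℕ
  n : ℕ
  l : ℕ
  row : Option ℕ

open Classical in
/-- The value of the oracle family at `u`, given the values at shorter strings. -/
noncomputable def stepS (dflt : ℕ → Bool → List Bool → Bool) (s : StgS) (u : List Bool)
    (rec : List Bool → Blk → Bool) : Blk → Bool :=
  if u.length ≤ s.Y then fun _ => s.past u
  else match parse u with
    | none => fun _ => false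
    | some (.inl (a, c, y)) =>
      if s.row = some a ∧ y.length = s.n then fun B => B (c :: y.take s.l)
      else fun _ => dflt a c y
    | some (.inr (k, x, t, f)) =>
      if t < thrS (kapS k).1 (kapS k).2.1 x.length then fun _ => false
      else if f = false then fun _ => true
      else if x.length < (kapS k).2.2.1 then fun _ => decide (x ∈ (kapS k).2.2.2)
      else if Cert (fun B => vd (kapS k).1 (fun v => rec v B) x) u.length then
        fun B => vd (kapS k).1 (fun v => rec v B) x
      else fun _ => false

/-- The family of oracles of a stage. -/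
noncomputable def GS (dflt : ℕ → Bool → List Bool → Bool) (s : StgS) :
    List Bool → Blk → Bool :=
  (measure (List.length : List Bool → ℕ)).wf.fix fun u F =>
    stepS dflt s u fun v => if h : v.length < u.length then F v h else fun _ => false

theorem GS_eq (dflt : ℕ → Bool → List Bool → Bool) (s : StgS) (u : List Bool) :
    GS dflt s u = stepS dflt s u (cut u (GS dflt s)) := by
  unfold GS
  rw [WellFounded.fix_eq]
  congr 1

variable {dflt : ℕ → Bool → List Bool → Bool} {s : StgS}

theorem GS_past {u : List Bool} (hu : u.length ≤ s.Y) (B : Blk) :
    GS dflt s u B = s.past u := by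
  rw [GS_eq]
  simp only [stepS, hu, if_true]

theorem GS_reg_active {a : ℕ} {c : Bool} {y : List Bool} (hY : s.Y < (reg a c y).length)
    (hr : s.row = some a) (hn : y.length = s.n) (B : Blk) :
    GS dflt s (reg a c y) B = B (c :: y.take s.l) := by
  rw [GS_eq]
  simp only [stepS, not_le.2 hY, if_false, parse_reg, hr, hn, and_self, if_true]

theorem GS_reg_inactive {a : ℕ} {c : Bool} {y : List Bool} (hY : s.Y < (reg a c y).length)
    (hr : ¬ (s.row = some a ∧ y.length = s.n)) (B : Blk) :
    GS dflt s (reg a c y) B = dflt a c y := by
  rw [GS_eq]
  simp only [stepS, not_le.2 hY, if_false, parse_reg, if_neg hr]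

theorem GS_cod_small {k : ℕ} {x : List Bool} {t : ℕ} {f : Bool}
    (hY : s.Y < (cod k x t f).length)
    (ht : t < thrS (kapS k).1 (kapS k).2.1 x.length) (B : Blk) :
    GS dflt s (cod k x t f) B = false := by
  rw [GS_eq]
  simp only [stepS, not_le.2 hY, if_false, parse_cod, ht, if_true]

theorem GS_cod_stop {k : ℕ} {x : List Bool} {t : ℕ} (hY : s.Y < (cod k x t false).length)
    (ht : thrS (kapS k).1 (kapS k).2.1 x.length ≤ t) (B : Blk) :
    GS dflt s (cod k x t false) B = true := by
  rw [GS_eq]
  simp only [stepS, not_le.2 hY, if_false, parse_cod, not_lt.2 ht, if_true]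

theorem GS_cod_table {k : ℕ} {x : List Bool} {t : ℕ} (hY : s.Y < (cod k x t true).length)
    (ht : thrS (kapS k).1 (kapS k).2.1 x.length ≤ t) (hx : x.length < (kapS k).2.2.1)
    (B : Blk) : GS dflt s (cod k x t true) B = decide (x ∈ (kapS k).2.2.2) := by
  rw [GS_eq]
  simp only [stepS, not_le.2 hY, if_false, parse_cod, not_lt.2 ht, hx, if_true,
    Bool.true_eq_false]

theorem bd_lt_thrS (e : Sem) (r n : ℕ) : e.bd n < thrS e r n := by
  unfold thrS
  omega

/-- All values have small certificates. -/
theorem cert_GS (u : List Bool) : Cert (GS dflt s u) u.length := by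
  classical
  rw [GS_eq]
  unfold stepS
  split_ifs with h1
  · exact cert_const (fun _ _ => rfl) _
  · rcases hp : parse u with _ | (⟨a, c, y⟩ | ⟨k, x, t, f⟩)
    · exact cert_const (fun _ _ => rfl) _
    · simp only
      split_ifs with h2
      · intro B
        refine ⟨{c :: y.take s.l}, ?_, ?_⟩
        · simp only [Finset.card_singleton]
          have := parse_eq_some hp
          rw [← this]
          simp only [encode, length_reg]
          omega
        · intro B' hB'
          exact hB' _ (Finset.mem_singleton_self _)
      · exact cert_const (fun _ _ => rfl) _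
    · simp only
      split_ifs with h2 h3 h4 h5
      · exact cert_const (fun _ _ => rfl) _
      · exact cert_const (fun _ _ => rfl) _
      · exact cert_const (fun _ _ => rfl) _
      · exact h5
      · exact cert_const (fun _ _ => rfl) _

/-- General congruence principle for the family of oracles: if two blocks agree on the
relevant positions of all short region strings, then the oracles agree on short strings. -/
theorem GS_agree {B B' : Blk} {N : ℕ}
    (hB : ∀ (a : ℕ) (c : Bool) (y : List Bool), s.row = some a → y.length = s.n →
      (reg a c y).length ≤ N → B (c :: y.take s.l) = B' (c :: y.take s.l)) :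
    ∀ u : List Bool, u.length ≤ N → GS dflt s u B = GS dflt s u B' := by
  classical
  intro u
  induction h : u.length using Nat.strong_induction_on generalizing u with
  | _ M ih =>
    intro hM
    have hcut : ∀ v : List Bool, cut u (GS dflt s) v B = cut u (GS dflt s) v B' := by
      intro v
      simp only [cut]
      split_ifs with hv
      · exact ih v.length (by omega) v rfl (by omega)
      · rfl
    have hvd : ∀ (e : Sem) (x : List Bool),
        vd e (fun v => cut u (GS dflt s) v B) x = vd e (fun v => cut u (GS dflt s) v B') x := by
      intro e x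
      congr 1
      funext v
      exact hcut v
    rw [GS_eq]
    unfold stepS
    split_ifs with h1
    · rfl
    · rcases hp : parse u with _ | (⟨a, c, y⟩ | ⟨k, x, t, f⟩)
      · rfl
      · simp only
        split_ifs with h2
        · have := parse_eq_some hp
          simp only [encode] at this
          exact hB a c y h2.1 h2.2 (by rw [this]; omega)
        · rfl
      · simp only
        split_ifs with h2 h3 h4 h5
        · rfl
        · rfl
        · rfl
        · exact hvd _ _
        · rfl

/-- Without active row the family is constant. -/
theorem GS_const (hr : s.row = none) (u : List Bool) (B B' : Blk) :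
    GS dflt s u B = GS dflt s u B' :=
  GS_agree (N := u.length) (fun a _ _ h => by rw [hr] at h; simp at h) u le_rfl

/-- The relevant positions of a block. -/
def posSet (l : ℕ) : Finset (List Bool) :=
  (Finset.univ : Finset (Bool × (Fin l → Bool))).image fun p => p.1 :: List.ofFn p.2

theorem card_posSet_le (l : ℕ) : (posSet l).card ≤ 2 * 2 ^ l := by
  refine Finset.card_image_le.trans ?_
  simp

theorem mem_posSet {l : ℕ} (c : Bool) {y : List Bool} (hy : y.length = l) :
    c :: y ∈ posSet l := by
  subst hy
  unfold posSet
  rw [Finset.mem_image]
  refine ⟨(c, y.get), Finset.mem_univ _, ?_⟩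
  simp

/-- A function of the oracles at strings of length at most `T` has certificates of size
`2 * T ^ m` if the block is small. -/
theorem cert_small {V : Type} {T m : ℕ} (φ : Oracle → V)
    (hφ : ∀ A A' : Oracle, (∀ v : List Bool, v.length ≤ T → A v = A' v) → φ A = φ A')
    (hl : s.l ≤ s.n) (hsmall : 2 ^ s.l ≤ s.n ^ m) :
    Cert (fun B => φ fun v => GS dflt s v B) (2 * T ^ m) := by
  by_cases hT : T ≤ s.n
  · apply cert_const
    intro B B'
    apply hφ
    apply GS_agree
    intro a c y _ hy hlen
    rw [length_reg] at hlen
    omega
  · intro B
    refine ⟨posSet s.l, ?_, ?_⟩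
    · refine (card_posSet_le _).trans (Nat.mul_le_mul_left _ (hsmall.trans ?_))
      exact Nat.pow_le_pow_left (by omega) _
    · intro B' hB'
      apply hφ
      apply GS_agree
      intro a c y _ hy _
      apply hB'
      apply mem_posSet
      rw [List.length_take]
      omega

/-- The main property of coded strings. -/
theorem GS_cod_main {k : ℕ} {x : List Bool} {t : ℕ} (hY : s.Y < (cod k x t true).length)
    (ht : thrS (kapS k).1 (kapS k).2.1 x.length ≤ t) (hx : (kapS k).2.2.1 ≤ x.length)
    (hgood : s.row = none ∨ (∀ B, verdict (kapS k).1 (fun v => GS dflt s v B) x ≠ none) ∨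
      (s.l ≤ s.n ∧ 2 ^ s.l ≤ s.n ^ (2 * (kapS k).2.1 + 4))) (B : Blk) :
    GS dflt s (cod k x t true) B = vd (kapS k).1 (fun v => GS dflt s v B) x := by
  classical
  set u := cod k x t true with hu
  have hlen : thrS (kapS k).1 (kapS k).2.1 x.length ≤ u.length := by
    rw [hu, length_cod]
    omega
  have hbd := bd_lt_thrS (kapS k).1 (kapS k).2.1 x.length
  have hfun : (fun B => vd (kapS k).1 (fun v => cut u (GS dflt s) v B) x) =
      fun B => vd (kapS k).1 (fun v => GS dflt s v B) x := by
    funext B
    exact vd_cut (by omega)
  have hcert : Cert (fun B => vd (kapS k).1 (fun v => cut u (GS dflt s) v B) x) u.length := by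
    rw [hfun]
    rcases hgood with hr | hne | ⟨hl, hsm⟩
    · apply cert_const
      intro B B'
      congr 1
      funext v
      exact GS_const hr v B B'
    · have := cert_vd (e := (kapS k).1) (W := fun B v => GS dflt s v B) (x := x)
        (fun v hv => (cert_GS v).mono hv) hne
      refine this.mono ?_
      unfold thrS at hlen
      omega
    · have := cert_small (dflt := dflt) (s := s) (T := (kapS k).1.bd x.length)
        (fun A => vd (kapS k).1 A x) (fun A A' h => vd_congr h) hl hsm
      refine this.mono ?_
      unfold thrS at hlen
      omega
  rw [GS_eq]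
  have hp : parse u = some (.inr (k, x, t, true)) := parse_cod k x t true
  simp only [stepS, not_le.2 hY, if_false, hp, not_lt.2 ht, not_lt.2 hx,
    Bool.true_eq_false]
  rw [if_pos hcert]
  exact congrFun hfun B

end H556R2
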