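import Pool.Agent.H556R2.SBlock
import Pool.Agent.H556R2.Construct

/-!
# The stage construction, with blocks of controlled size
-/

namespace H556R2

/-- The parameters of the construction. -/
structure CtxS where
  l : ℕ → ℕ → ℕ
  dflt : ℕ → Bool → List Bool → Bool
  Δ : ℕ → ℕ → ℕ → (List Bool → Blk → Bool) → Blk
  Y : ℕ → ℕ
  n : ℕ → ℕ
  Y0 : Y 0 = 0
  hYn : ∀ s, Y s ≤ n s
  hnY : ∀ s, n s + s + 10 ≤ Y (s + 1)

/-- The data of a stage. -/
def CtxS.stg (C : CtxS) (past : Oracle) (s : ℕ) (d : Dem) : StgS :=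
  ⟨past, C.Y s, C.n s, (d.map fun t => C.l t.1 (C.n s)).getD 0, d.map fun t => t.1⟩

/-- The family of a stage. -/
noncomputable def CtxS.fam (C : CtxS) (past : Oracle) (s : ℕ) (d : Dem) :
    List Bool → Blk → Bool := GS C.dflt (C.stg past s d)

/-- Machine `e` can be broken at this stage. -/
def CtxS.Brk (C : CtxS) (past : Oracle) (s : ℕ) (d : Dem) (e : ℕ) : Prop :=
  ¬ Viol e past (C.Y s) ∧ ∃ B, Viol e (fun u => C.fam past s d u B) (C.Y (s + 1))

open Classical in
/-- The chosen machine to break, if any, and the chosen block. -/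
noncomputable def CtxS.choice (C : CtxS) (past : Oracle) (s : ℕ) (d : Dem) : Option ℕ × Blk :=
  match d with
  | none => (none, fun _ => false)
  | some (a, c, m) =>
    if h : ∃ e, e < m ∧ C.Brk past s (some (a, c, m)) e then
      (some (Nat.find h), Classical.choose (Nat.find_spec h).2.2)
    else (none, C.Δ a c (C.n s) (C.fam past s (some (a, c, m))))

/-- The oracle after `s` stages. -/
noncomputable def CtxS.A (C : CtxS) (dem : ℕ → Dem) : ℕ → Oracle
  | 0 => fun _ => false
  | s + 1 => fun u => C.fam (C.A dem s) s (dem s) u (C.choice (C.A dem s) s (dem s)).2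

/-- The machine broken at stage `s`. -/
noncomputable def CtxS.chosen (C : CtxS) (dem : ℕ → Dem) (s : ℕ) : Option ℕ :=
  (C.choice (C.A dem s) s (dem s)).1

/-- The block chosen at stage `s`. -/
noncomputable def CtxS.blk (C : CtxS) (dem : ℕ → Dem) (s : ℕ) : Blk :=
  (C.choice (C.A dem s) s (dem s)).2

/-- The family at stage `s`. -/
noncomputable def CtxS.famS (C : CtxS) (dem : ℕ → Dem) (s : ℕ) : List Bool → Blk → Bool :=
  C.fam (C.A dem s) s (dem s)

/-- The final oracle. -/
noncomputable def CtxS.O (C : CtxS) (dem : ℕ → Dem) : Oracle := fun u => C.A dem u.length u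

variable {C : CtxS} {dem : ℕ → Dem}

theorem S_A_succ (s : ℕ) (u : List Bool) :
    C.A dem (s + 1) u = C.famS dem s u (C.blk dem s) := rfl

theorem S_Y_lt (s : ℕ) : C.Y s < C.Y (s + 1) := by
  have h1 := C.hYn s
  have h2 := C.hnY s
  omega

theorem S_Y_strictMono : StrictMono C.Y := strictMono_nat_of_lt_succ S_Y_lt

theorem S_le_Y (s : ℕ) : s ≤ C.Y s := S_Y_strictMono.id_le s

theorem S_n_lt (s : ℕ) : C.n s < C.n (s + 1) := by
  have h1 := C.hYn (s + 1)
  have h2 := C.hnY s
  omega

theorem S_n_strictMono : StrictMono C.n := strictMono_nat_of_lt_succ S_n_lt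

theorem S_A_succ_past {s : ℕ} {u : List Bool} (hu : u.length ≤ C.Y s) :
    C.A dem (s + 1) u = C.A dem s u := by
  rw [S_A_succ]
  unfold CtxS.famS CtxS.fam
  exact GS_past (s := C.stg (C.A dem s) s (dem s)) hu _

theorem S_A_mono {s s' : ℕ} (hs : s ≤ s') {u : List Bool} (hu : u.length ≤ C.Y s) :
    C.A dem s' u = C.A dem s u := by
  induction s', hs using Nat.le_induction with
  | base => rfl
  | succ s' hs ih =>
    rw [S_A_succ_past (hu.trans (S_Y_strictMono.monotone hs)), ih]

theorem S_O_eq {s : ℕ} {u : List Bool} (hu : u.length ≤ C.Y s) : C.O dem u = C.A dem s u := by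
  unfold CtxS.O
  rcases le_total s u.length with h | h
  · exact S_A_mono h hu
  · exact (S_A_mono h (S_le_Y _)).symm

theorem S_O_stage {s : ℕ} {u : List Bool} (hu : u.length ≤ C.Y (s + 1)) :
    C.O dem u = C.famS dem s u (C.blk dem s) := by
  rw [S_O_eq hu, S_A_succ]

theorem S_exists_stage {N : ℕ} (hN : 0 < N) : ∃ s, C.Y s < N ∧ N ≤ C.Y (s + 1) := by
  have hex : ∃ s, N ≤ C.Y s := ⟨N, S_le_Y N⟩
  have h0 : Nat.find hex ≠ 0 := by
    intro h
    have := Nat.find_spec hex
    rw [h, C.Y0] at this
    omega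
  obtain ⟨s, hs⟩ := Nat.exists_eq_succ_of_ne_zero h0
  refine ⟨s, ?_, ?_⟩
  · have := Nat.find_min hex (m := s) (by omega)
    omega
  · have := Nat.find_spec hex
    rwa [hs] at this

theorem S_chosen_spec {s e : ℕ} (h : C.chosen dem s = some e) :
    ∃ a c m, dem s = some (a, c, m) ∧ e < m ∧ C.Brk (C.A dem s) s (dem s) e ∧
      Viol e (C.A dem (s + 1)) (C.Y (s + 1)) := by
  classical
  rcases hd : dem s with _ | ⟨a, c, m⟩
  · simp [CtxS.chosen, CtxS.choice, hd] at h
  · refine ⟨a, c, m, rfl, ?_⟩
    have hA : C.A dem (s + 1) = fun u => C.famS dem s u (C.blk dem s) := rfl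
    rw [hA]
    unfold CtxS.chosen at h
    unfold CtxS.blk CtxS.famS
    rw [hd] at h ⊢
    unfold CtxS.choice at h ⊢
    simp only at h ⊢
    by_cases hex : ∃ e, e < m ∧ C.Brk (C.A dem s) s (some (a, c, m)) e
    · rw [dif_pos hex] at h ⊢
      simp only [Option.some.injEq] at h
      have hs := Nat.find_spec hex
      subst h
      exact ⟨hs.1, hs.2, Classical.choose_spec (Nat.find_spec hex).2.2⟩
    · rw [dif_neg hex] at h
      simp at h

theorem S_chosen_inj_aux {s s' e : ℕ} (hs : s < s') (h : C.chosen dem s = some e)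
    (h' : C.chosen dem s' = some e) : False := by
  obtain ⟨-, -, -, -, -, -, hv⟩ := S_chosen_spec h
  obtain ⟨-, -, -, -, -, ⟨hb, -⟩, -⟩ := S_chosen_spec h'
  apply hb
  have h1 : Viol e (C.A dem s') (C.Y (s + 1)) := by
    rw [viol_congr (A' := C.A dem (s + 1))]
    · exact hv
    · intro v hv'
      exact S_A_mono hs hv'
  exact h1.mono (S_Y_strictMono.monotone hs)

theorem S_chosen_inj {s s' e : ℕ} (h : C.chosen dem s = some e) (h' : C.chosen dem s' = some e) :
    s = s' := by
  rcases lt_trichotomy s s' with hl | hl | hl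
  · exact (S_chosen_inj_aux hl h h').elim
  · exact hl
  · exact (S_chosen_inj_aux hl h' h).elim

theorem S_finite_chosen (m : ℕ) : {s | ∃ e, e < m ∧ C.chosen dem s = some e}.Finite := by
  have h : ∀ s ∈ {s | ∃ e, e < m ∧ C.chosen dem s = some e}, ∃ e, e < m ∧
    C.chosen dem s = some e := fun s hs => hs
  choose! f hf using h
  apply Set.Finite.of_injOn (f := f) (t := Set.Iio m)
  · intro s hs
    exact (hf s hs).1
  · intro s hs s' hs' he
    apply S_chosen_inj (hf s hs).2
    rw [he]
    exact (hf s' hs').2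
  · exact Set.finite_Iio m

theorem S_card_chosen_le (m : ℕ) (F : Finset ℕ)
    (hF : ∀ s ∈ F, ∃ e, e < m ∧ C.chosen dem s = some e) : F.card ≤ m := by
  choose! f hf using hF
  calc F.card ≤ (Finset.range m).card := by
        apply Finset.card_le_card_of_injOn f
        · intro s hs
          simpa using (hf s hs).1
        · intro s hs s' hs' he
          apply S_chosen_inj (hf s hs).2
          rw [he]
          exact (hf s' hs').2
    _ = m := Finset.card_range m

/-- A stage at which nothing is broken follows the diagonalization rule. -/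
theorem S_blk_diag {s a c m : ℕ} (hd : dem s = some (a, c, m)) (hc : C.chosen dem s = none) :
    C.blk dem s = C.Δ a c (C.n s) (C.famS dem s) := by
  classical
  unfold CtxS.chosen at hc
  unfold CtxS.blk CtxS.famS
  rw [hd] at hc ⊢
  unfold CtxS.choice at hc ⊢
  simp only at hc ⊢
  by_cases hex : ∃ e, e < m ∧ C.Brk (C.A dem s) s (some (a, c, m)) e
  · rw [dif_pos hex] at hc
    simp at hc
  · rw [dif_neg hex]

theorem S_chosen_of_brk {s a c m e : ℕ} (hd : dem s = some (a, c, m)) (he : e < m)
    (hb : C.Brk (C.A dem s) s (dem s) e) : ∃ e', e' ≤ e ∧ C.chosen dem s = some e' := by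
  classical
  rw [hd] at hb
  have hex : ∃ e, e < m ∧ C.Brk (C.A dem s) s (some (a, c, m)) e := ⟨e, he, hb⟩
  refine ⟨Nat.find hex, Nat.find_min' hex ⟨he, hb⟩, ?_⟩
  unfold CtxS.chosen
  rw [hd]
  unfold CtxS.choice
  simp only
  rw [dif_pos hex]

theorem S_famS_row {s : ℕ} : (C.stg (C.A dem s) s (dem s)).row = (dem s).map fun t => t.1 := rfl

theorem S_chosen_of_none {s : ℕ} (h : dem s = none) : C.chosen dem s = none := by
  unfold CtxS.chosen
  rw [h]
  rfl

/-- The value of the oracle in an active region. -/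
theorem S_O_reg_active {s a c m : ℕ} (hd : dem s = some (a, c, m)) (ha : a ≤ s + 1) {b : Bool}
    {y : List Bool} (hy : y.length = C.n s) :
    C.O dem (reg a b y) = C.blk dem s (b :: y.take (C.l a (C.n s))) := by
  have h1 := C.hnY s
  have h2 := C.hYn s
  rw [S_O_stage (s := s) (by rw [length_reg]; omega)]
  unfold CtxS.famS CtxS.fam
  rw [GS_reg_active]
  · simp [CtxS.stg, hd]
  · rw [length_reg, hy]
    simp only [CtxS.stg]
    omega
  · simp [CtxS.stg, hd]
  · exact hy

/-- The value of the oracle in an inactive region. -/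
theorem S_O_reg_inactive {a : ℕ} {b : Bool} {y : List Bool}
    (h : ∀ s, ¬ ((∃ c m, dem s = some (a, c, m)) ∧ y.length = C.n s)) :
    C.O dem (reg a b y) = C.dflt a b y := by
  obtain ⟨s, hs, hs'⟩ := S_exists_stage (C := C) (N := (reg a b y).length)
    (by rw [length_reg]; omega)
  rw [S_O_stage hs']
  unfold CtxS.famS CtxS.fam
  apply GS_reg_inactive
  · exact hs
  · rintro ⟨h1, h2⟩
    apply h s
    refine ⟨?_, h2⟩
    simp only [CtxS.stg] at h1
    rcases hd : dem s with _ | ⟨a', c, m⟩
    · simp [hd] at h1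
    · simp only [hd, Option.map_some, Option.some.injEq] at h1
      subst h1
      exact ⟨c, m, rfl⟩

/-- Continuity of the construction. -/
theorem S_A_congr {dem dem' : ℕ → Dem} {s : ℕ} (h : ∀ s' < s, dem s' = dem' s') :
    C.A dem s = C.A dem' s := by
  induction s with
  | zero => rfl
  | succ s ih =>
    have h1 := ih fun s' hs' => h s' (by omega)
    have h2 := h s (by omega)
    funext u
    simp only [CtxS.A, h1, h2]

/-- Every semantic machine whose promise holds is decided by coded strings, with exponent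
`2 r + 4`, if almost all stages that do not respect it have small blocks. -/
theorem S_exists_code {e r : ℕ}
    (hfin : {s | ∃ a c m', dem s = some (a, c, m') ∧ m' ≤ e ∧
      ¬ (C.l a (C.n s) ≤ C.n s ∧ 2 ^ (C.l a (C.n s)) ≤ (C.n s) ^ (2 * r + 4))}.Finite)
    (he : ∀ x, verdict (semOf e) (C.O dem) x ≠ none) :
    ∃ k, (kapS k).1 = semOf e ∧ ∀ (x : List Bool) (t : ℕ),
      (t < thrS (semOf e) r x.length → ∀ f, C.O dem (cod k x t f) = false) ∧
      (thrS (semOf e) r x.length ≤ t → C.O dem (cod k x t false) = true ∧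
        C.O dem (cod k x t true) = vd (semOf e) (C.O dem) x) := by
  classical
  -- from some stage on the machine is unbreakable or the block is small
  obtain ⟨S0, hS0⟩ : ∃ S0, ∀ s, S0 ≤ s → (dem s).map (fun t => t.1) = none ∨
      (∀ B, ¬ Viol e (fun u => C.famS dem s u B) (C.Y (s + 1))) ∨
      ((C.stg (C.A dem s) s (dem s)).l ≤ C.n s ∧
        2 ^ ((C.stg (C.A dem s) s (dem s)).l) ≤ (C.n s) ^ (2 * r + 4)) := by
    obtain ⟨N1, hN1⟩ := hfin.bddAbove
    obtain ⟨N2, hN2⟩ := (S_finite_chosen (C := C) (dem := dem) (e + 1)).bddAbove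
    refine ⟨max N1 N2 + 1, fun s hs => ?_⟩
    rcases hd : dem s with _ | ⟨a, c, m⟩
    · left; rfl
    · right
      by_cases hsm : C.l a (C.n s) ≤ C.n s ∧ 2 ^ (C.l a (C.n s)) ≤ (C.n s) ^ (2 * r + 4)
      · right
        simpa [CtxS.stg] using hsm
      left
      intro B hB
      have hm : e < m := by
        by_contra hle
        have : s ≤ N1 := hN1 ⟨a, c, m, hd, by omega, hsm⟩
        have := le_max_left N1 N2
        omega
      have hbrk : C.Brk (C.A dem s) s (dem s) e := by
        refine ⟨?_, B, hB⟩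
        intro hv
        rw [← viol_congr (A := C.O dem) (fun v hv' => S_O_eq hv')] at hv
        obtain ⟨x, -, hx⟩ := hv
        exact he x hx
      obtain ⟨e', he', hc⟩ := S_chosen_of_brk hd hm hbrk
      have : s ≤ N2 := hN2 ⟨e', by omega, hc⟩
      have := le_max_right N1 N2
      omega
  let d := C.Y S0 + 1
  have hFfin : {x : List Bool | x.length < d ∧ vd (semOf e) (C.O dem) x = true}.Finite :=
    (List.finite_length_lt Bool d).subset fun x hx => hx.1
  obtain ⟨k, hk⟩ := kapS_surj (semOf e, r, d, hFfin.toFinset)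
  have hk1 : (kapS k).1 = semOf e := by rw [hk]
  have hk0 : (kapS k).2.1 = r := by rw [hk]
  have hk2 : (kapS k).2.2.1 = d := by rw [hk]
  have hk3 : (kapS k).2.2.2 = hFfin.toFinset := by rw [hk]
  refine ⟨k, hk1, fun x t => ?_⟩
  have hstage : ∀ f, ∃ s, C.Y s < (cod k x t f).length ∧ (cod k x t f).length ≤ C.Y (s + 1) :=
    fun f => S_exists_stage (by rw [length_cod]; omega)
  refine ⟨?_, ?_⟩
  · intro ht f
    obtain ⟨s, hs, hs'⟩ := hstage f
    rw [S_O_stage hs']
    exact GS_cod_small (s := C.stg (C.A dem s) s (dem s)) hs (by rwa [hk1, hk0]) _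
  · intro ht
    refine ⟨?_, ?_⟩
    · obtain ⟨s, hs, hs'⟩ := hstage false
      rw [S_O_stage hs']
      exact GS_cod_stop (s := C.stg (C.A dem s) s (dem s)) hs (by rwa [hk1, hk0]) _
    · obtain ⟨s, hs, hs'⟩ := hstage true
      rw [S_O_stage hs']
      by_cases hx : x.length < d
      · have h1 := GS_cod_table (dflt := C.dflt) (s := C.stg (C.A dem s) s (dem s)) hs
          (by rwa [hk1, hk0]) (by rwa [hk2]) (C.blk dem s)
        rw [hk3] at h1
        unfold CtxS.famS CtxS.fam
        rw [h1]
        have h2 : (x ∈ hFfin.toFinset) ↔ vd (semOf e) (C.O dem) x = true := by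
          rw [Set.Finite.mem_toFinset]
          constructor
          · intro h; exact h.2
          · intro h; exact ⟨hx, h⟩
        simp only [h2, Bool.decide_eq_true]
      · push Not at hx
        have hbd : (semOf e).bd x.length ≤ C.Y (s + 1) := by
          have := bd_lt_thrS (semOf e) r x.length
          rw [length_cod] at hs'
          omega
        have hsS : S0 ≤ s := by
          by_contra hlt
          push Not at hlt
          have h1 : C.Y (s + 1) ≤ C.Y S0 := S_Y_strictMono.monotone hlt
          rw [length_cod] at hs'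
          omega
        have hgood : (C.stg (C.A dem s) s (dem s)).row = none ∨ (∀ B, verdict (kapS k).1
            (fun v => GS C.dflt (C.stg (C.A dem s) s (dem s)) v B) x ≠ none) ∨
            ((C.stg (C.A dem s) s (dem s)).l ≤ (C.stg (C.A dem s) s (dem s)).n ∧
              2 ^ ((C.stg (C.A dem s) s (dem s)).l) ≤
                ((C.stg (C.A dem s) s (dem s)).n) ^ (2 * (kapS k).2.1 + 4)) := by
          rcases hS0 s hsS with h | h | h
          · left; exact h
          · right; left
            intro B hv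
            rw [hk1] at hv
            exact h B ⟨x, hbd, hv⟩
          · right; right
            rw [hk0]
            exact h
        have h1 := GS_cod_main (dflt := C.dflt) (s := C.stg (C.A dem s) s (dem s)) hs
          (by rwa [hk1, hk0]) (by rwa [hk2]) hgood (C.blk dem s)
        unfold CtxS.famS CtxS.fam
        rw [h1, hk1]
        apply vd_congr
        intro v hv
        exact (S_O_stage (hv.trans hbd)).symm

end H556R2
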