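import Pool.Agent.H556R2.SFinal
import Pool.Agent.H556R2.Complete

/-!
# An oracle with full derandomization but without a fixed exponent
-/

namespace H556R2

theorem accCount_zero' (A : Oracle) (M : OTM) (x : List Bool) (t : ℕ) :
    accCount A M x 0 t = if outcome A M x [] t = some true then 1 else 0 := by
  unfold accCount
  rw [Finset.card_filter]
  simp

theorem haltsAll_zero' {A : Oracle} {M : OTM} {x : List Bool} {t : ℕ} :
    HaltsAll A M x 0 t ↔ (outcome A M x [] t).isSome := by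
  unfold HaltsAll
  simp

/-- `P ⊆ BPP`. -/
theorem classP_subset_classBPP (A : Oracle) : ClassP A ⊆ ClassBPP A := by
  rintro L ⟨M, p, h⟩
  refine ⟨M, 0, p, fun x => ?_⟩
  rw [Polynomial.eval_zero, accCount_zero', haltsAll_zero']
  refine ⟨?_, ?_, ?_⟩
  · by_cases hx : x ∈ L
    · rw [(h x).1 hx]; rfl
    · rw [(h x).2 hx]; rfl
  · intro hx
    rw [if_pos ((h x).1 hx)]
    norm_num
  · intro hx
    rw [(h x).2 hx]
    simp

/-- `ZPTIME(n) ⊆ NTIME(n) ∩ coNTIME(n)`. -/
theorem classZPTIME1_subset (A : Oracle) :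
    ClassZPTIME1 A ⊆ ClassNTIME1 A ∩ ClassCoNTIME1 A := by
  have key : ClassRTIME1 A ⊆ ClassNTIME1 A := by
    rintro L ⟨M, a, b, C, h⟩
    refine ⟨M, a, b, C, fun x => ⟨(h x).1, ?_, ?_⟩⟩
    · intro hx
      have h1 := (h x).2.1 hx
      have h2 : 0 < 2 ^ (a * x.length + b) := by positivity
      omega
    · intro hc
      by_contra hx
      have := (h x).2.2 hx
      omega
  rintro L ⟨h1, h2⟩
  exact ⟨key h1, key h2⟩

/-- The demand that every level is served. -/
def αfull : ℕ → ℕ → ℕ → Option ℕ := fun _ _ b => some b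

theorem no_fixed_exponent : ∃ A : Oracle,
    ClassP A = ClassRP A ∧ ClassP A = ClassBPP A ∧ ClassP A = ClassNP A ∩ ClassCoNP A ∧
      ClassP A ≠ ClassNP A ∧ ∀ c, ¬ ClassZPTIME1 A ⊆ ClassDTIME c A := by
  refine ⟨OS αfull, ?_, ?_, ?_, ?_, fun c => ?_⟩
  · exact Set.Subset.antisymm (classP_subset_classRP _) (OS_RP _)
  · exact Set.Subset.antisymm (classP_subset_classBPP _) (OS_BPP _)
  · exact Set.Subset.antisymm (classP_subset_npc _) (OS_npc _)
  · intro h
    apply OS_NP_not_RP αfull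
    rw [← h]
    exact classP_subset_classRP _
  · exact OS_level (k := c) (i := 0) fun t => ⟨t, rfl⟩

end H556R2
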