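import Pool.Agent.H556R2.Machine

/-!
# Relativized classes with fixed exponents
-/

namespace H556R2

/-- `DTIME(n^c)` relative to `A`: languages decided in `C * |x| ^ c + C` steps for some
constant `C`. -/
def ClassDTIME (c : ℕ) (A : Oracle) : Set Lang :=
  {L | ∃ (M : OTM) (C : ℕ), ∀ x : List Bool,
    (x ∈ L → outcome A M x [] (C * x.length ^ c + C) = some true) ∧
    (x ∉ L → outcome A M x [] (C * x.length ^ c + C) = some false)}

/-- `RTIME(n)` relative to `A`: one-sided error with `a * |x| + b` coins and `C * |x| + C`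
steps for some constants `a`, `b`, `C`. -/
def ClassRTIME1 (A : Oracle) : Set Lang :=
  {L | ∃ (M : OTM) (a b C : ℕ), ∀ x : List Bool,
    HaltsAll A M x (a * x.length + b) (C * x.length + C) ∧
    (x ∈ L → 2 ^ (a * x.length + b) ≤
      2 * accCount A M x (a * x.length + b) (C * x.length + C)) ∧
    (x ∉ L → accCount A M x (a * x.length + b) (C * x.length + C) = 0)}

/-- `ZPTIME(n)` relative to `A`: languages which lie in `RTIME(n)` together with their
complement. -/
def ClassZPTIME1 (A : Oracle) : Set Lang := {L | L ∈ ClassRTIME1 A ∧ Lᶜ ∈ ClassRTIME1 A}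

/-- `NTIME(n)` relative to `A`. -/
def ClassNTIME1 (A : Oracle) : Set Lang :=
  {L | ∃ (M : OTM) (a b C : ℕ), ∀ x : List Bool,
    HaltsAll A M x (a * x.length + b) (C * x.length + C) ∧
    (x ∈ L ↔ 0 < accCount A M x (a * x.length + b) (C * x.length + C))}

/-- `coNTIME(n)` relative to `A`. -/
def ClassCoNTIME1 (A : Oracle) : Set Lang := {L | Lᶜ ∈ ClassNTIME1 A}

end H556R2
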