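import Pool.Agent.H556R2.SRows
import Pool.Agent.H556R2.Final
import Pool.Agent.H556R2.TimeDefs

/-!
# The classes relative to the oracles with small blocks
-/

namespace H556R2

/-- The threshold as a polynomial. -/
noncomputable def thrSP (e : Sem) (r : ℕ) : Polynomial ℕ :=
  9 * ((e.2.1.p + e.2.2.p) * (e.2.1.p + e.2.2.p)) ^ 2 +
    2 * (e.2.1.p + e.2.2.p) ^ (2 * r + 4) + (e.2.1.p + e.2.2.p) + 1

theorem eval_thrSP (e : Sem) (r n : ℕ) : (thrSP e r).eval n = thrS e r n := by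
  simp [thrSP, thrS, Sem.bd]

open Classical in
/-- The common part of the collapse theorems. -/
theorem collapseS_aux {dem : ℕ → Dem} {i r : ℕ}
    (hfin : {s | ∃ a c m', dem s = some (a, c, m') ∧ m' ≤ i ∧
      ¬ (lS a (nfS s) ≤ nfS s ∧ 2 ^ (lS a (nfS s)) ≤ (nfS s) ^ (2 * r + 4))}.Finite)
    {L : Lang} (h : ∀ x, verdict (semOf i) (CxS.O dem) x = some (decide (x ∈ L))) :
    ∃ (M : OTM) (k : ℕ), ∀ (x : List Bool) (N : ℕ),
      3 * thrS (semOf i) r x.length + 2 * x.length + k ≤ N →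
      outcome (CxS.O dem) M x [] N = some (decide (x ∈ L)) := by
  obtain ⟨k, hk, hcode⟩ := S_exists_code (C := CxS) (e := i) (r := r) hfin
    (fun x => by rw [h x]; simp)
  refine ⟨progD (false :: encN k), k + 10, fun x N hN => ?_⟩
  have hc := hcode x
  rw [outcome_progD (CxS.O dem) (false :: encN k) x (thrS (semOf i) r x.length)]
  · have h1 : (false :: encN k) ++ (encS x ++
        (List.replicate (thrS (semOf i) r x.length) true ++ [true])) =
        cod k x (thrS (semOf i) r x.length) true := rfl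
    rw [h1, ((hc _).2 le_rfl).2]
    unfold vd
    rw [h x]
    by_cases hx : x ∈ L <;> simp [hx]
  · intro t ht
    exact (hc t).1 ht false
  · exact ((hc _).2 le_rfl).1
  · simp only [List.length_cons, length_encN]
    omega

open Polynomial in
open Classical in
theorem collapseS {dem : ℕ → Dem} {e : Sem}
    (hfin : ∀ i, {s | ∃ a c m', dem s = some (a, c, m') ∧ m' ≤ i ∧
      ¬ (lS a (nfS s) ≤ nfS s ∧ 2 ^ (lS a (nfS s)) ≤ (nfS s) ^ (2 * i + 4))}.Finite)
    {L : Lang} (h : ∀ x, verdict e (CxS.O dem) x = some (decide (x ∈ L))) :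
    L ∈ ClassP (CxS.O dem) := by
  obtain ⟨i, rfl⟩ := semOf_surj e
  obtain ⟨M, k, hM⟩ := collapseS_aux (r := i) (hfin i) h
  rw [mem_classP]
  refine ⟨M, 3 * thrSP (semOf i) i + 2 * X + C k, fun x => ?_⟩
  apply hM
  simp only [Polynomial.eval_add, Polynomial.eval_mul, eval_thrSP, Polynomial.eval_X,
    Polynomial.eval_C, Polynomial.eval_ofNat]
  omega

theorem thrS_linear {e : Sem} {C : ℕ} (hC : ∀ n, e.bd n ≤ C * n + C) (r : ℕ) :
    ∃ D, ∀ n, thrS e r n ≤ D * n ^ (2 * r + 4) + D := by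
  refine ⟨12 * (2 * C) ^ (2 * r + 4) + 12, fun n => ?_⟩
  set m := 2 * r + 4 with hm
  have h1 : ∀ T : ℕ, 9 * (T * T) ^ 2 + 2 * T ^ m + T + 1 ≤ 12 * T ^ m + 1 := by
    intro T
    rcases Nat.eq_zero_or_pos T with h0 | h0
    · subst h0
      simp [hm]
    · have h2 : T ^ 4 ≤ T ^ m := Nat.pow_le_pow_right h0 (by omega)
      have h3 : T ≤ T ^ m := Nat.le_self_pow (by omega) T
      have h4 : (T * T) ^ 2 = T ^ 4 := by ring
      rw [h4]
      omega
  have h5 := h1 (e.bd n)
  have h6 : (e.bd n) ^ m ≤ (2 * C) ^ m * n ^ m + (2 * C) ^ m := by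
    rcases Nat.eq_zero_or_pos n with h0 | h0
    · subst h0
      have h7 : e.bd 0 ≤ 2 * C := by
        have := hC 0
        omega
      exact (Nat.pow_le_pow_left h7 m).trans (Nat.le_add_left _ _)
    · have h7 : e.bd n ≤ (2 * C) * n := by
        have := hC n
        nlinarith
      calc (e.bd n) ^ m ≤ ((2 * C) * n) ^ m := Nat.pow_le_pow_left h7 m
        _ = (2 * C) ^ m * n ^ m := mul_pow _ _ _
        _ ≤ _ := Nat.le_add_right _ _
  unfold thrS
  rw [← hm]
  have h8 : (12 * (2 * C) ^ m + 12) * n ^ m + (12 * (2 * C) ^ m + 12) =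
      12 * ((2 * C) ^ m * n ^ m + (2 * C) ^ m) + 12 * n ^ m + 12 := by ring
  rw [h8]
  omega

open Classical in
theorem collapseS_time {dem : ℕ → Dem} {e : Sem} {r C : ℕ} (hC : ∀ n, e.bd n ≤ C * n + C)
    (hfin : ∀ i, {s | ∃ a c m', dem s = some (a, c, m') ∧ m' ≤ i ∧
      ¬ (lS a (nfS s) ≤ nfS s ∧ 2 ^ (lS a (nfS s)) ≤ (nfS s) ^ (2 * r + 4))}.Finite)
    {L : Lang} (h : ∀ x, verdict e (CxS.O dem) x = some (decide (x ∈ L))) :
    L ∈ ClassDTIME (2 * r + 4) (CxS.O dem) := by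
  obtain ⟨i, rfl⟩ := semOf_surj e
  obtain ⟨M, k, hM⟩ := collapseS_aux (r := r) (hfin i) h
  obtain ⟨D, hD⟩ := thrS_linear hC r
  have key : ∀ x : List Bool, outcome (CxS.O dem) M x []
      ((3 * D + 2 + k) * x.length ^ (2 * r + 4) + (3 * D + 2 + k)) = some (decide (x ∈ L)) := by
    intro x
    apply hM
    have h1 := hD x.length
    have h2 : x.length ≤ x.length ^ (2 * r + 4) := Nat.le_self_pow (by omega) _
    have h3 : (3 * D + 2 + k) * x.length ^ (2 * r + 4) + (3 * D + 2 + k) =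
      3 * (D * x.length ^ (2 * r + 4) + D) + 2 * x.length ^ (2 * r + 4) +
        k * x.length ^ (2 * r + 4) + 2 + k := by ring
    rw [h3]
    omega
  refine ⟨M, 3 * D + 2 + k, fun x => ⟨fun hx => ?_, fun hx => ?_⟩⟩
  · rw [key x]; simp [hx]
  · rw [key x]; simp [hx]

section
variable {dem : ℕ → Dem} (hrow : ∀ s a c m, dem s = some (a, c, m) → a ≤ s)

include hrow in
open Classical in
theorem np_diagS (hnp : ∀ e i, i ≤ e → dem (Nat.pair 0 (Nat.pair e i)) = some (0, e, e))
    (e : Sem) : ∃ x, verdict e (CxS.O dem) x ≠ some (decide (x ∈ Lex (CxS.O dem) 0 0)) := by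
  obtain ⟨i, rfl⟩ := semOf_surj e
  obtain ⟨j, hj, hc⟩ : ∃ j, j ≤ i ∧ CxS.chosen dem (Nat.pair 0 (Nat.pair i j)) = none := by
    by_contra hcon
    push Not at hcon
    let F := (Finset.range (i + 1)).image fun j => Nat.pair 0 (Nat.pair i j)
    have hF : F.card = i + 1 := by
      rw [Finset.card_image_of_injective, Finset.card_range]
      intro j j' h
      simpa [Nat.pair_eq_pair] using h
    have := S_card_chosen_le (C := CxS) (dem := dem) i F (by
      intro s hs
      obtain ⟨j, hj, rfl⟩ := Finset.mem_image.1 hs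
      rw [Finset.mem_range] at hj
      obtain ⟨e', he'⟩ := Option.ne_none_iff_exists'.1 (hcon j (by omega))
      obtain ⟨a, c, m, hd, hm, -⟩ := S_chosen_spec he'
      rw [hnp i j (by omega)] at hd
      simp only [Option.some.injEq, Prod.mk.injEq] at hd
      exact ⟨e', by omega, he'⟩)
    omega
  have h1 := mis_OS hrow (hnp i j hj) hc ((Nat.left_le_pair i j).trans (Nat.right_le_pair _ _))
  refine ⟨List.replicate (nfS (Nat.pair 0 (Nat.pair i j))) false, ?_⟩
  simp only [MisS, if_true] at h1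
  have h2 : decide (List.replicate (nfS (Nat.pair 0 (Nat.pair i j))) false ∈
      Lex (CxS.O dem) 0 0) =
      decide (cntO (CxS.O dem) 0 true (nfS (Nat.pair 0 (Nat.pair i j))) ≠ 0) := by
    rw [decide_eq_decide]
    simp only [Lex, Set.mem_ofPred_eq, List.length_replicate, add_zero]
  rw [h2]
  exact h1

/-- Beyond some length, no stage in the row is used to break a machine. -/
theorem exists_shiftS {a : ℕ} (hbd : ∀ s c m, dem s = some (a, c, m) → m ≤ a) :
    ∃ N0, ∀ s c m, N0 ≤ nfS s → dem s = some (a, c, m) → CxS.chosen dem s = none := by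
  obtain ⟨S1, hS1⟩ := (S_finite_chosen (C := CxS) (dem := dem) a).bddAbove
  refine ⟨nfS S1 + 1, fun s c m hs hd => ?_⟩
  by_contra hc
  obtain ⟨e', he'⟩ := Option.ne_none_iff_exists'.1 hc
  obtain ⟨a', c', m', hd', hm', -⟩ := S_chosen_spec he'
  rw [hd] at hd'
  simp only [Option.some.injEq, Prod.mk.injEq] at hd'
  have h1 := hbd s c m hd
  have h2 : s ≤ S1 := hS1 ⟨e', by omega, he'⟩
  have h3 : nfS s ≤ nfS S1 := (S_n_strictMono (C := CxS)).monotone h2
  omega

include hrow in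
theorem zpp_rowS {a : ℕ} (ha : a ≠ 0) (hbd : ∀ s c m, dem s = some (a, c, m) → m ≤ a)
    (hinf : ∀ c S, ∃ s, S < s ∧ dem s = some (a, c, a)) :
    ∃ L : Lang, L ∈ ClassZPTIME1 (CxS.O dem) ∧ L ∉ ClassDTIME (lev a) (CxS.O dem) := by
  classical
  obtain ⟨N0, hN0⟩ := exists_shiftS hbd
  have htyped : ∀ n, N0 ≤ n → Typed .zpp n (cntO (CxS.O dem) a true n)
      (cntO (CxS.O dem) a false n) := by
    intro n hn
    apply typed_OS hrow ha
    rintro s c m rfl hd
    exact hN0 s c m hn hd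
  have hTt : ∀ n, n + N0 + a + 5 ≤ (N0 + a + 5) * n + (N0 + a + 5) := by
    intro n
    nlinarith
  refine ⟨Lex (CxS.O dem) a N0, ⟨?_, ?_⟩, ?_⟩
  · refine ⟨progV (hdr a true), 1, N0, N0 + a + 5, fun x => ?_⟩
    have hT := hTt x.length
    rw [one_mul, accCount_progV _ _ _ _ hT]
    refine ⟨haltsAll_progV _ _ _ _ hT, ?_, ?_⟩
    · intro hx
      rcases htyped (x.length + N0) (by omega) with ⟨h1, h2⟩ | ⟨h1, h2⟩
      · omega
      · exact absurd h2 hx
    · intro hx
      by_contra hne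
      exact hx hne
  · refine ⟨progV (hdr a false), 1, N0, N0 + a + 5, fun x => ?_⟩
    have hT := hTt x.length
    rw [one_mul, accCount_progV _ _ _ _ hT]
    have hpos : 0 < 2 ^ (x.length + N0) := by positivity
    refine ⟨haltsAll_progV _ _ _ _ hT, ?_, ?_⟩
    · intro hx
      have hx' : cntO (CxS.O dem) a true (x.length + N0) = 0 := by
        by_contra hne
        exact hx hne
      rcases htyped (x.length + N0) (by omega) with ⟨h1, h2⟩ | ⟨h1, h2⟩
      · omega
      · omega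
    · intro hx
      have hx' : cntO (CxS.O dem) a true (x.length + N0) ≠ 0 := by
        simpa [Lex] using hx
      rcases htyped (x.length + N0) (by omega) with ⟨h1, h2⟩ | ⟨h1, h2⟩
      · exact h2
      · exact absurd h2 hx'
  · rintro ⟨M, C, hMC⟩
    obtain ⟨c, hc⟩ := advS_surj (M, C, N0)
    obtain ⟨s, hs, hd⟩ := hinf c (c + N0)
    have hns : s ≤ nfS s := (S_n_strictMono (C := CxS)).id_le s
    have hch := hN0 s c a (by omega) hd
    have h1 := mis_OS hrow hd hch (by omega)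
    unfold MisS at h1
    rw [if_neg ha] at h1
    simp only [tS, hc] at h1
    have h2 := hMC (List.replicate (nfS s - N0) false)
    rw [List.length_replicate] at h2
    apply h1
    have h3 : (List.replicate (nfS s - N0) false ∈ Lex (CxS.O dem) a N0) ↔
        cntO (CxS.O dem) a true (nfS s) ≠ 0 := by
      simp only [Lex, Set.mem_ofPred_eq, List.length_replicate,
        Nat.sub_add_cancel (show N0 ≤ nfS s by omega)]
    by_cases hx : List.replicate (nfS s - N0) false ∈ Lex (CxS.O dem) a N0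
    · rw [h2.1 hx, decide_eq_true (h3.1 hx)]
    · rw [h2.2 hx, decide_eq_false (fun h => hx (h3.2 h))]

end

/-! ### The demands given by a family of matrices -/

/-- The demands: row `0` serves `NP`, row `r + 1` follows `α r.unpair.1 r.unpair.2`. -/
def demS (α : ℕ → ℕ → ℕ → Option ℕ) (s : ℕ) : Dem :=
  if s.unpair.1 = 0 then
    (if s.unpair.2.unpair.2 ≤ s.unpair.2.unpair.1 then
      some (0, s.unpair.2.unpair.1, s.unpair.2.unpair.1) else none)
  else (α (s.unpair.1 - 1).unpair.1 (s.unpair.1 - 1).unpair.2 s.unpair.2).map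
    fun t => (s.unpair.1, t.unpair.1, s.unpair.1)

theorem demS_row (α : ℕ → ℕ → ℕ → Option ℕ) (s a c m : ℕ) (h : demS α s = some (a, c, m)) :
    a = s.unpair.1 ∧ (a ≠ 0 → m = a) := by
  unfold demS at h
  split_ifs at h with h1 h2
  · simp only [Option.some.injEq, Prod.mk.injEq] at h
    refine ⟨by omega, fun h3 => by omega⟩
  · rw [Option.map_eq_some_iff] at h
    obtain ⟨t, -, ht⟩ := h
    simp only [Prod.mk.injEq] at ht
    refine ⟨by omega, fun _ => by omega⟩

theorem demS_hrow (α : ℕ → ℕ → ℕ → Option ℕ) :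
    ∀ s a c m, demS α s = some (a, c, m) → a ≤ s := by
  intro s a c m h
  have h1 := (demS_row α s a c m h).1
  have h2 := Nat.unpair_left_le s
  omega

theorem demS_hnp (α : ℕ → ℕ → ℕ → Option ℕ) :
    ∀ e i, i ≤ e → demS α (Nat.pair 0 (Nat.pair e i)) = some (0, e, e) := by
  intro e i hi
  simp [demS, hi]

/-- Stages of row `0` and stages of rows of high level which are finite are finitely many. -/
theorem demS_hfin {α : ℕ → ℕ → ℕ → Option ℕ} {c0 r m : ℕ}
    (hr : ∀ a, a ≤ m → lev a ≤ r ∨ c0 ≤ lev a)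
    (hα : ∀ c, c0 ≤ c → ∀ i, {b | α c i b ≠ none}.Finite) :
    {s | ∃ a c m', demS α s = some (a, c, m') ∧ m' ≤ m ∧
      ¬ (lS a (nfS s) ≤ nfS s ∧ 2 ^ (lS a (nfS s)) ≤ (nfS s) ^ (2 * r + 4))}.Finite := by
  have h1 : ((fun p : ℕ × ℕ => Nat.pair 0 (Nat.pair p.1 p.2)) ''
      (Set.Iic m ×ˢ Set.Iic m)).Finite :=
    ((Set.finite_Iic m).prod (Set.finite_Iic m)).image _
  have h2 : (⋃ a ∈ {a | a ≤ m ∧ c0 ≤ lev a}, (fun b => Nat.pair a b) ''
      {b | α (a - 1).unpair.1 (a - 1).unpair.2 b ≠ none}).Finite := by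
    apply Set.Finite.biUnion
    · exact (Set.finite_Iic m).subset fun a ha => ha.1
    · intro a ha
      exact (hα _ ha.2 _).image _
  refine (h1.union h2).subset ?_
  rintro s ⟨a, c, m', hs, hm, hns⟩
  have hr' := demS_row α s a c m' hs
  unfold demS at hs
  split_ifs at hs with h3 h4
  · left
    simp only [Option.some.injEq, Prod.mk.injEq] at hs
    refine ⟨(s.unpair.2.unpair.1, s.unpair.2.unpair.2), ⟨?_, ?_⟩, ?_⟩
    · simp only [Set.mem_Iic]
      omega
    · simp only [Set.mem_Iic]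
      omega
    · simp only [Nat.pair_unpair]
      rw [← h3, Nat.pair_unpair]
  · right
    rw [Option.map_eq_some_iff] at hs
    obtain ⟨t, ht, ht'⟩ := hs
    simp only [Prod.mk.injEq] at ht'
    have ha0 : a ≠ 0 := by omega
    have ham : a ≤ m := by omega
    have hlev : c0 ≤ lev a := by
      rcases hr a ham with h5 | h5
      · exact absurd ⟨lS_le a _, two_pow_lS_le ha0 h5 (nfS_ne_zero s)⟩ hns
      · exact h5
    simp only [Set.mem_iUnion, Set.mem_ofPred_eq]
    refine ⟨s.unpair.1, ⟨by omega, by rw [← hr'.1]; exact hlev⟩, s.unpair.2, ?_,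
      Nat.pair_unpair s⟩
    simp [ht]

theorem demS_hinf {α : ℕ → ℕ → ℕ → Option ℕ} {k i : ℕ} (hα : ∀ t, ∃ b, α k i b = some t)
    (c S : ℕ) : ∃ s, S < s ∧
      demS α s = some (Nat.pair k i + 1, c, Nat.pair k i + 1) := by
  choose f hf using hα
  have hinj : Function.Injective fun k => f (Nat.pair c k) := by
    intro k k' h
    simp only at h
    have h1 := hf (Nat.pair c k)
    have h2 := hf (Nat.pair c k')
    rw [h, h2] at h1
    simp only [Option.some.injEq, Nat.pair_eq_pair, true_and] at h1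
    exact h1.symm
  obtain ⟨b, ⟨k', hk⟩, hb⟩ := (Set.infinite_range_of_injective hinj).exists_gt S
  simp only at hk
  refine ⟨Nat.pair (Nat.pair k i + 1) b, lt_of_lt_of_le hb (Nat.right_le_pair _ b), ?_⟩
  unfold demS
  rw [Nat.unpair_pair]
  simp only [Nat.add_sub_cancel, Nat.unpair_pair]
  rw [if_neg (by omega), ← hk, hf, Option.map_some, Nat.unpair_pair]

/-- The oracle given by a family of matrices. -/
noncomputable def OS (α : ℕ → ℕ → ℕ → Option ℕ) : Oracle := CxS.O (demS α)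

theorem lev_le (a : ℕ) : lev a ≤ a := by
  have := Nat.unpair_left_le (a - 1)
  unfold lev
  omega

theorem demS_hfin_all (α : ℕ → ℕ → ℕ → Option ℕ) (i : ℕ) :
    {s | ∃ a c m', demS α s = some (a, c, m') ∧ m' ≤ i ∧
      ¬ (lS a (nfS s) ≤ nfS s ∧ 2 ^ (lS a (nfS s)) ≤ (nfS s) ^ (2 * i + 4))}.Finite := by
  have h1 : ((fun p : ℕ × ℕ => Nat.pair 0 (Nat.pair p.1 p.2)) ''
      (Set.Iic i ×ˢ Set.Iic i)).Finite :=
    ((Set.finite_Iic i).prod (Set.finite_Iic i)).image _
  refine h1.subset ?_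
  rintro s ⟨a, c, m', hs, hm, hns⟩
  have hr' := demS_row α s a c m' hs
  by_cases ha : a = 0
  · unfold demS at hs
    split_ifs at hs with h3 h4
    · simp only [Option.some.injEq, Prod.mk.injEq] at hs
      refine ⟨(s.unpair.2.unpair.1, s.unpair.2.unpair.2), ⟨?_, ?_⟩, ?_⟩
      · simp only [Set.mem_Iic]
        omega
      · simp only [Set.mem_Iic]
        omega
      · simp only [Nat.pair_unpair]
        rw [← h3, Nat.pair_unpair]
    · omega
  · exfalso
    apply hns
    have h5 := hr'.2 ha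
    have h6 := lev_le a
    exact ⟨lS_le a _, two_pow_lS_le ha (by omega) (nfS_ne_zero s)⟩

theorem OS_RP (α : ℕ → ℕ → ℕ → Option ℕ) : ClassRP (OS α) ⊆ ClassP (OS α) := by
  intro L hL
  obtain ⟨E, hE⟩ := mem_classRP.1 hL
  exact collapseS (demS_hfin_all α) hE

theorem OS_BPP (α : ℕ → ℕ → ℕ → Option ℕ) : ClassBPP (OS α) ⊆ ClassP (OS α) := by
  intro L hL
  obtain ⟨E, hE⟩ := mem_classBPP.1 hL
  exact collapseS (demS_hfin_all α) hE

theorem OS_npc (α : ℕ → ℕ → ℕ → Option ℕ) :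
    ClassNP (OS α) ∩ ClassCoNP (OS α) ⊆ ClassP (OS α) := by
  intro L hL
  obtain ⟨E, E', hE⟩ := mem_npc.1 hL
  exact collapseS (demS_hfin_all α) hE

theorem OS_NP_not_RP (α : ℕ → ℕ → ℕ → Option ℕ) : ¬ ClassNP (OS α) ⊆ ClassRP (OS α) := by
  intro h
  obtain ⟨E, hE⟩ := mem_classRP.1 (h (Lex_mem_NP (OS α) 0 0))
  obtain ⟨x, hx⟩ := np_diagS (demS_hrow α) (demS_hnp α) (.rp, E, E)
  exact hx (hE x)

theorem OS_NP_ne_coNP (α : ℕ → ℕ → ℕ → Option ℕ) : ¬ ClassNP (OS α) ⊆ ClassCoNP (OS α) := by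
  intro h
  obtain ⟨E, E', hE⟩ := mem_npc.1 ⟨Lex_mem_NP (OS α) 0 0, h (Lex_mem_NP (OS α) 0 0)⟩
  obtain ⟨x, hx⟩ := np_diagS (demS_hrow α) (demS_hnp α) (.npc, E, E')
  exact hx (hE x)

theorem OS_level {α : ℕ → ℕ → ℕ → Option ℕ} {k i : ℕ} (hα : ∀ t, ∃ b, α k i b = some t) :
    ¬ ClassZPTIME1 (OS α) ⊆ ClassDTIME k (OS α) := by
  intro h
  obtain ⟨L, hL, hL'⟩ := zpp_rowS (dem := demS α) (demS_hrow α) (a := Nat.pair k i + 1)
    (by omega)
    (fun s c m hs => ((demS_row α s _ c m hs).2 (by omega)).le)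
    (fun c S => demS_hinf hα c S)
  have hlev : lev (Nat.pair k i + 1) = k := by simp [lev]
  rw [hlev] at hL'
  exact hL' (h hL)

/-- The finite case from level `c0` on. -/
theorem OS_linear {α : ℕ → ℕ → ℕ → Option ℕ} {c0 : ℕ}
    (hα : ∀ c, c0 ≤ c → ∀ i, {b | α c i b ≠ none}.Finite) {e : Sem} {C : ℕ}
    (hC : ∀ n, e.bd n ≤ C * n + C) {L : Lang} (h : ∀ x, ∃ b : Bool, (b = true ↔ x ∈ L) ∧
      verdict e (OS α) x = some b) : L ∈ ClassDTIME (2 * c0 + 4) (OS α) := by
  classical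
  apply collapseS_time (e := e) hC
  · intro i
    apply demS_hfin (c0 := c0) _ hα
    intro a _
    exact le_total _ _
  · intro x
    obtain ⟨b, hb, hv⟩ := h x
    unfold OS at hv
    rw [hv]
    by_cases hx : x ∈ L
    · simp [hb.2 hx, hx]
    · have : b = false := by
        cases b
        · rfl
        · exact absurd (hb.1 rfl) hx
      simp [this, hx]

end H556R2
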