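import Pool.Agent.H556R2.Growth
import Pool.Agent.H556R2.SConstruct

/-!
# Small diagonalization blocks
-/

namespace H556R2

/-- Enumeration of machines together with a constant and a shift. -/
noncomputable def advS : ℕ → OTM × ℕ × ℕ :=
  Classical.choose (exists_surjective_nat (OTM × ℕ × ℕ))

theorem advS_surj : Function.Surjective advS := Classical.choose_spec (exists_surjective_nat _)

/-- The level of a row. -/
def lev (a : ℕ) : ℕ := (a - 1).unpair.1

/-- The number of relevant bits: all in row `0`, logarithmically many in the other rows. -/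
def lS (a n : ℕ) : ℕ := if a = 0 then n else min n ((2 * lev a + 4) * Nat.log 2 n)

theorem lS_le (a n : ℕ) : lS a n ≤ n := by
  unfold lS
  split_ifs
  · exact le_rfl
  · exact min_le_left _ _

theorem two_pow_lS_le {a n r : ℕ} (ha : a ≠ 0) (hr : lev a ≤ r) (hn : n ≠ 0) :
    2 ^ (lS a n) ≤ n ^ (2 * r + 4) := by
  unfold lS
  rw [if_neg ha]
  calc 2 ^ (min n ((2 * lev a + 4) * Nat.log 2 n)) ≤ 2 ^ ((2 * lev a + 4) * Nat.log 2 n) :=
        Nat.pow_le_pow_right (by norm_num) (min_le_right _ _)
    _ = (2 ^ Nat.log 2 n) ^ (2 * lev a + 4) := by rw [← pow_mul, mul_comm]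
    _ ≤ n ^ (2 * lev a + 4) := Nat.pow_le_pow_left (Nat.pow_log_le_self 2 hn) _
    _ ≤ n ^ (2 * r + 4) := Nat.pow_le_pow_right (by omega) (by omega)

/-- The time of the adversaries of level `m`. -/
noncomputable def tS (c m j : ℕ) : ℕ := (advS c).2.1 * j ^ m + (advS c).2.1

/-- The adversary `c` of row `a` errs. -/
def MisS (a c n : ℕ) (A : Oracle) (p : ℕ) : Prop :=
  if a = 0 then verdict (semOf c) A (List.replicate n false) ≠ some (decide (p ≠ 0))
  else outcome A (advS c).1 (List.replicate (n - (advS c).2.2) false) []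
    (tS c (lev a) (n - (advS c).2.2)) ≠ some (decide (p ≠ 0))

/-- Typed regions. -/
def TypedS (a n p q : ℕ) : Prop := if a = 0 then True else Typed .zpp n p q

theorem card_preimage_take (b : Bool) (n l : ℕ) (S : Finset (List Bool)) :
    (Finset.univ.filter fun w : Fin n → Bool => b :: (List.ofFn w).take l ∈ S).card ≤
      S.card * 2 ^ (n - l) := by
  classical
  have h1 : (S ×ˢ ((Finset.univ : Finset (Fin (n - l) → Bool)).image List.ofFn)).card ≤
      S.card * 2 ^ (n - l) := by
    rw [Finset.card_product]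
    refine Nat.mul_le_mul_left _ (Finset.card_image_le.trans ?_)
    simp
  refine le_trans ?_ h1
  apply Finset.card_le_card_of_injOn
    fun w => (b :: (List.ofFn w).take l, (List.ofFn w).drop l)
  · intro w hw
    simp only [Finset.coe_filter, Finset.mem_univ, true_and, Set.mem_ofPred_eq] at hw
    simp only [Finset.coe_product, Set.mem_prod, Finset.mem_coe, Finset.mem_image,
      Finset.mem_univ, true_and]
    refine ⟨hw, ?_⟩
    have hlen : ((List.ofFn w).drop l).length = n - l := by simp
    refine ⟨fun i => ((List.ofFn w).drop l).get (i.cast hlen.symm), ?_⟩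
    apply List.ext_get
    · simp
    · intro i h1 h2
      simp
  · intro w _ w' _ h
    simp only [Prod.mk.injEq, List.cons.injEq, true_and] at h
    apply List.ofFn_injective
    rw [← List.take_append_drop l (List.ofFn w), ← List.take_append_drop l (List.ofFn w'),
      h.1, h.2]

/-- A block which is full outside of a small set. -/
theorem cnt_large_take {b : Bool} {n l : ℕ} (hl : l ≤ n) {S : Finset (List Bool)}
    {f : List Bool → Bool} (hf : ∀ y : List Bool, b :: y.take l ∉ S → f y = true)
    (hS : 4 * S.card ≤ 2 ^ l) : 3 * 2 ^ n ≤ 4 * cnt f n := by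
  have h1 := cnt_compl f n
  have h2 : (Finset.univ.filter fun w : Fin n → Bool => ¬ f (List.ofFn w) = true).card ≤
      S.card * 2 ^ (n - l) := by
    refine le_trans (Finset.card_le_card ?_) (card_preimage_take b n l S)
    intro w hw
    simp only [Finset.mem_filter, Finset.mem_univ, true_and] at hw ⊢
    by_contra hc
    exact hw (hf _ hc)
  have h3 : 4 * (S.card * 2 ^ (n - l)) ≤ 2 ^ n := by
    calc 4 * (S.card * 2 ^ (n - l)) = (4 * S.card) * 2 ^ (n - l) := by ring
      _ ≤ 2 ^ l * 2 ^ (n - l) := Nat.mul_le_mul_right _ hS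
      _ = 2 ^ n := by rw [← pow_add]; congr 1; omega
  omega

section
variable {W : Blk → Oracle} (hW : ∀ v : List Bool, Cert (fun B => W B v) v.length)
include hW

theorem good_small {n l T : ℕ} (M : OTM) (x : List Bool) (hl : l ≤ n)
    (hT : 4 * (T * T) < 2 ^ l) :
    ∃ B : Blk, Typed .zpp n (cnt (fun y => B (true :: y.take l)) n)
      (cnt (fun y => B (false :: y.take l)) n) ∧
      outcome (W B) M x [] T ≠ some (decide (cnt (fun y => B (true :: y.take l)) n ≠ 0)) := by
  classical
  have hpos : 0 < 2 ^ n := by positivity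
  obtain ⟨S, hS, hSf⟩ : CertAt (fun B => outcome (W B) M x [] T) (fun _ => false) (T * T) :=
    certAt_outcome fun v hv => (hW_le hW v hv) _
  beta_reduce at hSf
  by_cases hacc : outcome (W fun _ => false) M x [] T = some true
  · let B : Blk := fun z => decide (z.head? = some false ∧ z ∉ S)
    have h0 : cnt (fun y => B (true :: y.take l)) n = 0 := cnt_eq_zero (by simp [B])
    refine ⟨B, Or.inr ⟨?_, h0⟩, ?_⟩
    · exact cnt_large_take (b := false) (S := S) hl (by simp [B]) (by omega)
    · simp only [h0]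
      rw [hSf B (by intro i hi; simp [B, hi]), hacc]
      simp
  · let B : Blk := fun z => decide (z.head? = some true ∧ z ∉ S)
    have h0 : cnt (fun y => B (false :: y.take l)) n = 0 := cnt_eq_zero (by simp [B])
    have h1 : 3 * 2 ^ n ≤ 4 * cnt (fun y => B (true :: y.take l)) n :=
      cnt_large_take (b := true) (S := S) hl (by simp [B]) (by omega)
    refine ⟨B, Or.inl ⟨h1, h0⟩, ?_⟩
    rw [hSf B (by intro i hi; simp [B, hi])]
    have h2 : cnt (fun y => B (true :: y.take l)) n ≠ 0 := by omega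
    simp only [h2, ne_eq, not_false_eq_true, decide_true]
    exact hacc

theorem exists_goodS {a c n : ℕ} (hbig : ∀ j ≤ n, 4 * ((PP c).eval j) ^ 2 < 2 ^ n)
    (hsm : ∀ j ≤ n, 4 * (tS c (lev a) j) ^ 2 < 2 ^ (min n ((2 * lev a + 4) * Nat.log 2 n))) :
    ∃ B : Blk, TypedS a n (cnt (fun y => B (true :: y.take (lS a n))) n)
      (cnt (fun y => B (false :: y.take (lS a n))) n) ∧
      MisS a c n (W B) (cnt (fun y => B (true :: y.take (lS a n))) n) := by
  by_cases ha : a = 0
  · obtain ⟨B, hB⟩ := good_np hW hbig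
    refine ⟨B, by simp [TypedS, ha], ?_⟩
    have h1 : cnt (fun y => B (true :: y.take (lS a n))) n = cnt (fun y => B (true :: y)) n := by
      apply cnt_congr
      intro y hy
      simp only [lS, ha, if_true, ← hy, List.take_length]
    rw [h1]
    simp only [MisS, ha, if_true]
    exact hB
  · have h1 := hsm (n - (advS c).2.2) (Nat.sub_le _ _)
    have h2 : lS a n = min n ((2 * lev a + 4) * Nat.log 2 n) := by
      unfold lS
      rw [if_neg ha]
    rw [← h2] at h1
    simp only [TypedS, MisS, if_neg ha]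
    exact good_small hW (advS c).1 _ (lS_le a n) (by rw [← pow_two]; exact h1)

end

/-! ### Growth -/

theorem exists_big_small (C m : ℕ) : ∃ n0, ∀ n, n0 ≤ n → ∀ j ≤ n,
    4 * (C * j ^ m + C) ^ 2 < 2 ^ (min n ((2 * m + 4) * Nat.log 2 n)) := by
  obtain ⟨n1, h1⟩ := exists_big (Polynomial.C C * Polynomial.X ^ m + Polynomial.C C)
  refine ⟨max n1 (2 * (16 * C ^ 2 * 4 ^ m + 1)), fun n hn j hj => ?_⟩
  have hn1 : n1 ≤ n := (le_max_left _ _).trans hn
  have hn2 : 2 * (16 * C ^ 2 * 4 ^ m + 1) ≤ n := (le_max_right _ _).trans hn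
  have h2 : 4 * (C * j ^ m + C) ^ 2 < 2 ^ n := by
    have := h1 n hn1 j hj
    simpa using this
  rcases le_total n ((2 * m + 4) * Nat.log 2 n) with hle | hle
  · rw [min_eq_left hle]
    exact h2
  · rw [min_eq_right hle]
    set M := 2 ^ Nat.log 2 n with hM
    have hlt : n < 2 * M := by
      have := Nat.lt_pow_succ_log_self (b := 2) (by norm_num) n
      rw [pow_succ] at this
      omega
    have hMbig : 16 * C ^ 2 * 4 ^ m < M := by omega
    have hMpos : 0 < M := by positivity
    have h3 : 2 ^ ((2 * m + 4) * Nat.log 2 n) = M ^ (2 * m) * M ^ 4 := by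
      rw [hM, ← pow_mul, ← pow_mul, ← pow_add]
      congr 1
      ring
    rw [h3]
    have h4 : C * j ^ m + C ≤ 2 * C * (2 * M) ^ m := by
      have h5 : j ^ m ≤ (2 * M) ^ m := Nat.pow_le_pow_left (by omega) _
      have h6 : 1 ≤ (2 * M) ^ m := Nat.one_le_pow _ _ (by omega)
      nlinarith
    have h7 : 4 * (C * j ^ m + C) ^ 2 ≤ (16 * C ^ 2 * 4 ^ m) * M ^ (2 * m) := by
      calc 4 * (C * j ^ m + C) ^ 2 ≤ 4 * (2 * C * (2 * M) ^ m) ^ 2 :=
            Nat.mul_le_mul_left _ (Nat.pow_le_pow_left h4 2)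
        _ = (16 * C ^ 2 * 4 ^ m) * M ^ (2 * m) := by
            have e1 : (4 : ℕ) ^ m = 2 ^ m * 2 ^ m := by rw [← mul_pow]; norm_num
            have e2 : M ^ (2 * m) = M ^ m * M ^ m := by rw [two_mul, pow_add]
            have e3 : (2 * M) ^ m = 2 ^ m * M ^ m := mul_pow _ _ _
            rw [e1, e2, e3]
            ring
    refine lt_of_le_of_lt h7 ?_
    rw [mul_comm]
    apply Nat.mul_lt_mul_of_pos_left _ (by positivity)
    calc 16 * C ^ 2 * 4 ^ m < M := hMbig
      _ ≤ M ^ 4 := Nat.le_self_pow (by norm_num) M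

theorem exists_selS (s Y : ℕ) : ∃ n, Y < n ∧ ∀ c ≤ s, (∀ j ≤ n, 4 * ((PP c).eval j) ^ 2 < 2 ^ n) ∧
    ∀ m ≤ s, ∀ j ≤ n, 4 * (tS c m j) ^ 2 < 2 ^ (min n ((2 * m + 4) * Nat.log 2 n)) := by
  choose f hf using fun c => exists_big (PP c)
  choose g hg using fun c m => exists_big_small (advS c).2.1 m
  refine ⟨Y + 1 + ∑ c ∈ Finset.range (s + 1), (f c + ∑ m ∈ Finset.range (s + 1), g c m),
    by omega, fun c hc => ⟨fun j hj => ?_, fun m hm j hj => ?_⟩⟩
  · apply hf c _ _ j hj
    have : f c + ∑ m ∈ Finset.range (s + 1), g c m ≤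
        ∑ c ∈ Finset.range (s + 1), (f c + ∑ m ∈ Finset.range (s + 1), g c m) :=
      Finset.single_le_sum (f := fun c => f c + ∑ m ∈ Finset.range (s + 1), g c m)
        (fun _ _ => Nat.zero_le _) (Finset.mem_range.2 (by omega : c < s + 1))
    omega
  · apply hg c m _ _ j hj
    have h1 : f c + ∑ m ∈ Finset.range (s + 1), g c m ≤
        ∑ c ∈ Finset.range (s + 1), (f c + ∑ m ∈ Finset.range (s + 1), g c m) :=
      Finset.single_le_sum (f := fun c => f c + ∑ m ∈ Finset.range (s + 1), g c m)
        (fun _ _ => Nat.zero_le _) (Finset.mem_range.2 (by omega : c < s + 1))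
    have h2 : g c m ≤ ∑ m ∈ Finset.range (s + 1), g c m :=
      Finset.single_le_sum (f := fun m => g c m) (fun _ _ => Nat.zero_le _)
        (Finset.mem_range.2 (by omega : m < s + 1))
    omega

/-- The length chosen at stage `s`. -/
noncomputable def nselS (s Y : ℕ) : ℕ := Classical.choose (exists_selS s Y)

theorem nselS_spec (s Y : ℕ) : Y < nselS s Y ∧ ∀ c ≤ s,
    (∀ j ≤ nselS s Y, 4 * ((PP c).eval j) ^ 2 < 2 ^ (nselS s Y)) ∧
    ∀ m ≤ s, ∀ j ≤ nselS s Y, 4 * (tS c m j) ^ 2 <
      2 ^ (min (nselS s Y) ((2 * m + 4) * Nat.log 2 (nselS s Y))) :=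
  Classical.choose_spec (exists_selS s Y)

/-- The bound for all adversaries of stage `s`. -/
noncomputable def advBd (s n : ℕ) : ℕ :=
  ∑ c ∈ Finset.range (s + 1), ∑ j ∈ Finset.range (n + 1),
    ((PP c).eval j + ∑ m ∈ Finset.range (s + 1), tS c m j)

theorem advBd_le {s n c j : ℕ} (hc : c ≤ s) (hj : j ≤ n) :
    (PP c).eval j + ∑ m ∈ Finset.range (s + 1), tS c m j ≤ advBd s n := by
  have h1 : (PP c).eval j + ∑ m ∈ Finset.range (s + 1), tS c m j ≤
      ∑ j ∈ Finset.range (n + 1), ((PP c).eval j + ∑ m ∈ Finset.range (s + 1), tS c m j) :=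
    Finset.single_le_sum (f := fun j => (PP c).eval j + ∑ m ∈ Finset.range (s + 1), tS c m j)
      (fun _ _ => Nat.zero_le _) (Finset.mem_range.2 (by omega))
  exact h1.trans (Finset.single_le_sum
    (f := fun c => ∑ j ∈ Finset.range (n + 1),
      ((PP c).eval j + ∑ m ∈ Finset.range (s + 1), tS c m j))
    (fun _ _ => Nat.zero_le _) (Finset.mem_range.2 (by omega : c < s + 1)))

/-- The lengths at which the stages start. -/
noncomputable def YfS : ℕ → ℕ
  | 0 => 0
  | s + 1 => nselS s (YfS s) + s + 10 + advBd s (nselS s (YfS s))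

/-- The lengths of the blocks. -/
noncomputable def nfS (s : ℕ) : ℕ := nselS s (YfS s)

theorem polS_le {s c j : ℕ} (hc : c ≤ s) (hj : j ≤ nfS s) : (PP c).eval j ≤ YfS (s + 1) := by
  have h1 := advBd_le (n := nfS s) hc hj
  simp only [YfS]
  unfold nfS at h1
  omega

theorem tS_le {s c m j : ℕ} (hc : c ≤ s) (hm : m ≤ s) (hj : j ≤ nfS s) :
    tS c m j ≤ YfS (s + 1) := by
  have h1 := advBd_le (n := nfS s) hc hj
  have h2 : tS c m j ≤ ∑ m ∈ Finset.range (s + 1), tS c m j :=
    Finset.single_le_sum (f := fun m => tS c m j) (fun _ _ => Nat.zero_le _)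
      (Finset.mem_range.2 (by omega : m < s + 1))
  simp only [YfS]
  unfold nfS at h1
  omega

/-- Values in inactive regions. -/
def dfltS (a : ℕ) (c : Bool) (_ : List Bool) : Bool := if a = 0 then false else !c

open Classical in
/-- The diagonalization rule. -/
noncomputable def ΔS (a c n : ℕ) (g : List Bool → Blk → Bool) : Blk :=
  if h : ∃ B : Blk, TypedS a n (cnt (fun y => B (true :: y.take (lS a n))) n)
      (cnt (fun y => B (false :: y.take (lS a n))) n) ∧
      MisS a c n (fun u => g u B) (cnt (fun y => B (true :: y.take (lS a n))) n) then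
    Classical.choose h
  else fun z => decide (z.head? = some false)

theorem typed_ΔS (a c n : ℕ) (g : List Bool → Blk → Bool) :
    TypedS a n (cnt (fun y => ΔS a c n g (true :: y.take (lS a n))) n)
      (cnt (fun y => ΔS a c n g (false :: y.take (lS a n))) n) := by
  classical
  unfold ΔS
  split_ifs with h
  · exact (Classical.choose_spec h).1
  · unfold TypedS
    by_cases ha : a = 0
    · rw [if_pos ha]
      trivial
    · rw [if_neg ha]
      right
      refine ⟨?_, ?_⟩
      · have : cnt (fun y : List Bool =>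
            decide ((false :: y.take (lS a n)).head? = some false)) n = 2 ^ n := by
          simp [cnt_true]
        rw [this]
        have : 0 < 2 ^ n := by positivity
        omega
      · simp [cnt_false]

theorem mis_ΔS {a c n : ℕ} {g : List Bool → Blk → Bool}
    (hg : ∀ v : List Bool, Cert (g v) v.length)
    (hbig : ∀ j ≤ n, 4 * ((PP c).eval j) ^ 2 < 2 ^ n)
    (hsm : ∀ j ≤ n, 4 * (tS c (lev a) j) ^ 2 < 2 ^ (min n ((2 * lev a + 4) * Nat.log 2 n))) :
    MisS a c n (fun u => g u (ΔS a c n g))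
      (cnt (fun y => ΔS a c n g (true :: y.take (lS a n))) n) := by
  classical
  have h := exists_goodS (W := fun B u => g u B) hg (a := a) hbig hsm
  have h2 : ΔS a c n g = Classical.choose h := by
    unfold ΔS
    rw [dif_pos h]
  rw [h2]
  exact (Classical.choose_spec h).2

/-- The concrete parameters. -/
noncomputable def CxS : CtxS where
  l := lS
  dflt := dfltS
  Δ := ΔS
  Y := YfS
  n := nfS
  Y0 := rfl
  hYn := fun s => (nselS_spec s (YfS s)).1.le
  hnY := fun s => by
    simp only [YfS, nfS]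
    omega

theorem nfS_ne_zero (s : ℕ) : nfS s ≠ 0 := by
  have := (nselS_spec s (YfS s)).1
  unfold nfS
  omega

theorem misS_congr {a c n : ℕ} {A A' : Oracle} {p : ℕ}
    (h : ∀ j ≤ n, ∀ v : List Bool, v.length ≤ (PP c).eval j → A v = A' v)
    (h' : ∀ j ≤ n, ∀ v : List Bool, v.length ≤ tS c (lev a) j → A v = A' v) :
    MisS a c n A p ↔ MisS a c n A' p := by
  unfold MisS
  split_ifs with ha
  · rw [verdict_congr]
    intro v hv
    apply h n le_rfl v
    simp only [List.length_replicate, Sem.bd] at hv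
    simp only [PP, Polynomial.eval_add]
    omega
  · rw [outcome_congr]
    intro v hv
    exact h' (n - (advS c).2.2) (Nat.sub_le _ _) v hv

variable {dem : ℕ → Dem} (hrow : ∀ s a c m, dem s = some (a, c, m) → a ≤ s)
include hrow

theorem cntO_activeS {s a c m : ℕ} (hd : dem s = some (a, c, m)) (b : Bool) :
    cntO (CxS.O dem) a b (nfS s) =
      cnt (fun y => CxS.blk dem s (b :: y.take (lS a (nfS s)))) (nfS s) := by
  apply cnt_congr
  intro y hy
  exact S_O_reg_active hd ((hrow s a c m hd).trans (Nat.le_succ s)) hy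

omit hrow in
theorem cntO_inactiveS {a n : ℕ} (b : Bool)
    (h : ∀ s, ¬ ((∃ c m, dem s = some (a, c, m)) ∧ n = nfS s)) :
    cntO (CxS.O dem) a b n = cnt (dfltS a b) n := by
  apply cnt_congr
  intro y hy
  apply S_O_reg_inactive
  intro s hs
  apply h s
  rw [← hy]
  exact hs

/-- At an unbroken stage the adversary errs on the final oracle. -/
theorem mis_OS {s a c m : ℕ} (hd : dem s = some (a, c, m)) (hc : CxS.chosen dem s = none)
    (hcs : c ≤ s) : MisS a c (nfS s) (CxS.O dem) (cntO (CxS.O dem) a true (nfS s)) := by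
  have hlev : lev a ≤ s := by
    have h1 := hrow s a c m hd
    have h2 := Nat.unpair_left_le (a - 1)
    unfold lev
    omega
  rw [cntO_activeS hrow hd]
  have h1 : CxS.blk dem s = ΔS a c (nfS s) (CxS.famS dem s) := S_blk_diag hd hc
  rw [misS_congr (A' := fun u => CxS.famS dem s u (CxS.blk dem s))]
  · rw [h1]
    exact mis_ΔS (fun v => cert_GS v) (((nselS_spec s (YfS s)).2 c hcs).1)
      (((nselS_spec s (YfS s)).2 c hcs).2 _ hlev)
  · intro j hj v hv
    exact S_O_stage (C := CxS) (hv.trans (polS_le hcs hj))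
  · intro j hj v hv
    exact S_O_stage (C := CxS) (hv.trans (tS_le hcs hlev hj))

/-- If all stages of length `n` in the row are unbroken, the region of length `n` is typed. -/
theorem typed_OS {a n : ℕ} (ha : a ≠ 0) (h : ∀ s c m, n = nfS s → dem s = some (a, c, m) →
    CxS.chosen dem s = none) :
    Typed .zpp n (cntO (CxS.O dem) a true n) (cntO (CxS.O dem) a false n) := by
  by_cases hex : ∃ s, (∃ c m, dem s = some (a, c, m)) ∧ n = nfS s
  · obtain ⟨s, ⟨c, m, hd⟩, rfl⟩ := hex
    rw [cntO_activeS hrow hd, cntO_activeS hrow hd]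
    have h1 : CxS.blk dem s = ΔS a c (nfS s) (CxS.famS dem s) := S_blk_diag hd (h s c m rfl hd)
    rw [h1]
    have h2 := typed_ΔS a c (nfS s) (CxS.famS dem s)
    unfold TypedS at h2
    rw [if_neg ha] at h2
    exact h2
  · have hno : ∀ s, ¬ ((∃ c m, dem s = some (a, c, m)) ∧ n = nfS s) := fun s hs => hex ⟨s, hs⟩
    rw [cntO_inactiveS _ hno, cntO_inactiveS _ hno]
    have hpos : 0 < 2 ^ n := by positivity
    right
    have h1 : dfltS a true = fun _ => false := by
      funext y
      simp [dfltS]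
    have h2 : dfltS a false = fun _ => true := by
      funext y
      simp [dfltS, ha]
    rw [h1, h2, cnt_true, cnt_false]
    omega

end H556R2
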