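import Pool.Agent.H556R2.Cert

/-!
# Semantic machines, verdicts, codes of strings
-/

namespace H556R2

/-- A machine together with the polynomials bounding the length of its second input and its
running time. -/
structure SM where
  M : OTM
  m : Polynomial ℕ
  p : Polynomial ℕ

instance : Countable SM := by
  have hf : Function.Injective (fun E : SM => (E.M, E.m, E.p)) := by
    rintro ⟨M, m, p⟩ ⟨M', m', p'⟩ h
    simp only [Prod.mk.injEq] at h
    obtain ⟨rfl, rfl, rfl⟩ := h
    rfl
  exact hf.countable

instance : Nonempty SM := ⟨⟨Classical.arbitrary _, 0, 0⟩⟩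

/-- Number of accepting second inputs. -/
def SM.acc (E : SM) (A : Oracle) (x : List Bool) : ℕ :=
  accCount A E.M x (E.m.eval x.length) (E.p.eval x.length)

/-- Halting for all second inputs within the time bound. -/
def SM.halts (E : SM) (A : Oracle) (x : List Bool) : Prop :=
  HaltsAll A E.M x (E.m.eval x.length) (E.p.eval x.length)

/-- Number of second inputs. -/
def SM.tot (E : SM) (x : List Bool) : ℕ := 2 ^ (E.m.eval x.length)

theorem SM.tot_pos (E : SM) (x : List Bool) : 0 < E.tot x := by
  unfold SM.tot
  positivity

/-- The acceptance criteria. -/
inductive Kind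
  | rp
  | bpp
  | npc

instance : Finite Kind := by
  refine Finite.of_injective (β := Fin 3)
    (fun d => match d with | .rp => 0 | .bpp => 1 | .npc => 2) ?_
  rintro (_ | _ | _) (_ | _ | _) h <;> first | rfl | (exfalso; revert h; decide)

instance : Nonempty Kind := ⟨.rp⟩

/-- An acceptance criterion with two machines. -/
abbrev Sem := Kind × SM × SM

open Classical in
/-- The verdict of a semantic machine: `none` if the promise is violated. -/
noncomputable def verdict (e : Sem) (A : Oracle) (x : List Bool) : Option Bool :=
  match e with
  | (.rp, E, _) =>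
    if E.halts A x then
      (if E.acc A x = 0 then some false
        else if E.tot x ≤ 2 * E.acc A x then some true else none)
    else none
  | (.bpp, E, _) =>
    if E.halts A x then
      (if 3 * E.acc A x ≤ E.tot x then some false
        else if 2 * E.tot x ≤ 3 * E.acc A x then some true else none)
    else none
  | (.npc, E, E') =>
    if E.halts A x ∧ E'.halts A x then
      (if E.acc A x ≠ 0 ∧ E'.acc A x = 0 then some true
        else if E.acc A x = 0 ∧ E'.acc A x ≠ 0 then some false else none)
    else none

/-- Bound on the running time. -/
def Sem.bd (e : Sem) (n : ℕ) : ℕ := e.2.1.p.eval n + e.2.2.p.eval n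

/-- The verdict as a Boolean. -/
noncomputable def vd (e : Sem) (A : Oracle) (x : List Bool) : Bool :=
  decide (verdict e A x = some true)

theorem verdict_congr {e : Sem} {A A' : Oracle} {x : List Bool}
    (h : ∀ v : List Bool, v.length ≤ e.bd x.length → A v = A' v) :
    verdict e A x = verdict e A' x := by
  classical
  obtain ⟨k, E, E'⟩ := e
  have h1 : ∀ v : List Bool, v.length ≤ E.p.eval x.length → A v = A' v := by
    intro v hv
    apply h
    simp only [Sem.bd]
    omega
  have h2 : ∀ v : List Bool, v.length ≤ E'.p.eval x.length → A v = A' v := by
    intro v hv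
    apply h
    simp only [Sem.bd]
    omega
  have e1 : E.acc A x = E.acc A' x := accCount_congr h1
  have e2 : E'.acc A x = E'.acc A' x := accCount_congr h2
  have e3 : E.halts A x ↔ E.halts A' x := haltsAll_congr h1
  have e4 : E'.halts A x ↔ E'.halts A' x := haltsAll_congr h2
  cases k with
  | rp =>
    simp only [verdict, e1]
    exact if_congr e3 rfl rfl
  | bpp =>
    simp only [verdict, e1]
    exact if_congr e3 rfl rfl
  | npc =>
    simp only [verdict, e1, e2]
    exact if_congr (and_congr e3 e4) rfl rfl

theorem vd_congr {e : Sem} {A A' : Oracle} {x : List Bool}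
    (h : ∀ v : List Bool, v.length ≤ e.bd x.length → A v = A' v) :
    vd e A x = vd e A' x := by
  unfold vd
  rw [verdict_congr h]

/-- The family of outcomes. -/
def SM.fam {ι : Type} (E : SM) (W : (ι → Bool) → Oracle) (x : List Bool)
    (w : Fin (E.m.eval x.length) → Bool) (B : ι → Bool) : Option Bool :=
  outcome (W B) E.M x (List.ofFn w) (E.p.eval x.length)

theorem acN_fam {ι : Type} (E : SM) (W : (ι → Bool) → Oracle) (x : List Bool) (B : ι → Bool) :
    acN (E.fam W x) B = E.acc (W B) x := rfl

theorem cert_fam {ι : Type} [DecidableEq ι] {E : SM} {W : (ι → Bool) → Oracle} {x : List Bool}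
    {T : ℕ} (hT : E.p.eval x.length ≤ T)
    (hW : ∀ v : List Bool, v.length ≤ T → Cert (fun B => W B v) T)
    (w : Fin (E.m.eval x.length) → Bool) : Cert (E.fam W x w) (T * T) := by
  intro B
  refine CertAt.mono (q := E.p.eval x.length * T) ?_ (Nat.mul_le_mul_right _ hT)
  apply certAt_outcome
  intro v hv
  exact hW v (hv.trans hT) B

theorem card_fam (E : SM) (x : List Bool) :
    Fintype.card (Fin (E.m.eval x.length) → Bool) = E.tot x := by
  simp [SM.tot]

/-- If the promise cannot be violated, the verdict has small certificates. -/
theorem cert_vd {ι : Type} [DecidableEq ι] {e : Sem} {W : (ι → Bool) → Oracle}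
    {x : List Bool}
    (hW : ∀ v : List Bool, v.length ≤ e.bd x.length → Cert (fun B => W B v) (e.bd x.length))
    (hne : ∀ B, verdict e (W B) x ≠ none) :
    Cert (fun B => vd e (W B) x) (9 * (e.bd x.length * e.bd x.length) ^ 2) := by
  obtain ⟨k, E, E'⟩ := e
  have hT : E.p.eval x.length ≤ Sem.bd (k, E, E') x.length := by
    simp only [Sem.bd]
    omega
  have hT' : E'.p.eval x.length ≤ Sem.bd (k, E, E') x.length := by
    simp only [Sem.bd]
    omega
  have hF := cert_fam hT hW
  have hF' := cert_fam hT' hW
  have hΩ : 0 < Fintype.card (Fin (E.m.eval x.length) → Bool) := by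
    rw [card_fam]
    exact E.tot_pos x
  cases k with
  | rp =>
    have h1 := cert_rp (F := E.fam W x) hΩ hF (by
      intro B
      rw [acN_fam, card_fam]
      have := hne B
      simp only [verdict] at this
      split_ifs at this with h2 h3 h4
      · left; exact h3
      · right; exact h4
      · simp at this
      · simp at this)
    have h2 : (fun B => vd (.rp, E, E') (W B) x) = fun B => decide (acN (E.fam W x) B ≠ 0) := by
      funext B
      rw [acN_fam]
      have := hne B
      simp only [verdict] at this
      simp only [vd, verdict]
      split_ifs at this with h2 h3 h4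
      · simp [h2, h3]
      · simp [h2, h3, h4]
      · simp at this
      · simp at this
    rw [h2]
    exact h1
  | bpp =>
    have h1 := cert_bpp (F := E.fam W x) hΩ hF (by
      intro B
      rw [acN_fam, card_fam]
      have := hne B
      simp only [verdict] at this
      split_ifs at this with h2 h3 h4
      · left; exact h3
      · right; exact h4
      · simp at this
      · simp at this)
    have h2 : (fun B => vd (.bpp, E, E') (W B) x) = fun B =>
        decide (2 * Fintype.card (Fin (E.m.eval x.length) → Bool) ≤ 3 * acN (E.fam W x) B) := by
      funext B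
      rw [acN_fam, card_fam]
      have h0 := E.tot_pos x
      have := hne B
      simp only [verdict] at this
      simp only [vd, verdict]
      split_ifs at this with h2 h3 h4
      · have : ¬ (2 * E.tot x ≤ 3 * E.acc (W B) x) := by omega
        simp [h2, h3, this]
      · simp [h2, h3, h4]
      · simp at this
      · simp at this
    rw [h2]
    exact h1
  | npc =>
    have h1 := cert_npc (F := E.fam W x) (F' := E'.fam W x) hF hF' (by
      intro B
      rw [acN_fam, acN_fam]
      have := hne B
      simp only [verdict] at this
      split_ifs at this with h2 h3 h4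
      · left; exact h3
      · right; exact h4
      · simp at this
      · simp at this)
    have h2 : (fun B => vd (.npc, E, E') (W B) x) =
        fun B => decide (acN (E.fam W x) B ≠ 0) := by
      funext B
      rw [acN_fam]
      have := hne B
      simp only [verdict] at this
      simp only [vd, verdict]
      split_ifs at this with h2 h3 h4
      · simp [h2, h3]
      · simp [h2, h4]
      · simp at this
      · simp at this
    rw [h2]
    exact h1

/-- The threshold from which on coded queries are answered. -/
def Sem.thr (e : Sem) (n : ℕ) : ℕ := 9 * (e.bd n * e.bd n) ^ 2 + e.bd n + 1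

/-- The threshold as a polynomial. -/
noncomputable def Sem.thrP (e : Sem) : Polynomial ℕ :=
  9 * ((e.2.1.p + e.2.2.p) * (e.2.1.p + e.2.2.p)) ^ 2 + (e.2.1.p + e.2.2.p) + 1

theorem Sem.eval_thrP (e : Sem) (n : ℕ) : e.thrP.eval n = e.thr n := by
  simp [Sem.thrP, Sem.thr, Sem.bd]

/-! ### Coding of strings -/

/-- Unary code of a number. -/
def encN (k : ℕ) : List Bool := List.replicate k true ++ [false]

/-- Self-delimiting code of a string. -/
def encS : List Bool → List Bool
  | [] => [false]
  | b :: x => true :: b :: encS x

/-- Strings of the region `a`. -/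
def reg (a : ℕ) (c : Bool) (y : List Bool) : List Bool := true :: (encN a ++ (c :: y))

/-- Coded strings. -/
def cod (k : ℕ) (x : List Bool) (t : ℕ) (f : Bool) : List Bool :=
  false :: (encN k ++ (encS x ++ (List.replicate t true ++ [f])))

theorem encN_zero : encN 0 = [false] := rfl

theorem encN_succ (k : ℕ) : encN (k + 1) = true :: encN k := rfl

theorem length_encN (k : ℕ) : (encN k).length = k + 1 := by simp [encN]

theorem length_encS (x : List Bool) : (encS x).length = 2 * x.length + 1 := by
  induction x with
  | nil => rfl
  | cons b x ih => simp only [encS, List.length_cons, ih]; ring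

theorem length_reg (a : ℕ) (c : Bool) (y : List Bool) :
    (reg a c y).length = a + 3 + y.length := by
  simp only [reg, List.length_cons, List.length_append, length_encN]
  ring

theorem length_cod (k : ℕ) (x : List Bool) (t : ℕ) (f : Bool) :
    (cod k x t f).length = k + 2 * x.length + t + 4 := by
  simp only [cod, List.length_cons, List.length_append, length_encN, length_encS,
    List.length_replicate, List.length_nil]
  ring

theorem encN_append_inj : ∀ {k k' : ℕ} {r r' : List Bool}, encN k ++ r = encN k' ++ r' →
    k = k' ∧ r = r' := by
  intro k
  induction k with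
  | zero =>
    intro k' r r' h
    cases k' with
    | zero => simpa [encN] using h
    | succ k' => simp [encN_zero, encN_succ] at h
  | succ k ih =>
    intro k' r r' h
    cases k' with
    | zero => simp [encN_zero, encN_succ] at h
    | succ k' =>
      simp only [encN_succ, List.cons_append, List.cons.injEq, true_and] at h
      obtain ⟨rfl, rfl⟩ := ih h
      exact ⟨rfl, rfl⟩

theorem encS_append_inj : ∀ {x x' : List Bool} {r r' : List Bool}, encS x ++ r = encS x' ++ r' →
    x = x' ∧ r = r' := by
  intro x
  induction x with
  | nil =>
    intro x' r r' h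
    cases x' with
    | nil => simpa [encS] using h
    | cons b x' => simp [encS] at h
  | cons b x ih =>
    intro x' r r' h
    cases x' with
    | nil => simp [encS] at h
    | cons b' x' =>
      simp only [encS, List.cons_append, List.cons.injEq, true_and] at h
      obtain ⟨rfl, h⟩ := h
      obtain ⟨rfl, rfl⟩ := ih h
      exact ⟨rfl, rfl⟩

/-- All meaningful strings. -/
def encode : (ℕ × Bool × List Bool) ⊕ (ℕ × List Bool × ℕ × Bool) → List Bool
  | .inl (a, c, y) => reg a c y
  | .inr (k, x, t, f) => cod k x t f

theorem encode_injective : Function.Injective encode := by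
  rintro (⟨a, c, y⟩ | ⟨k, x, t, f⟩) (⟨a', c', y'⟩ | ⟨k', x', t', f'⟩) h
  · simp only [encode, reg, List.cons.injEq, true_and] at h
    have h1 := encN_append_inj h
    obtain ⟨h2, h3⟩ := h1
    simp only [List.cons.injEq] at h3
    obtain ⟨h4, h5⟩ := h3
    rw [h2, h4, h5]
  · simp [encode, reg, cod] at h
  · simp [encode, reg, cod] at h
  · simp only [encode, cod, List.cons.injEq, true_and] at h
    have h1 := encN_append_inj h
    obtain ⟨h2, h3⟩ := h1
    obtain ⟨h4, h5⟩ := encS_append_inj h3
    have hl := congrArg List.length h5
    simp only [List.length_append, List.length_replicate, List.length_cons, List.length_nil]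
      at hl
    obtain rfl : t = t' := by omega
    simp only [List.append_cancel_left_eq, List.cons.injEq, and_true] at h5
    rw [h2, h4, h5]

/-- Parsing of strings. -/
noncomputable def parse (u : List Bool) :
    Option ((ℕ × Bool × List Bool) ⊕ (ℕ × List Bool × ℕ × Bool)) :=
  Function.partialInv encode u

theorem parse_reg (a : ℕ) (c : Bool) (y : List Bool) :
    parse (reg a c y) = some (.inl (a, c, y)) :=
  (encode_injective.isPartialInv _ _).2 rfl

theorem parse_cod (k : ℕ) (x : List Bool) (t : ℕ) (f : Bool) :
    parse (cod k x t f) = some (.inr (k, x, t, f)) :=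
  (encode_injective.isPartialInv _ _).2 rfl

theorem parse_eq_some {u : List Bool}
    {s : (ℕ × Bool × List Bool) ⊕ (ℕ × List Bool × ℕ × Bool)} (h : parse u = some s) :
    encode s = u :=
  (encode_injective.isPartialInv _ _).1 h

end H556R2
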